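import Pool.Agent.J4H24.CA.Pot

/-!
# Sums, products and complements of blocky sets, and the choice of a rectangle
-/

namespace Pool.Agent.J4H24.CA

open Finset Pool.Agent.J4H24.PR Pool.Agent.J4H24.SA

set_option linter.unusedSectionVars false

/-- the relative form of the bound for relations with equal or disjoint rows -/
lemma dif_bound2 {W : Type*} [Fintype W] [DecidableEq W] {P : W → W → Prop} (hP : Dif P)
    (h : W → W → ℝ) {E : ℝ} (hE0 : 0 ≤ E) (X0 Y0 : Finset W)
    (hsub : ∀ x y, P x y → x ∈ X0 ∧ y ∈ Y0)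
    (hrect : ∀ X ⊆ X0, ∀ Y ⊆ Y0, (∀ x ∈ X, ∀ y ∈ Y, P x y) →
      -(E * (Real.sqrt X.card * Real.sqrt Y.card)) ≤ ∑ x ∈ X, ∑ y ∈ Y, h x y)
    [∀ x y, Decidable (P x y)] :
    -(E * (Real.sqrt X0.card * Real.sqrt Y0.card)) ≤ ∑ x, ∑ y, if P x y then h x y else 0 := by
  classical
  obtain ⟨row, hrow⟩ : ∃ row : W → Finset W, row = fun x => univ.filter (P x) := ⟨_, rfl⟩
  have hmem : ∀ x y, y ∈ row x ↔ P x y := by
    intro x y
    rw [hrow]
    simp
  have h1 : ∑ x, ∑ y, (if P x y then h x y else 0) =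
      ∑ z ∈ X0.image row, ∑ x ∈ X0.filter (fun x => row x = z), ∑ y ∈ z, h x y := by
    have h2 : ∑ x, ∑ y, (if P x y then h x y else 0) =
        ∑ x ∈ X0, ∑ y, (if P x y then h x y else 0) := by
      symm
      refine Finset.sum_subset (Finset.subset_univ _) fun x _ hx => ?_
      exact Finset.sum_eq_zero fun y _ => if_neg fun hp => hx (hsub x y hp).1
    rw [h2, ← Finset.sum_fiberwise_of_maps_to (g := row) (t := X0.image row)
      fun x hx => Finset.mem_image_of_mem _ hx]
    refine Finset.sum_congr rfl fun z _ => Finset.sum_congr rfl fun x hx => ?_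
    rw [← Finset.sum_filter]
    refine Finset.sum_congr ?_ fun _ _ => rfl
    rw [← (Finset.mem_filter.mp hx).2, hrow]
  rw [h1]
  have h2 : ∀ z ∈ X0.image row, -(E * (Real.sqrt (X0.filter fun x => row x = z).card *
      Real.sqrt z.card)) ≤ ∑ x ∈ X0.filter (fun x => row x = z), ∑ y ∈ z, h x y := by
    intro z hz
    obtain ⟨x1, -, hx1⟩ := Finset.mem_image.mp hz
    refine hrect _ (Finset.filter_subset _ _) _ ?_ fun x hx y hy => ?_
    · intro y hy
      rw [← hx1, hmem] at hy
      exact (hsub _ _ hy).2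
    · rw [← hmem, (Finset.mem_filter.mp hx).2]
      exact hy
  refine le_trans ?_ (Finset.sum_le_sum h2)
  rw [Finset.sum_neg_distrib, ← Finset.mul_sum]
  refine neg_le_neg (mul_le_mul_of_nonneg_left ?_ hE0)
  have h3 := Finset.sum_mul_sq_le_sq_mul_sq (X0.image row)
    (fun z => Real.sqrt (X0.filter fun x => row x = z).card) (fun z => Real.sqrt z.card)
  have h4 : ∑ z ∈ X0.image row, Real.sqrt (X0.filter fun x => row x = z).card ^ 2 =
      X0.card := by
    rw [Finset.sum_congr rfl fun z _ => Real.sq_sqrt (Nat.cast_nonneg _), ← Nat.cast_sum]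
    congr 1
    exact (Finset.card_eq_sum_card_fiberwise
      fun x hx => Finset.mem_image_of_mem _ hx).symm
  have h5 : ∑ z ∈ X0.image row, Real.sqrt z.card ^ 2 ≤ Y0.card := by
    rw [Finset.sum_congr rfl fun z _ => Real.sq_sqrt (Nat.cast_nonneg _), ← Nat.cast_sum]
    have h6 : ∑ z ∈ X0.image row, z.card = ((X0.image row).biUnion id).card := by
      rw [Finset.card_biUnion]
      · rfl
      · intro z hz z' hz' hne
        obtain ⟨x, -, rfl⟩ := Finset.mem_image.mp hz
        obtain ⟨x', -, rfl⟩ := Finset.mem_image.mp hz'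
        show Disjoint (row x) (row x')
        rw [Finset.disjoint_left]
        intro y hy hy'
        apply hne
        rw [hmem] at hy hy'
        ext y'
        rw [hmem, hmem]
        exact ⟨fun hh => hP x' y x y' hy' hy hh, fun hh => hP x y x' y' hy hy' hh⟩
    rw [h6]
    have h7 : (X0.image row).biUnion id ⊆ Y0 := by
      intro y hy
      obtain ⟨z, hz, hyz⟩ := Finset.mem_biUnion.mp hy
      obtain ⟨x1, -, hx1⟩ := Finset.mem_image.mp hz
      have hyz' : y ∈ z := hyz
      rw [← hx1, hmem] at hyz'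
      exact (hsub _ _ hyz').2
    exact_mod_cast Finset.card_le_card h7
  rw [h4] at h3
  have h6 : (∑ z ∈ X0.image row, Real.sqrt (X0.filter fun x => row x = z).card *
      Real.sqrt z.card) ^ 2 ≤ (Real.sqrt X0.card * Real.sqrt Y0.card) ^ 2 := by
    refine h3.trans ?_
    rw [mul_pow, Real.sq_sqrt (Nat.cast_nonneg _), Real.sq_sqrt (Nat.cast_nonneg _)]
    exact mul_le_mul_of_nonneg_left h5 (Nat.cast_nonneg _)
  exact (le_abs_self _).trans (abs_le_of_sq_le_sq h6 (by positivity))

variable {V ι : Type*} [Fintype V] [DecidableEq V] [Fintype ι] [DecidableEq ι]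
  {g r : ℕ} {R : ι → Fin (8 * g) → V} {b : ι → ZMod 2}

/-- a function with values `0` and `1` -/
def Zo (f : (V → Bk) → (V → Bk) → ℝ) : Prop := ∀ x y, f x y = 0 ∨ f x y = 1

lemma Bks.mono {K K' : ℕ} {f : (V → Bk) → (V → Bk) → ℝ} (h : Bks K f) (hK : K ≤ K') :
    Bks K' f := by
  obtain ⟨κ, i, P, h1, h2, h3⟩ := h
  exact ⟨κ, i, P, h1.trans hK, h2, h3⟩

lemma Bks.congr {K : ℕ} {f f' : (V → Bk) → (V → Bk) → ℝ} (h : Bks K f)
    (hf : ∀ x y, f' x y = f x y) : Bks K f' := by
  obtain ⟨κ, i, P, h1, h2, h3⟩ := h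
  exact ⟨κ, i, P, h1, h2, fun x y => (hf x y).trans (h3 x y)⟩

lemma bks_zero : Bks 0 (fun (_ _ : V → Bk) => (0 : ℝ)) := by
  refine ⟨Empty, inferInstance, fun a => a.elim, by simp, fun a => a.elim, fun x y => by simp⟩

lemma bks_dif {P : (V → Bk) → (V → Bk) → Prop} (hP : Dif P) :
    Bks 1 (fun x y => Set.indicator {p | P p.1 p.2} (fun _ => (1 : ℝ)) (x, y)) := by
  refine ⟨Unit, inferInstance, fun _ => P, by simp, fun _ => hP, fun x y => by simp⟩

lemma bks_rect (X Y : Finset (V → Bk)) :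
    Bks 1 (fun x y => if x ∈ X ∧ y ∈ Y then (1 : ℝ) else 0) := by
  classical
  refine (bks_dif (P := fun x y => x ∈ X ∧ y ∈ Y) ?_).congr fun x y => ?_
  · intro x y x' y' h1 h2 h3
    exact ⟨h1.1, h3.2⟩
  · rw [Set.indicator_apply]
    exact if_congr Iff.rfl rfl rfl

lemma bks_one : Bks 1 (fun (_ _ : V → Bk) => (1 : ℝ)) :=
  (bks_rect univ univ).congr fun x y => by simp

lemma Bks.mul {K K' : ℕ} {f f' : (V → Bk) → (V → Bk) → ℝ} (h : Bks K f) (h' : Bks K' f') :
    Bks (K * K') (fun x y => f x y * f' x y) := by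
  classical
  obtain ⟨κ, i, P, h1, h2, h3⟩ := h
  obtain ⟨κ', i', P', h1', h2', h3'⟩ := h'
  refine ⟨κ × κ', inferInstance, fun p x y => P p.1 x y ∧ P' p.2 x y, ?_, ?_, ?_⟩
  · rw [Fintype.card_prod]
    exact Nat.mul_le_mul h1 h1'
  · intro p x y x' y' h4 h5 h6
    exact ⟨h2 p.1 x y x' y' h4.1 h5.1 h6.1, h2' p.2 x y x' y' h4.2 h5.2 h6.2⟩
  · intro x y
    show f x y * f' x y = _
    rw [h3, h3', Finset.sum_mul_sum, ← Finset.univ_product_univ, Finset.sum_product]
    refine Finset.sum_congr rfl fun k _ => Finset.sum_congr rfl fun k' _ => ?_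
    rw [Set.indicator_apply, Set.indicator_apply, Set.indicator_apply]
    by_cases h4 : P k x y <;> by_cases h5 : P' k' x y <;> simp [h4, h5]

lemma Bks.sum {α : Type} [Fintype α] {K : ℕ} {f : α → (V → Bk) → (V → Bk) → ℝ}
    (h : ∀ a, Bks K (f a)) : Bks (Fintype.card α * K) (fun x y => ∑ a, f a x y) := by
  classical
  choose κ i P h1 h2 h3 using h
  refine ⟨(Σ a, κ a), inferInstance, fun p => P p.1 p.2, ?_, ?_, ?_⟩
  · rw [Fintype.card_sigma]
    refine (Finset.sum_le_sum fun a _ => h1 a).trans ?_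
    rw [Finset.sum_const, Finset.card_univ, smul_eq_mul]
  · intro p
    exact h2 p.1 p.2
  · intro x y
    rw [Fintype.sum_sigma]
    exact Finset.sum_congr rfl fun a _ => h3 a x y

lemma Bks.add {K K' : ℕ} {f f' : (V → Bk) → (V → Bk) → ℝ} (h : Bks K f) (h' : Bks K' f') :
    Bks (K + K') (fun x y => f x y + f' x y) := by
  classical
  obtain ⟨κ, i, P, h1, h2, h3⟩ := h
  obtain ⟨κ', i', P', h1', h2', h3'⟩ := h'
  refine ⟨κ ⊕ κ', inferInstance, Sum.elim P P', ?_, ?_, ?_⟩
  · rw [Fintype.card_sum]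
    exact Nat.add_le_add h1 h1'
  · rintro (k | k)
    · exact h2 k
    · exact h2' k
  · intro x y
    show f x y + f' x y = _
    rw [Fintype.sum_sum_type, h3, h3']
    rfl

/-- the choice of a rectangle -/
lemma Bks.rect {K : ℕ} {f : (V → Bk) → (V → Bk) → ℝ} (hf : Bks K f) {X Y : Finset (V → Bk)}
    (hsub : ∀ x y, f x y ≠ 0 → x ∈ X ∧ y ∈ Y) (hpos : 0 < psi R b r f) :
    ∃ X' Y' : Finset (V → Bk), X' ⊆ X ∧ Y' ⊆ Y ∧ X'.Nonempty ∧ Y'.Nonempty ∧
      (∀ x ∈ X', ∀ y ∈ Y', f x y ≠ 0) ∧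
      psi R b r f * rt X' Y' ≤ 2 * K * rt X Y * mu R b r X' Y' := by
  classical
  by_contra hcon
  push Not at hcon
  obtain ⟨κ, _, P, hκ, hP, hf⟩ := hf
  have hne : ∀ k x y, P k x y → f x y ≠ 0 := by
    intro k x y hk
    rw [hf]
    have h1 : (1 : ℝ) ≤ ∑ k, Set.indicator {p | P k p.1 p.2} (fun _ => (1 : ℝ)) (x, y) := by
      refine le_trans (le_of_eq ?_) (Finset.single_le_sum (fun j _ =>
        Set.indicator_nonneg (fun _ _ => zero_le_one) _) (mem_univ k))
      rw [Set.indicator_of_mem (by exact hk)]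
    linarith
  have hps := psi_sum_rel (R := R) (b := b) (r := r) f hf
  -- the size is positive
  have hXY : X.Nonempty ∧ Y.Nonempty := by
    by_contra hcon2
    have h0 : ∀ x y, f x y = 0 := by
      intro x y
      by_contra h1
      exact hcon2 ⟨⟨x, (hsub x y h1).1⟩, ⟨y, (hsub x y h1).2⟩⟩
    have : psi R b r f = 0 := by
      unfold psi
      exact Finset.sum_eq_zero fun x _ => Finset.sum_eq_zero fun y _ => by rw [h0, zero_mul]
    linarith
  have hr := rt_pos hXY.1 hXY.2
  have hK : 0 < (K : ℝ) := by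
    rcases Nat.eq_zero_or_pos K with h0 | h0
    · have : IsEmpty κ := Fintype.card_eq_zero_iff.mp (by omega)
      rw [hps] at hpos
      simp at hpos
    · exact_mod_cast h0
  obtain ⟨c, hc⟩ : ∃ c, c = psi R b r f / (2 * K * rt X Y) := ⟨_, rfl⟩
  have hc0 : 0 < c := by rw [hc]; positivity
  have hcK : c * (2 * K * rt X Y) = psi R b r f := by
    rw [hc]
    field_simp
  have hb : ∀ k ∈ (univ : Finset κ), ∑ x, ∑ y, (if P k x y then Dr (sy R) b r x y else 0) ≤
      c * rt X Y := by
    intro k _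
    have h1 := dif_bound2 (hP k) (fun x y => -Dr (sy R) b r x y) hc0.le X Y
      (fun x y hk => hsub x y (hne k x y hk)) (by
        intro X' hX' Y' hY' hk
        have h3 : ∑ x ∈ X', ∑ y ∈ Y', -Dr (sy R) b r x y = -mu R b r X' Y' := by
          unfold mu
          rw [← Finset.sum_neg_distrib]
          exact Finset.sum_congr rfl fun x _ => Finset.sum_neg_distrib _
        rw [h3]
        refine neg_le_neg ?_
        rcases X'.eq_empty_or_nonempty with h8 | h8
        · rw [h8]
          simp [mu]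
        rcases Y'.eq_empty_or_nonempty with h9 | h9
        · rw [h9]
          simp [mu]
        have h4 := hcon X' Y' hX' hY' h8 h9 fun x hx y hy => hne k x y (hk x hx y hy)
        rw [← hcK] at h4
        have h5 : (2 * K * rt X Y) * mu R b r X' Y' < (2 * K * rt X Y) * (c * rt X' Y') := by
          linarith
        exact (lt_of_mul_lt_mul_left h5 (by positivity)).le)
    have h5 : ∑ x, ∑ y, (if P k x y then -Dr (sy R) b r x y else 0) =
        -∑ x, ∑ y, if P k x y then Dr (sy R) b r x y else 0 := by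
      rw [← Finset.sum_neg_distrib]
      refine Finset.sum_congr rfl fun x _ => ?_
      rw [← Finset.sum_neg_distrib]
      refine Finset.sum_congr rfl fun y _ => ?_
      split_ifs <;> simp
    rw [h5] at h1
    unfold rt
    linarith
  have h1 := Finset.sum_le_sum hb
  rw [← hps, Finset.sum_const, nsmul_eq_mul, Finset.card_univ] at h1
  have h2 : (Fintype.card κ : ℝ) * (c * rt X Y) ≤ K * (c * rt X Y) :=
    mul_le_mul_of_nonneg_right (by exact_mod_cast hκ) (by positivity)
  have h3 : c * (2 * K * rt X Y) = K * (c * rt X Y) + K * (c * rt X Y) := by ring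
  have h4 : 0 < K * (c * rt X Y) := by positivity
  linarith

end Pool.Agent.J4H24.CA
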