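import Pool.Agent.J4H24.CA.Lines

/-!
# The formula: a linear system modulo 2 composed with inner products of 10 bits
-/

namespace Pool.Agent.J4H24.CA

open Finset Pool.Agent.J4H24.PR Pool.Agent.J4H24.SA Pool.Agent.J4H24.NS

set_option linter.unusedSectionVars false

variable {V ι : Type} [Fintype V] [DecidableEq V] [Fintype ι] [DecidableEq ι] {g n : ℕ}
  {R : ι → Fin (8 * g) → V} {b : ι → ZMod 2} {e : V × Bool × Fin 10 → Fin n}

/-- the value of the left side of an equation -/
def vl (R : ι → Fin (8 * g) → V) (i : ι) (x y : V → Bk) : ZMod 2 :=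
  ∑ v, sy R i v * ipz (x v) (y v)

lemma eps_of_vl {i : ι} {x y : V → Bk} (h : vl R i x y ≠ b i) : eps (sy R) b {i} x y = -1 := by
  unfold eps
  have h1 : (∑ v, AJ (sy R) {i} v * ipz (x v) (y v)) = vl R i x y := by
    unfold vl AJ
    simp
  rw [h1, Finset.sum_singleton]
  have h3 : vl R i x y + b i = 1 := by
    have : ∀ p r : ZMod 2, p ≠ r → p + r = 1 := by decide
    exact this _ _ h
  rw [h3]
  simp [sg]

/-- a clause of the formula -/
def cl (e : V × Bool × Fin 10 → Fin n) (R : ι → Fin (8 * g) → V) (i : ι) (x y : V → Bk) :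
    Finset (Fin n × Bool) :=
  ((univ.image (R i)) ×ˢ (univ : Finset (Bool × Fin 10))).image
    fun p => (e p, !decide (bt x y p = 1))

/-- the formula -/
def frm (e : V × Bool × Fin 10 → Fin n) (R : ι → Fin (8 * g) → V) (b : ι → ZMod 2) :
    Finset (Finset (Fin n × Bool)) :=
  ((univ : Finset (ι × (V → Bk) × (V → Bk))).filter fun p => vl R p.1 p.2.1 p.2.2 ≠ b p.1).image
    fun p => cl e R p.1 p.2.1 p.2.2

lemma mem_frm {C : Finset (Fin n × Bool)} :
    C ∈ frm e R b ↔ ∃ i x y, vl R i x y ≠ b i ∧ cl e R i x y = C := by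
  unfold frm
  rw [Finset.mem_image]
  constructor
  · rintro ⟨⟨i, x, y⟩, h1, h2⟩
    exact ⟨i, x, y, (Finset.mem_filter.mp h1).2, h2⟩
  · rintro ⟨i, x, y, h1, h2⟩
    exact ⟨⟨i, x, y⟩, Finset.mem_filter.mpr ⟨mem_univ _, h1⟩, h2⟩

lemma card_block (i : ι) :
    ((univ.image (R i)) ×ˢ (univ : Finset (Bool × Fin 10))).card ≤ 160 * g := by
  rw [Finset.card_product, Finset.card_univ, Fintype.card_prod, Fintype.card_bool,
    Fintype.card_fin]
  have h : (univ.image (R i)).card ≤ 8 * g := by
    refine Finset.card_image_le.trans ?_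
    rw [Finset.card_univ, Fintype.card_fin]
  omega

lemma frm_width {C : Finset (Fin n × Bool)} (hC : C ∈ frm e R b) : C.card ≤ 160 * g := by
  obtain ⟨i, x, y, -, rfl⟩ := mem_frm.mp hC
  unfold cl
  exact Finset.card_image_le.trans (card_block i)

lemma frm_card : (frm e R b).card ≤ 2 ^ (320 * g) * Fintype.card ι := by
  have h1 : frm e R b ⊆ univ.biUnion fun i : ι =>
      ((((univ.image (R i)) ×ˢ (univ : Finset (Bool × Fin 10))).image e) ×ˢ
        (univ : Finset Bool)).powerset := by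
    intro C hC
    obtain ⟨i, x, y, -, rfl⟩ := mem_frm.mp hC
    rw [Finset.mem_biUnion]
    refine ⟨i, mem_univ _, ?_⟩
    rw [Finset.mem_powerset]
    intro l hl
    obtain ⟨p, hp, rfl⟩ := Finset.mem_image.mp hl
    rw [Finset.mem_product]
    exact ⟨Finset.mem_image_of_mem _ hp, mem_univ _⟩
  refine (Finset.card_le_card h1).trans (Finset.card_biUnion_le.trans ?_)
  have h2 : ∀ i ∈ (univ : Finset ι), (((((univ.image (R i)) ×ˢ
      (univ : Finset (Bool × Fin 10))).image e) ×ˢ (univ : Finset Bool)).powerset).card ≤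
      2 ^ (320 * g) := by
    intro i _
    rw [Finset.card_powerset, Finset.card_product, Finset.card_univ, Fintype.card_bool]
    refine Nat.pow_le_pow_right (by norm_num) ?_
    have h3 : ((((univ.image (R i)) ×ˢ (univ : Finset (Bool × Fin 10))).image e)).card ≤
        160 * g := Finset.card_image_le.trans (card_block i)
    omega
  refine (Finset.sum_le_card_nsmul _ _ _ h2).trans ?_
  rw [Finset.card_univ, smul_eq_mul, mul_comm]

lemma frm_unsat (hb : ∀ z : V → ZMod 2, ∃ i, ∑ v, sy R i v * z v ≠ b i) (y : Fin n → Bool) :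
    ∃ C ∈ frm e R b, Fals C y := by
  obtain ⟨zx, hzx⟩ : ∃ zx : V → Bk, zx = fun v k => if y (e (v, false, k)) then 1 else 0 :=
    ⟨_, rfl⟩
  obtain ⟨zy, hzy⟩ : ∃ zy : V → Bk, zy = fun v k => if y (e (v, true, k)) then 1 else 0 :=
    ⟨_, rfl⟩
  obtain ⟨i, hi⟩ := hb fun v => ipz (zx v) (zy v)
  refine ⟨cl e R i zx zy, mem_frm.mpr ⟨i, zx, zy, hi, rfl⟩, ?_⟩
  intro l hl
  obtain ⟨⟨v, c, k⟩, -, rfl⟩ := Finset.mem_image.mp hl
  simp only
  have h1 : decide (bt zx zy (v, c, k) = 1) = y (e (v, c, k)) := by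
    rw [hzx, hzy]
    cases c <;> simp only [bt, if_true, if_false, Bool.false_eq_true] <;>
      split_ifs with h <;> simp [h]
  rw [h1]
  cases y (e (v, c, k)) <;> simp

lemma mem_of_sy {i : ι} {v : V} (h : sy R i v ≠ 0) : v ∈ univ.image (R i) := by
  by_contra hcon
  refine h ?_
  unfold sy rowA
  refine Finset.sum_eq_zero fun k _ => if_neg fun h1 => hcon ?_
  rw [← h1]
  exact Finset.mem_image_of_mem _ (mem_univ _)

/-- the assignments that falsify a clause violate the equation -/
lemma eps_of_fals (he : Function.Injective e) {i : ι} {zx zy : V → Bk}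
    (hz : vl R i zx zy ≠ b i) {x y : V → Bk} (hx : Fals (cl e R i zx zy) (ax e x y)) :
    eps (sy R) b {i} x y = -1 := by
  have h0 : ∀ p : V × Bool × Fin 10, p.1 ∈ univ.image (R i) → bt x y p = bt zx zy p := by
    intro p hp
    have h2 := hx (e p, !decide (bt zx zy p = 1)) (Finset.mem_image.mpr ⟨p, by
      rw [Finset.mem_product]
      exact ⟨hp, mem_univ _⟩, rfl⟩)
    simp only at h2
    rw [ax_e he] at h2
    have h3 : ∀ u w : ZMod 2, decide (u = 1) ≠ !decide (w = 1) → u = w := by decide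
    exact h3 _ _ h2
  have h1 : ∀ v, sy R i v ≠ 0 → x v = zx v ∧ y v = zy v := by
    intro v hv
    have hv' := mem_of_sy hv
    refine ⟨funext fun k => ?_, funext fun k => ?_⟩
    · have := h0 (v, false, k) hv'
      simpa [bt] using this
    · have := h0 (v, true, k) hv'
      simpa [bt] using this
  have h2 : vl R i x y = vl R i zx zy := by
    unfold vl
    refine Finset.sum_congr rfl fun v _ => ?_
    by_cases hv : sy R i v = 0
    · rw [hv, zero_mul, zero_mul]
    · rw [(h1 v hv).1, (h1 v hv).2]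
  refine eps_of_vl ?_
  rw [h2]
  exact hz

end Pool.Agent.J4H24.CA
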