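import Pool.Agent.J4H24.CA.Proc

/-!
# The pseudo-measure of unions of blocky sets, and the main inequality
-/

namespace Pool.Agent.J4H24.CA

open Finset Pool.Agent.J4H24.PR Pool.Agent.J4H24.SA

set_option linter.unusedSectionVars false

/-- the rows of the relation are equal or disjoint -/
def Dif {α β : Type*} (P : α → β → Prop) : Prop :=
  ∀ x y x' y', P x y → P x' y → P x' y' → P x y'

/-- a bound for rectangles gives a bound for relations with equal or disjoint rows -/
lemma dif_bound {W : Type*} [Fintype W] [DecidableEq W] {P : W → W → Prop} (hP : Dif P)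
    (h : W → W → ℝ) {E : ℝ} (hE0 : 0 ≤ E)
    (hrect : ∀ X Y : Finset W, (∀ x ∈ X, ∀ y ∈ Y, P x y) →
      -(E * (Real.sqrt X.card * Real.sqrt Y.card)) ≤ ∑ x ∈ X, ∑ y ∈ Y, h x y)
    [∀ x y, Decidable (P x y)] :
    -(E * Fintype.card W) ≤ ∑ x, ∑ y, if P x y then h x y else 0 := by
  classical
  obtain ⟨row, hrow⟩ : ∃ row : W → Finset W, row = fun x => univ.filter (P x) := ⟨_, rfl⟩
  have hmem : ∀ x y, y ∈ row x ↔ P x y := by
    intro x y
    rw [hrow]
    simp
  have h1 : ∑ x, ∑ y, (if P x y then h x y else 0) =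
      ∑ z ∈ univ.image row, ∑ x ∈ univ.filter (fun x => row x = z), ∑ y ∈ z, h x y := by
    rw [← Finset.sum_fiberwise_of_maps_to (g := row) (t := univ.image row)
      fun x _ => Finset.mem_image_of_mem _ (mem_univ x)]
    refine Finset.sum_congr rfl fun z _ => Finset.sum_congr rfl fun x hx => ?_
    rw [← Finset.sum_filter]
    refine Finset.sum_congr ?_ fun _ _ => rfl
    rw [← (Finset.mem_filter.mp hx).2, hrow]
  rw [h1]
  have h2 : ∀ z ∈ univ.image row, -(E * (Real.sqrt (univ.filter fun x => row x = z).card *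
      Real.sqrt z.card)) ≤ ∑ x ∈ univ.filter (fun x => row x = z), ∑ y ∈ z, h x y := by
    intro z _
    refine hrect _ _ fun x hx y hy => ?_
    rw [← hmem, (Finset.mem_filter.mp hx).2]
    exact hy
  refine le_trans ?_ (Finset.sum_le_sum h2)
  rw [Finset.sum_neg_distrib, ← Finset.mul_sum]
  refine neg_le_neg (mul_le_mul_of_nonneg_left ?_ hE0)
  have h3 := Finset.sum_mul_sq_le_sq_mul_sq (univ.image row)
    (fun z => Real.sqrt (univ.filter fun x => row x = z).card) (fun z => Real.sqrt z.card)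
  have h4 : ∑ z ∈ univ.image row, Real.sqrt (univ.filter fun x => row x = z).card ^ 2 =
      Fintype.card W := by
    rw [Finset.sum_congr rfl fun z _ => Real.sq_sqrt (Nat.cast_nonneg _), ← Nat.cast_sum,
      ← Finset.card_univ]
    congr 1
    exact (Finset.card_eq_sum_card_fiberwise
      fun x _ => Finset.mem_image_of_mem _ (mem_univ x)).symm
  have h5 : ∑ z ∈ univ.image row, Real.sqrt z.card ^ 2 ≤ Fintype.card W := by
    rw [Finset.sum_congr rfl fun z _ => Real.sq_sqrt (Nat.cast_nonneg _), ← Nat.cast_sum]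
    have h6 : ∑ z ∈ univ.image row, z.card = ((univ.image row).biUnion id).card := by
      rw [Finset.card_biUnion]
      · rfl
      · intro z hz z' hz' hne
        obtain ⟨x, -, rfl⟩ := Finset.mem_image.mp hz
        obtain ⟨x', -, rfl⟩ := Finset.mem_image.mp hz'
        show Disjoint (row x) (row x')
        rw [Finset.disjoint_left]
        intro y hy hy'
        apply hne
        rw [hmem] at hy hy'
        ext y'
        rw [hmem, hmem]
        exact ⟨fun hh => hP x' y x y' hy' hy hh, fun hh => hP x y x' y' hy hy' hh⟩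
    rw [h6]
    exact_mod_cast Finset.card_le_univ _
  rw [h4] at h3
  have h6 : (∑ z ∈ univ.image row, Real.sqrt (univ.filter fun x => row x = z).card *
      Real.sqrt z.card) ^ 2 ≤ (Fintype.card W : ℝ) ^ 2 := by
    refine h3.trans ?_
    rw [sq]
    exact mul_le_mul_of_nonneg_left h5 (Nat.cast_nonneg _)
  exact (le_abs_self _).trans (abs_le_of_sq_le_sq h6 (Nat.cast_nonneg _))

variable {V ι : Type*} [Fintype V] [DecidableEq V] [Fintype ι] [DecidableEq ι]
  {g r : ℕ} {R : ι → Fin (8 * g) → V} {b : ι → ZMod 2}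

lemma card_W : (Fintype.card (V → Bk) : ℝ) = 1024 ^ Fintype.card V := by
  rw [Fintype.card_fun, card_Bk]
  push_cast
  rfl

/-- the functional -/
def psi (R : ι → Fin (8 * g) → V) (b : ι → ZMod 2) (r : ℕ) (f : (V → Bk) → (V → Bk) → ℝ) : ℝ :=
  ∑ x, ∑ y, f x y * Dr (sy R) b r x y

/-- the sums of `K0` indicator functions of relations with equal or disjoint rows -/
def Bks (K0 : ℕ) (f : (V → Bk) → (V → Bk) → ℝ) : Prop :=
  ∃ (κ : Type) (_ : Fintype κ) (P : κ → (V → Bk) → (V → Bk) → Prop), Fintype.card κ ≤ K0 ∧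
    (∀ k, Dif (P k)) ∧ ∀ x y, f x y = ∑ k, Set.indicator {p | P k p.1 p.2} (fun _ => (1 : ℝ)) (x, y)

lemma supp_ge (hE : ∀ U : Finset ι, U.card ≤ 2 * r → 7 * g * U.card ≤ (nb R U).card)
    {J : Finset ι} (hJ : J.card ≤ 2 * r) : 6 * g * J.card ≤ (supp (sy R) J).card := by
  have h1 := hE J hJ
  have h2 := two_nb_out (R := R) J ∅
  rw [Finset.sdiff_empty, Finset.sdiff_empty] at h2
  have h3 : 7 * g * J.card = 7 * (g * J.card) := by ring
  have h4 : 8 * g * J.card = 8 * (g * J.card) := by ring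
  have h5 : 6 * g * J.card = 6 * (g * J.card) := by ring
  rw [h3] at h1
  rw [h4] at h2
  rw [h5]
  omega

/-- rectangles on which an equation is violated -/
lemma rect_viol (hE : ∀ U : Finset ι, U.card ≤ 2 * r → 7 * g * U.card ≤ (nb R U).card)
    (i0 : ι) {X Y : Finset (V → Bk)} (h0 : ∀ x ∈ X, ∀ y ∈ Y, eps (sy R) b {i0} x y = -1) :
    |∑ x ∈ X, ∑ y ∈ Y, Dr (sy R) b r x y| ≤
      th ι g r * 1024 ^ Fintype.card V * (Real.sqrt X.card * Real.sqrt Y.card) := by
  have h1 : ∑ x ∈ X, ∑ y ∈ Y, Dr (sy R) b r x y =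
      ∑ J ∈ (Fam ι r).filter (fun J => i0 ∉ J ∧ J.card = r),
        ∑ x ∈ X, ∑ y ∈ Y, eps (sy R) b J x y := by
    rw [← swap3]
    exact Finset.sum_congr rfl fun x hx => Finset.sum_congr rfl fun y hy => Dr_tel (h0 x hx y hy)
  rw [h1]
  refine (Finset.abs_sum_le_sum_abs _ _).trans ?_
  have h3 : ∀ J ∈ (Fam ι r).filter (fun J => i0 ∉ J ∧ J.card = r),
      |∑ x ∈ X, ∑ y ∈ Y, eps (sy R) b J x y| ≤
        1024 ^ Fintype.card V * (Real.sqrt X.card * Real.sqrt Y.card) * (1 / 2) ^ (g * r) := by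
    intro J hJ
    rw [Finset.mem_filter] at hJ
    refine (corr_any X Y J).trans (mul_le_mul_of_nonneg_left ?_ (by positivity))
    have h4 := supp_ge hE (J := J) (by rw [hJ.2.2]; omega)
    rw [hJ.2.2] at h4
    have h5 : g * r ≤ (supp (sy R) J).card := by
      have : 6 * g * r = 6 * (g * r) := by ring
      omega
    exact (pow_le_pow_left₀ (by norm_num) (by norm_num) _).trans
      (pow_le_pow_of_le_one (by norm_num) (by norm_num) h5)
  refine (Finset.sum_le_sum h3).trans ?_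
  rw [Finset.sum_const, nsmul_eq_mul]
  have h4 : (((Fam ι r).filter (fun J => i0 ∉ J ∧ J.card = r)).card : ℝ) ≤ (Fam ι r).card := by
    exact_mod_cast Finset.card_filter_le _ _
  refine (mul_le_mul_of_nonneg_right h4 (by positivity)).trans (le_of_eq ?_)
  unfold th
  ring

lemma psi_sum_rel (f : (V → Bk) → (V → Bk) → ℝ) {κ : Type} [Fintype κ]
    {P : κ → (V → Bk) → (V → Bk) → Prop} [∀ k x y, Decidable (P k x y)]
    (hf : ∀ x y, f x y = ∑ k, Set.indicator {p | P k p.1 p.2} (fun _ => (1 : ℝ)) (x, y)) :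
    psi R b r f = ∑ k, ∑ x, ∑ y, if P k x y then Dr (sy R) b r x y else 0 := by
  unfold psi
  rw [← swap3]
  refine Finset.sum_congr rfl fun x _ => Finset.sum_congr rfl fun y _ => ?_
  rw [hf, Finset.sum_mul]
  refine Finset.sum_congr rfl fun k _ => ?_
  by_cases hk : P k x y
  · rw [Set.indicator_of_mem (by exact hk), if_pos hk, one_mul]
  · rw [Set.indicator_of_notMem (by exact hk), if_neg hk, zero_mul]

/-- the pseudo-measure of a line is almost nonnegative -/
lemma psi_ge (hE : ∀ U : Finset ι, U.card ≤ 2 * r → 7 * g * U.card ≤ (nb R U).card)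
    (hz : (1 + (1 / 2 : ℝ) ^ (2 * g)) ^ Fintype.card ι ≤ 2) {K0 : ℕ}
    {f : (V → Bk) → (V → Bk) → ℝ} (hf : Bks K0 f) :
    -(K0 * (th ι g r * 1024 ^ Fintype.card V * 1024 ^ Fintype.card V)) ≤ psi R b r f := by
  classical
  obtain ⟨κ, _, P, hκ, hP, hf⟩ := hf
  rw [psi_sum_rel f hf]
  have hE0 : 0 ≤ th ι g r * 1024 ^ Fintype.card V := mul_nonneg th_nonneg (by positivity)
  have h1 : ∀ k ∈ (univ : Finset κ), -(th ι g r * 1024 ^ Fintype.card V * 1024 ^ Fintype.card V) ≤
      ∑ x, ∑ y, if P k x y then Dr (sy R) b r x y else 0 := by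
    intro k _
    have := dif_bound (hP k) (Dr (sy R) b r) hE0 fun X Y _ => rect hE hz X Y
    rwa [card_W] at this
  refine le_trans ?_ (Finset.sum_le_sum h1)
  rw [Finset.sum_const, nsmul_eq_mul, mul_neg, Finset.card_univ]
  refine neg_le_neg (mul_le_mul_of_nonneg_right ?_ (mul_nonneg hE0 (by positivity)))
  exact_mod_cast hκ

/-- the pseudo-measure of a line on which an equation is violated is small -/
lemma psi_viol (hE : ∀ U : Finset ι, U.card ≤ 2 * r → 7 * g * U.card ≤ (nb R U).card) {K0 : ℕ}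
    {f : (V → Bk) → (V → Bk) → ℝ} (hf : Bks K0 f) (i0 : ι)
    (h0 : ∀ x y, f x y ≠ 0 → eps (sy R) b {i0} x y = -1) :
    |psi R b r f| ≤ K0 * (th ι g r * 1024 ^ Fintype.card V * 1024 ^ Fintype.card V) := by
  classical
  obtain ⟨κ, _, P, hκ, hP, hf⟩ := hf
  have hviol : ∀ k x y, P k x y → eps (sy R) b {i0} x y = -1 := by
    intro k x y hk
    refine h0 x y ?_
    rw [hf]
    have h1 : (1 : ℝ) ≤ ∑ k, Set.indicator {p | P k p.1 p.2} (fun _ => (1 : ℝ)) (x, y) := by
      refine le_trans (le_of_eq ?_) (Finset.single_le_sum (fun j _ =>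
        Set.indicator_nonneg (fun _ _ => zero_le_one) _) (mem_univ k))
      rw [Set.indicator_of_mem (by exact hk)]
    linarith
  rw [psi_sum_rel f hf]
  have hE0 : 0 ≤ th ι g r * 1024 ^ Fintype.card V := mul_nonneg th_nonneg (by positivity)
  have h1 : ∀ k ∈ (univ : Finset κ), |∑ x, ∑ y, if P k x y then Dr (sy R) b r x y else 0| ≤
      th ι g r * 1024 ^ Fintype.card V * 1024 ^ Fintype.card V := by
    intro k _
    rw [abs_le]
    constructor
    · have := dif_bound (hP k) (Dr (sy R) b r) hE0 fun X Y hXY =>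
        (abs_le.mp (rect_viol (b := b) hE i0 fun x hx y hy => hviol k x y (hXY x hx y hy))).1
      rwa [card_W] at this
    · have h2 := dif_bound (hP k) (fun x y => -Dr (sy R) b r x y) hE0 fun X Y hXY => by
        have h3 := (abs_le.mp (rect_viol (b := b) hE i0
          fun x hx y hy => hviol k x y (hXY x hx y hy))).2
        have h4 : ∑ x ∈ X, ∑ y ∈ Y, -Dr (sy R) b r x y = -∑ x ∈ X, ∑ y ∈ Y, Dr (sy R) b r x y := by
          rw [← Finset.sum_neg_distrib]
          exact Finset.sum_congr rfl fun x _ => Finset.sum_neg_distrib _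
        rw [h4]
        exact neg_le_neg h3
      rw [card_W] at h2
      have h5 : ∑ x, ∑ y, (if P k x y then -Dr (sy R) b r x y else 0) =
          -∑ x, ∑ y, if P k x y then Dr (sy R) b r x y else 0 := by
        rw [← Finset.sum_neg_distrib]
        refine Finset.sum_congr rfl fun x _ => ?_
        rw [← Finset.sum_neg_distrib]
        refine Finset.sum_congr rfl fun y _ => ?_
        split_ifs <;> simp
      rw [h5] at h2
      linarith
  refine (Finset.abs_sum_le_sum_abs _ _).trans ((Finset.sum_le_sum h1).trans ?_)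
  rw [Finset.sum_const, nsmul_eq_mul, Finset.card_univ]
  refine mul_le_mul_of_nonneg_right ?_ (mul_nonneg hE0 (by positivity))
  exact_mod_cast hκ

/-- the normalization -/
lemma psi_one (hg : 0 < g)
    (hE : ∀ U : Finset ι, U.card ≤ 2 * r → 7 * g * U.card ≤ (nb R U).card)
    (hz : (1 + (1 / 2 : ℝ) ^ (2 * g)) ^ Fintype.card ι ≤ 2) :
    1 / 2 * (1024 ^ Fintype.card V * 1024 ^ Fintype.card V) ≤
      psi R b r (fun _ _ => 1) := by
  unfold psi
  have h1 : ∑ x : V → Bk, ∑ y : V → Bk, 1 * Dr (sy R) b r x y =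
      ∑ J ∈ Fam ι r, ∑ x, ∑ y, eps (sy R) b J x y := by
    rw [← swap3]
    simp only [one_mul]
    rfl
  rw [h1]
  obtain ⟨M, hM⟩ : ∃ M : ℝ, M = 1024 ^ Fintype.card V * 1024 ^ Fintype.card V := ⟨_, rfl⟩
  have hM0 : 0 ≤ M := by rw [hM]; positivity
  rw [← hM]
  obtain ⟨z, hz'⟩ : ∃ z : ℝ, z = (1 / 2) ^ (2 * g) := ⟨_, rfl⟩
  rw [← hz'] at hz
  have hz0 : 0 < z := by rw [hz']; positivity
  have hz4 : z ≤ 1 / 4 := by
    rw [hz', pow_mul]
    refine (pow_le_pow_of_le_one (by norm_num) (by norm_num) hg).trans (by norm_num)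
  have hmz : Fintype.card ι * z ≤ 1 := by
    have := one_add_mul_le_pow (show (-2 : ℝ) ≤ z by linarith) (Fintype.card ι)
    linarith
  obtain ⟨y, hy⟩ : ∃ y : ℝ, y = z * (1 / 4) := ⟨_, rfl⟩
  have hy0 : 0 ≤ y := by rw [hy]; positivity
  have hmy : Fintype.card ι * y ≤ 1 / 4 := by
    rw [hy]
    have : (Fintype.card ι : ℝ) * (z * (1 / 4)) = (Fintype.card ι * z) * (1 / 4) := by ring
    rw [this]
    linarith
  have h2 : ∀ J ∈ (Fam ι r).erase ∅, -(M * y ^ J.card) ≤ ∑ x, ∑ y, eps (sy R) b J x y := by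
    intro J hJ
    rw [Finset.mem_erase, mem_Fam] at hJ
    have h3 := corr_any (A := sy R) (b := b) univ univ J
    have h4 := supp_ge hE (J := J) (by omega)
    have h5 : (1024 : ℝ) ^ Fintype.card V * (Real.sqrt (univ : Finset (V → Bk)).card *
        Real.sqrt (univ : Finset (V → Bk)).card) = M := by
      rw [Real.mul_self_sqrt (Nat.cast_nonneg _), Finset.card_univ, card_W, hM]
    rw [h5] at h3
    refine le_trans (neg_le_neg (mul_le_mul_of_nonneg_left ?_ hM0)) (abs_le.mp h3).1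
    have h6 : ((1 : ℝ) / 32) ^ (supp (sy R) J).card ≤ (1 / 32) ^ (6 * g * J.card) :=
      pow_le_pow_of_le_one (by norm_num) (by norm_num) h4
    refine h6.trans ?_
    rw [pow_mul]
    refine pow_le_pow_left₀ (by positivity) ?_ _
    rw [hy, hz']
    have h7 : ((1 : ℝ) / 32) ^ (6 * g) ≤ (1 / 2) ^ (2 * g + 2) := by
      have h8 : ((1 : ℝ) / 32) ^ (6 * g) = (1 / 2) ^ (30 * g) := by
        rw [show (1 : ℝ) / 32 = (1 / 2) ^ 5 by norm_num, ← pow_mul]
        congr 1
        ring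
      rw [h8]
      exact pow_le_pow_of_le_one (by norm_num) (by norm_num) (by omega)
    refine h7.trans (le_of_eq ?_)
    rw [pow_add]
    norm_num
  have h3 : ∑ J ∈ Fam ι r, ∑ x, ∑ y, eps (sy R) b J x y =
      ∑ J ∈ (Fam ι r).erase ∅, ∑ x, ∑ y, eps (sy R) b J x y + M := by
    rw [← Finset.sum_erase_add _ _ (show (∅ : Finset ι) ∈ Fam ι r from mem_Fam.mpr (by simp))]
    congr 1
    simp only [eps_empty, Finset.sum_const, nsmul_eq_mul, mul_one, Finset.card_univ]
    rw [card_W, hM]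
  rw [h3]
  have h4 : ∑ J ∈ (Fam ι r).erase ∅, y ^ J.card ≤ 1 / 2 := by
    have h5 := sum_pow_card (ι := ι) hy0 (by linarith)
    refine le_trans (Finset.sum_le_sum_of_subset_of_nonneg ?_ fun _ _ _ => by positivity)
      (h5.trans (by linarith))
    intro J hJ
    rw [Finset.mem_erase] at hJ
    rw [Finset.mem_filter]
    exact ⟨mem_univ _, Finset.nonempty_iff_ne_empty.mpr hJ.1⟩
  have h5 := Finset.sum_le_sum h2
  rw [Finset.sum_neg_distrib, ← Finset.mul_sum] at h5
  have h6 := mul_le_mul_of_nonneg_left h4 hM0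
  linarith

lemma psi_lin {α : Type*} (t : Finset α) (w : α → ℝ) (f : α → (V → Bk) → (V → Bk) → ℝ) :
    psi R b r (fun x y => ∑ i ∈ t, w i * f i x y) = ∑ i ∈ t, w i * psi R b r (f i) := by
  unfold psi
  simp_rw [Finset.mul_sum, Finset.sum_mul]
  rw [swap3]
  refine Finset.sum_congr rfl fun i _ => Finset.sum_congr rfl fun x _ =>
    Finset.sum_congr rfl fun y _ => by ring

/-- the main inequality -/
theorem core (hg : 0 < g)
    (hE : ∀ U : Finset ι, U.card ≤ 2 * r → 7 * g * U.card ≤ (nb R U).card)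
    (hz : (1 + (1 / 2 : ℝ) ^ (2 * g)) ^ Fintype.card ι ≤ 2) {K0 : ℕ}
    {I I' : Type*} [Fintype I] [Fintype I'] (l : I → ℝ) (m : I' → ℝ) (hm0 : ∀ j, 0 ≤ m j)
    (F : I → (V → Bk) → (V → Bk) → ℝ) (G : I' → (V → Bk) → (V → Bk) → ℝ)
    (hF : ∀ i, Bks K0 (F i)) (hG : ∀ j, Bks K0 (G j))
    (hviol : ∀ i, ∃ i0 : ι, ∀ x y, F i x y ≠ 0 → eps (sy R) b {i0} x y = -1)
    (hid : ∀ x y, ∑ i, l i * F i x y = 1 + ∑ j, m j * G j x y) :
    1 / 2 ≤ (∑ i, |l i| + ∑ j, m j) * (K0 * th ι g r) := by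
  have h1 : ∑ i, l i * psi R b r (F i) = psi R b r (fun _ _ => 1) +
      ∑ j, m j * psi R b r (G j) := by
    rw [← psi_lin univ l F, ← psi_lin univ m G]
    unfold psi
    rw [← Finset.sum_add_distrib]
    refine Finset.sum_congr rfl fun x _ => ?_
    rw [← Finset.sum_add_distrib]
    refine Finset.sum_congr rfl fun y _ => ?_
    show (∑ i, l i * F i x y) * Dr (sy R) b r x y =
      1 * Dr (sy R) b r x y + (∑ j, m j * G j x y) * Dr (sy R) b r x y
    rw [hid]
    ring
  obtain ⟨M, hM⟩ : ∃ M : ℝ, M = 1024 ^ Fintype.card V * 1024 ^ Fintype.card V := ⟨_, rfl⟩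
  have hM0 : 0 < M := by rw [hM]; positivity
  obtain ⟨E, hEE⟩ : ∃ E : ℝ, E = K0 * th ι g r * M := ⟨_, rfl⟩
  have hE0 : 0 ≤ E := by
    rw [hEE]
    exact mul_nonneg (mul_nonneg (Nat.cast_nonneg _) th_nonneg) hM0.le
  have hEq : (K0 : ℝ) * (th ι g r * 1024 ^ Fintype.card V * 1024 ^ Fintype.card V) = E := by
    rw [hEE, hM]
    ring
  have h2 : ∀ i ∈ (univ : Finset I), l i * psi R b r (F i) ≤ |l i| * E := by
    intro i _
    obtain ⟨i0, hi0⟩ := hviol i
    have := psi_viol (b := b) hE (hF i) i0 hi0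
    rw [hEq] at this
    calc l i * psi R b r (F i) ≤ |l i * psi R b r (F i)| := le_abs_self _
      _ = |l i| * |psi R b r (F i)| := abs_mul _ _
      _ ≤ |l i| * E := mul_le_mul_of_nonneg_left this (abs_nonneg _)
  have h3 : ∀ j ∈ (univ : Finset I'), -(m j * E) ≤ m j * psi R b r (G j) := by
    intro j _
    have := psi_ge (b := b) hE hz (hG j)
    rw [hEq] at this
    have := mul_le_mul_of_nonneg_left this (hm0 j)
    linarith
  have h4 := Finset.sum_le_sum h2
  have h5 := Finset.sum_le_sum h3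
  rw [← Finset.sum_mul] at h4
  rw [Finset.sum_neg_distrib, ← Finset.sum_mul] at h5
  have h6 := psi_one (b := b) hg hE hz
  rw [← hM] at h6
  have h7 : 1 / 2 * M ≤ (∑ i, |l i| + ∑ j, m j) * (K0 * th ι g r) * M := by
    have : (∑ i, |l i| + ∑ j, m j) * (K0 * th ι g r) * M = (∑ i, |l i|) * E + (∑ j, m j) * E := by
      rw [hEE]
      ring
    rw [this]
    linarith
  exact le_of_mul_le_mul_right h7 hM0

end Pool.Agent.J4H24.CA
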