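import Pool.Agent.J4H24.NS.Defs

/-!
# Systems of linear inequalities and congruences on the Boolean assignments: definitions
-/

namespace Pool.Agent.J4H24.CA

/-- `S` is the set of the Boolean solutions of a system of `k` linear inequalities with arbitrary
real coefficients and of finitely many linear congruences with arbitrary integer coefficients and
moduli (modulus `0` means an equation between integers). -/
def LinSys (k : ℕ) {n : ℕ} (S : Set (Fin n → Bool)) : Prop :=
  ∃ (a : Fin k → Fin n → ℝ) (d : Fin k → ℝ) (r : ℕ) (M : Fin r → Fin n → ℤ) (b q : Fin r → ℤ),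
    ∀ x, x ∈ S ↔ (∀ j, d j ≤ ∑ v, if x v then a j v else 0) ∧
      ∀ j, q j ∣ (∑ v, if x v then M j v else 0) - b j

end Pool.Agent.J4H24.CA
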