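import Pool.Agent.J4H24.CA.Core
import Pool.Agent.J4H24.CA.Defs

/-!
# Systems of inequalities and congruences as sums of blocky sets
-/

namespace Pool.Agent.J4H24.CA

open Finset Pool.Agent.J4H24.PR Pool.Agent.J4H24.SA Pool.Agent.J4H24.NS

set_option linter.unusedSectionVars false

/-- the numbers `u` and `w` differ at the binary digit `t`, and agree at the higher digits -/
def cmpP (t u w : ℕ) : Prop := u / 2 ^ (t + 1) = w / 2 ^ (t + 1) ∧ (u / 2 ^ t) % 2 = 1 ∧
  (w / 2 ^ t) % 2 = 0

instance (t u w : ℕ) : Decidable (cmpP t u w) := by unfold cmpP; infer_instance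

lemma cmpP_succ (t u w : ℕ) : cmpP (t + 1) u w ↔ cmpP t (u / 2) (w / 2) := by
  unfold cmpP
  have h : ∀ (a s : ℕ), a / 2 ^ (s + 1) = a / 2 / 2 ^ s := by
    intro a s
    rw [Nat.div_div_eq_div_mul, pow_succ']
  rw [h u (t + 1), h w (t + 1), h u t, h w t]

lemma cmp_sum (H : ℕ) : ∀ u w : ℕ, u < 2 ^ H → w < 2 ^ H →
    (if w ≤ u then (1 : ℝ) else 0) =
      (if u = w then 1 else 0) + ∑ t : Fin H, if cmpP t u w then 1 else 0 := by
  induction H with
  | zero =>
    intro u w hu hw
    have hu0 : u = 0 := by simpa using hu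
    have hw0 : w = 0 := by simpa using hw
    subst hu0
    subst hw0
    simp
  | succ H ih =>
    intro u w hu hw
    have h1 := ih (u / 2) (w / 2) (by rw [pow_succ] at hu; omega) (by rw [pow_succ] at hw; omega)
    rw [Fin.sum_univ_succ]
    have h2 : ∑ t : Fin H, (if cmpP (t.succ : Fin (H + 1)) u w then (1 : ℝ) else 0) =
        ∑ t : Fin H, if cmpP t (u / 2) (w / 2) then 1 else 0 := by
      refine Finset.sum_congr rfl fun t _ => ?_
      rw [Fin.val_succ]
      exact if_congr (cmpP_succ _ _ _) rfl rfl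
    rw [h2]
    have h3 : ∑ t : Fin H, (if cmpP t (u / 2) (w / 2) then (1 : ℝ) else 0) =
        (if w / 2 ≤ u / 2 then 1 else 0) - if u / 2 = w / 2 then 1 else 0 := by linarith
    rw [h3]
    have h4 : cmpP ((0 : Fin (H + 1)) : ℕ) u w ↔ u / 2 = w / 2 ∧ u % 2 = 1 ∧ w % 2 = 0 := by
      unfold cmpP
      simp
    rw [if_congr h4 rfl rfl]
    rcases lt_trichotomy (u / 2) (w / 2) with h | h | h
    · rw [if_neg (by omega), if_neg (by omega), if_neg (by omega), if_neg (by omega),
        if_neg (by omega)]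
      norm_num
    · rcases Nat.mod_two_eq_zero_or_one u with hu2 | hu2 <;>
        rcases Nat.mod_two_eq_zero_or_one w with hw2 | hw2
      · rw [if_pos (by omega), if_pos (by omega), if_neg (by omega), if_pos (by omega),
          if_pos (by omega)]
        norm_num
      · rw [if_neg (by omega), if_neg (by omega), if_neg (by omega), if_pos (by omega),
          if_pos (by omega)]
        norm_num
      · rw [if_pos (by omega), if_neg (by omega), if_pos (by omega), if_pos (by omega),
          if_pos (by omega)]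
        norm_num
      · rw [if_pos (by omega), if_pos (by omega), if_neg (by omega), if_pos (by omega),
          if_pos (by omega)]
        norm_num
    · rw [if_pos (by omega), if_neg (by omega), if_neg (by omega), if_pos (by omega),
        if_neg (by omega)]
      norm_num

/-- the ranks of finitely many real numbers -/
noncomputable def rk (F : Finset ℝ) (t : ℝ) : ℕ := (F.filter fun s => s < t).card

lemma rk_le {F : Finset ℝ} {s t : ℝ} (ht : t ∈ F) : s ≤ t ↔ rk F s ≤ rk F t := by
  unfold rk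
  constructor
  · intro h
    refine Finset.card_le_card ?_
    intro u hu
    rw [Finset.mem_filter] at hu ⊢
    exact ⟨hu.1, lt_of_lt_of_le hu.2 h⟩
  · intro h
    by_contra hcon
    push Not at hcon
    have h1 : (F.filter fun u => u < t) ⊆ F.filter fun u => u < s := by
      intro u hu
      rw [Finset.mem_filter] at hu ⊢
      exact ⟨hu.1, hu.2.trans hcon⟩
    have h2 : (F.filter fun u => u < t) ⊂ F.filter fun u => u < s := by
      refine Finset.ssubset_iff_subset_ne.mpr ⟨h1, fun heq => ?_⟩
      have h3 : t ∈ F.filter fun u => u < s := Finset.mem_filter.mpr ⟨ht, hcon⟩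
      rw [← heq, Finset.mem_filter] at h3
      exact lt_irrefl _ h3.2
    exact absurd h (not_le.mpr (Finset.card_lt_card h2))

variable {V : Type} [Fintype V] [DecidableEq V]

/-- the relation `γ y ≤ α x` as a sum of relations with equal or disjoint rows -/
lemma triangle (α γ : (V → Bk) → ℝ) : ∃ Q : Option (Fin (10 * Fintype.card V + 2)) →
    (V → Bk) → (V → Bk) → Prop, (∀ t, Dif (Q t)) ∧ ∀ x y,
      (Set.indicator {p : (V → Bk) × (V → Bk) | γ p.2 ≤ α p.1} (fun _ => (1 : ℝ)) (x, y)) =
        ∑ t, Set.indicator {p : (V → Bk) × (V → Bk) | Q t p.1 p.2} (fun _ => (1 : ℝ)) (x, y) := by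
  classical
  obtain ⟨F, hF⟩ : ∃ F : Finset ℝ, F = univ.image α ∪ univ.image γ := ⟨_, rfl⟩
  obtain ⟨H, hH⟩ : ∃ H, H = 10 * Fintype.card V + 2 := ⟨_, rfl⟩
  rw [← hH]
  have hcard : F.card < 2 ^ H := by
    have h1 : (Fintype.card (V → Bk)) = 2 ^ (10 * Fintype.card V) := by
      rw [Fintype.card_fun, card_Bk, pow_mul]
      norm_num
    have h2 : F.card ≤ 2 ^ (10 * Fintype.card V) + 2 ^ (10 * Fintype.card V) := by
      rw [hF]
      refine (Finset.card_union_le _ _).trans (Nat.add_le_add ?_ ?_)
      · refine Finset.card_image_le.trans ?_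
        rw [Finset.card_univ, h1]
      · refine Finset.card_image_le.trans ?_
        rw [Finset.card_univ, h1]
    have h3 : 2 ^ H = 4 * 2 ^ (10 * Fintype.card V) := by
      rw [hH, pow_add]
      ring
    have h4 : 0 < 2 ^ (10 * Fintype.card V) := by positivity
    omega
  have hrk : ∀ t, rk F t < 2 ^ H := fun t =>
    lt_of_le_of_lt (Finset.card_filter_le _ _) hcard
  refine ⟨fun t x y => match t with
    | none => rk F (α x) = rk F (γ y)
    | some t => cmpP t (rk F (α x)) (rk F (γ y)), ?_, ?_⟩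
  · intro t
    cases t with
    | none =>
      intro x y x' y' h1 h2 h3
      exact h1.trans (h2.symm.trans h3)
    | some t =>
      intro x y x' y' h1 h2 h3
      exact ⟨h1.1.trans (h2.1.symm.trans h3.1), h1.2.1, h3.2.2⟩
  · intro x y
    rw [Fintype.sum_option]
    have h1 : Set.indicator {p : (V → Bk) × (V → Bk) | γ p.2 ≤ α p.1} (fun _ => (1 : ℝ)) (x, y) =
        if rk F (γ y) ≤ rk F (α x) then 1 else 0 := by
      rw [Set.indicator_apply]
      refine if_congr ?_ rfl rfl
      show γ y ≤ α x ↔ _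
      refine rk_le ?_
      rw [hF]
      exact Finset.mem_union_left _ (Finset.mem_image_of_mem _ (mem_univ _))
    rw [h1, cmp_sum H _ _ (hrk _) (hrk _)]
    refine congrArg₂ _ ?_ (Finset.sum_congr rfl fun t _ => ?_)
    · rw [Set.indicator_apply]
      exact if_congr Iff.rfl rfl rfl
    · rw [Set.indicator_apply]
      exact if_congr Iff.rfl rfl rfl

/-- the bits of a family of pairs of blocks -/
def bt (x y : V → Bk) (p : V × Bool × Fin 10) : ZMod 2 :=
  if p.2.1 then y p.1 p.2.2 else x p.1 p.2.2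

/-- the assignment of the variables of the formula -/
noncomputable def ax {n : ℕ} (e : V × Bool × Fin 10 → Fin n) (x y : V → Bk) (w : Fin n) : Bool :=
  open Classical in decide (∃ p, e p = w ∧ bt x y p = 1)

variable {n : ℕ} {e : V × Bool × Fin 10 → Fin n}

lemma ax_e (he : Function.Injective e) (x y : V → Bk) (p : V × Bool × Fin 10) :
    ax e x y (e p) = decide (bt x y p = 1) := by
  unfold ax
  rw [decide_eq_decide]
  constructor
  · rintro ⟨p', h1, h2⟩
    rwa [he h1] at h2
  · intro h
    exact ⟨p, rfl, h⟩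

lemma ax_out (x y : V → Bk) {w : Fin n} (hw : w ∉ Set.range e) : ax e x y w = false := by
  unfold ax
  rw [decide_eq_false_iff_not]
  rintro ⟨p, h1, -⟩
  exact hw ⟨p, h1⟩

/-- a linear form is the sum of a function of `x` and of a function of `y` -/
lemma lin_split {K : Type*} [AddCommMonoid K] (he : Function.Injective e) (f : Fin n → K) :
    ∃ α β : (V → Bk) → K, ∀ x y, (∑ w, if ax e x y w then f w else 0) = α x + β y := by
  refine ⟨fun x => ∑ v, ∑ k, if x v k = 1 then f (e (v, false, k)) else 0,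
    fun y => ∑ v, ∑ k, if y v k = 1 then f (e (v, true, k)) else 0, fun x y => ?_⟩
  have h1 : (∑ w, if ax e x y w then f w else 0) =
      ∑ p : V × Bool × Fin 10, if bt x y p = 1 then f (e p) else 0 := by
    symm
    refine Fintype.sum_of_injective e he _ _ ?_ ?_
    · intro w hw
      rw [ax_out x y hw]
      simp
    · intro p
      rw [ax_e he]
      simp
  rw [h1, Fintype.sum_prod_type]
  simp only
  rw [← Finset.sum_add_distrib]
  refine Finset.sum_congr rfl fun v _ => ?_
  rw [Fintype.sum_prod_type, Fintype.sum_bool]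
  simp only [bt, if_true, if_false, Bool.false_eq_true]
  rw [add_comm]

/-- systems of inequalities and congruences -/
lemma lines_bks (he : Function.Injective e) {k : ℕ} {S : Set (Fin n → Bool)} (hS : LinSys k S) :
    Bks ((10 * Fintype.card V + 3) ^ k)
      (fun x y : V → Bk => S.indicator (fun _ => (1 : ℝ)) (ax e x y)) := by
  classical
  obtain ⟨a, d, r, M, b, q, hS⟩ := hS
  -- the inequalities
  have hineq : ∀ j, ∃ Q : Option (Fin (10 * Fintype.card V + 2)) →
      (V → Bk) → (V → Bk) → Prop, (∀ t, Dif (Q t)) ∧ ∀ x y,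
      (if d j ≤ ∑ v, (if ax e x y v then a j v else 0) then (1 : ℝ) else 0) =
        ∑ t, Set.indicator {p : (V → Bk) × (V → Bk) | Q t p.1 p.2} (fun _ => (1 : ℝ)) (x, y) := by
    intro j
    obtain ⟨α, β, hαβ⟩ := lin_split (e := e) he (a j)
    obtain ⟨Q, hQ, hQ2⟩ := triangle α (fun y => d j - β y)
    refine ⟨Q, hQ, fun x y => ?_⟩
    rw [← hQ2, Set.indicator_apply]
    refine if_congr ?_ rfl rfl
    rw [hαβ]
    show d j ≤ α x + β y ↔ d j - β y ≤ α x
    constructor <;> intro h <;> linarith
  choose Q hQ hQ2 using hineq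
  -- the congruences
  obtain ⟨Cg, hCg⟩ : ∃ Cg : (V → Bk) → (V → Bk) → Prop, Cg = fun x y =>
    ∀ j, q j ∣ (∑ v, if ax e x y v then M j v else 0) - b j := ⟨_, rfl⟩
  have hCg2 : Dif Cg := by
    intro x y x' y' h1 h2 h3
    rw [hCg] at h1 h2 h3 ⊢
    intro j
    obtain ⟨α, β, hαβ⟩ := lin_split (e := e) he (M j)
    have h1' := h1 j
    have h2' := h2 j
    have h3' := h3 j
    rw [hαβ] at h1' h2' h3' ⊢
    have h4 : α x + β y' - b j = (α x + β y - b j) - (α x' + β y - b j) +
        (α x' + β y' - b j) := by ring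
    rw [h4]
    exact dvd_add (dvd_sub h1' h2') h3'
  refine ⟨Fin k → Option (Fin (10 * Fintype.card V + 2)), inferInstance,
    fun τ x y => (∀ j, Q j (τ j) x y) ∧ Cg x y, ?_, ?_, ?_⟩
  · rw [Fintype.card_fun, Fintype.card_option, Fintype.card_fin, Fintype.card_fin]
  · intro τ x y x' y' h1 h2 h3
    exact ⟨fun j => hQ j (τ j) x y x' y' (h1.1 j) (h2.1 j) (h3.1 j),
      hCg2 x y x' y' h1.2 h2.2 h3.2⟩
  · intro x y
    have h1 : S.indicator (fun _ => (1 : ℝ)) (ax e x y) =
        (∏ j, (if d j ≤ ∑ v, (if ax e x y v then a j v else 0) then (1 : ℝ) else 0)) *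
          (if Cg x y then 1 else 0) := by
      rw [Set.indicator_apply]
      have h2 : ax e x y ∈ S ↔ (∀ j, d j ≤ ∑ v, if ax e x y v then a j v else 0) ∧ Cg x y := by
        rw [hCg]
        exact hS _
      by_cases h3 : ∀ j, d j ≤ ∑ v, if ax e x y v then a j v else 0
      · by_cases h4 : Cg x y
        · rw [if_pos (h2.mpr ⟨h3, h4⟩), if_pos h4, Finset.prod_eq_one fun j _ => if_pos (h3 j),
            one_mul]
        · rw [if_neg (fun h => h4 (h2.mp h).2), if_neg h4, mul_zero]
      · rw [if_neg (fun h => h3 (h2.mp h).1)]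
        push Not at h3
        obtain ⟨j, hj⟩ := h3
        rw [Finset.prod_eq_zero (mem_univ j) (if_neg (not_le.mpr hj)), zero_mul]
    show S.indicator (fun _ => (1 : ℝ)) (ax e x y) = _
    rw [h1, Finset.prod_congr rfl fun j _ => hQ2 j x y, Finset.prod_univ_sum,
      Fintype.piFinset_univ, Finset.sum_mul]
    refine Finset.sum_congr rfl fun τ _ => ?_
    rw [Set.indicator_apply]
    by_cases h3 : ∀ j, Q j (τ j) x y
    · have h5 : ∏ j, Set.indicator {p : (V → Bk) × (V → Bk) | Q j (τ j) p.1 p.2}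
          (fun _ => (1 : ℝ)) (x, y) = 1 :=
        Finset.prod_eq_one fun j _ => Set.indicator_of_mem (by exact h3 j) _
      rw [h5, one_mul]
      by_cases h4 : Cg x y
      · rw [if_pos h4, if_pos (show (x, y) ∈ {p : (V → Bk) × (V → Bk) |
          (∀ j, Q j (τ j) p.1 p.2) ∧ Cg p.1 p.2} from ⟨h3, h4⟩)]
      · rw [if_neg h4, if_neg (show (x, y) ∉ {p : (V → Bk) × (V → Bk) |
          (∀ j, Q j (τ j) p.1 p.2) ∧ Cg p.1 p.2} from fun h => h4 h.2)]
    · have h6 : (x, y) ∉ {p : (V → Bk) × (V → Bk) |
          (∀ j, Q j (τ j) p.1 p.2) ∧ Cg p.1 p.2} := fun h => h3 h.1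
      rw [if_neg h6]
      push Not at h3
      obtain ⟨j, hj⟩ := h3
      have h7 : ∏ j, Set.indicator {p : (V → Bk) × (V → Bk) | Q j (τ j) p.1 p.2}
          (fun _ => (1 : ℝ)) (x, y) = 0 := by
        refine Finset.prod_eq_zero (mem_univ j) ?_
        rw [Set.indicator_apply]
        exact if_neg hj
      rw [h7, zero_mul]

end Pool.Agent.J4H24.CA
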