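import Pool.Agent.J4H24.CA.Alg
import Pool.Agent.J4H24.CA.Lines

/-!
# The complements of the solution sets of systems of inequalities and congruences
-/

namespace Pool.Agent.J4H24.CA

open Finset Pool.Agent.J4H24.PR Pool.Agent.J4H24.SA Pool.Agent.J4H24.NS

set_option linter.unusedSectionVars false

variable {V : Type} [Fintype V] [DecidableEq V]

lemma bks_tri (α γ : (V → Bk) → ℝ) :
    Bks (10 * Fintype.card V + 3) (fun x y => if γ y ≤ α x then (1 : ℝ) else 0) := by
  obtain ⟨Q, hQ, hQ2⟩ := triangle α γ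
  refine ⟨Option (Fin (10 * Fintype.card V + 2)), inferInstance, Q, ?_, hQ, fun x y => ?_⟩
  · rw [Fintype.card_option, Fintype.card_fin]
  · rw [← hQ2, Set.indicator_apply]
    exact if_congr Iff.rfl rfl rfl

lemma exists_gap (α γ : (V → Bk) → ℝ) :
    ∃ ε : ℝ, 0 < ε ∧ ∀ x y, α x < γ y → α x + ε ≤ γ y := by
  classical
  obtain ⟨T, hT⟩ : ∃ T : Finset ((V → Bk) × (V → Bk)), T = univ.filter fun p => α p.1 < γ p.2 :=
    ⟨_, rfl⟩
  rcases T.eq_empty_or_nonempty with h0 | h0
  · refine ⟨1, one_pos, fun x y hxy => ?_⟩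
    have : (x, y) ∈ T := by
      rw [hT, Finset.mem_filter]
      exact ⟨mem_univ _, hxy⟩
    rw [h0] at this
    simp at this
  · obtain ⟨p, hp, hmin⟩ := Finset.exists_min_image T (fun p => γ p.2 - α p.1) h0
    have h1 : α p.1 < γ p.2 := by
      rw [hT, Finset.mem_filter] at hp
      exact hp.2
    refine ⟨γ p.2 - α p.1, by linarith, fun x y hxy => ?_⟩
    have h2 := hmin (x, y) (by
      rw [hT, Finset.mem_filter]
      exact ⟨mem_univ _, hxy⟩)
    simp only at h2
    linarith

lemma bks_tri' (α γ : (V → Bk) → ℝ) :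
    Bks (10 * Fintype.card V + 3) (fun x y => if α x < γ y then (1 : ℝ) else 0) := by
  obtain ⟨ε, hε, h⟩ := exists_gap α γ
  refine (bks_tri (fun x => -α x) (fun y => ε - γ y)).congr fun x y => ?_
  refine if_congr ?_ rfl rfl
  constructor
  · intro h1
    have := h x y h1
    linarith
  · intro h1
    linarith

/-- the complement of a relation with equal or disjoint rows -/
lemma bks_cdif {P : (V → Bk) → (V → Bk) → Prop} (hP : Dif P) [∀ x y, Decidable (P x y)] :
    Bks (2 * (10 * Fintype.card V + 3)) (fun x y => if P x y then (0 : ℝ) else 1) := by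
  classical
  obtain ⟨row, hrow⟩ : ∃ row : (V → Bk) → Finset (V → Bk), row = fun x => univ.filter (P x) :=
    ⟨_, rfl⟩
  have hmem : ∀ x y, y ∈ row x ↔ P x y := by
    intro x y
    rw [hrow]
    simp
  obtain ⟨en, hen⟩ : ∃ en : Finset (V → Bk) → ℕ, Function.Injective en := by
    refine ⟨fun s => (Fintype.equivFin (Finset (V → Bk)) s : ℕ), ?_⟩
    exact Fin.val_injective.comp (Equiv.injective _)
  obtain ⟨β, hβ⟩ : ∃ β : (V → Bk) → ℝ,
      β = fun x => if (row x).Nonempty then (en (row x) : ℝ) + 2 else 0 := ⟨_, rfl⟩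
  obtain ⟨γ, hγ⟩ : ∃ γ : (V → Bk) → ℝ,
      γ = fun y => if h : ∃ x, P x y then (en (row h.choose) : ℝ) + 2 else 1 := ⟨_, rfl⟩
  have hβ1 : ∀ x, (row x).Nonempty → β x = (en (row x) : ℝ) + 2 := by
    intro x hx
    rw [hβ]
    exact if_pos hx
  have hβ0 : ∀ x, ¬ (row x).Nonempty → β x = 0 := by
    intro x hx
    rw [hβ]
    exact if_neg hx
  have hγ1 : ∀ y, ∀ h : ∃ x, P x y, γ y = (en (row h.choose) : ℝ) + 2 := by
    intro y hy
    rw [hγ]
    exact dif_pos hy
  have hγ0 : ∀ y, ¬ (∃ x, P x y) → γ y = 1 := by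
    intro y hy
    rw [hγ]
    exact dif_neg hy
  have hiff : ∀ x y, P x y ↔ β x = γ y := by
    intro x y
    constructor
    · intro hxy
      have hy : ∃ x, P x y := ⟨x, hxy⟩
      have hx : (row x).Nonempty := ⟨y, (hmem _ _).mpr hxy⟩
      rw [hβ1 x hx, hγ1 y hy]
      have h1 := hy.choose_spec
      have h2 : row x = row hy.choose := by
        ext y'
        rw [hmem, hmem]
        exact ⟨fun h => hP _ _ _ _ h1 hxy h, fun h => hP _ _ _ _ hxy h1 h⟩
      rw [h2]
    · intro heq
      by_cases hx : (row x).Nonempty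
      · rw [hβ1 x hx] at heq
        by_cases hy : ∃ x, P x y
        · rw [hγ1 y hy] at heq
          have h1 : en (row x) = en (row hy.choose) := by
            have : (en (row x) : ℝ) = en (row hy.choose) := by linarith
            exact_mod_cast this
          have h2 := hen h1
          rw [← hmem, h2, hmem]
          exact hy.choose_spec
        · rw [hγ0 y hy] at heq
          have : (0 : ℝ) ≤ en (row x) := Nat.cast_nonneg _
          linarith
      · rw [hβ0 x hx] at heq
        by_cases hy : ∃ x, P x y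
        · rw [hγ1 y hy] at heq
          have : (0 : ℝ) ≤ en (row hy.choose) := Nat.cast_nonneg _
          linarith
        · rw [hγ0 y hy] at heq
          norm_num at heq
  have h1 := (bks_tri' β γ).add (bks_tri' (fun x => -β x) (fun y => -γ y))
  rw [two_mul]
  refine h1.congr fun x y => ?_
  rcases lt_trichotomy (β x) (γ y) with h | h | h
  · rw [if_neg (fun hh => h.ne ((hiff x y).mp hh)), if_pos h, if_neg (by linarith)]
    norm_num
  · rw [if_pos ((hiff x y).mpr h), if_neg (by linarith), if_neg (by linarith)]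
    norm_num
  · rw [if_neg (fun hh => h.ne' ((hiff x y).mp hh)), if_neg (by linarith), if_pos (by linarith)]
    norm_num

/-- the cost of the complement of a product -/
def ek (c : ℕ) : ℕ → ℕ
  | 0 => 0
  | k + 1 => ek c k + c ^ k * c

lemma ek_le {c : ℕ} (hc : 2 ≤ c) (k : ℕ) : ek c k ≤ c ^ (k + 1) := by
  induction k with
  | zero => simp [ek]
  | succ k ih =>
    unfold ek
    rw [← pow_succ]
    calc ek c k + c ^ (k + 1) ≤ c ^ (k + 1) * 2 := by omega
      _ ≤ c ^ (k + 1) * c := Nat.mul_le_mul_left _ hc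
      _ = _ := (pow_succ _ _).symm

lemma bks_prod {c : ℕ} {k : ℕ} : ∀ (f : Fin k → (V → Bk) → (V → Bk) → ℝ)
    (_ : ∀ j, Bks c (f j)) (_ : ∀ j, Bks c (fun x y => 1 - f j x y)),
    Bks (c ^ k) (fun x y => ∏ j, f j x y) ∧ Bks (ek c k) (fun x y => 1 - ∏ j, f j x y) := by
  induction k with
  | zero =>
    intro f _ _
    constructor
    · exact bks_one.congr fun x y => by simp
    · exact bks_zero.congr fun x y => by simp
  | succ k ih =>
    intro f hf hf'
    obtain ⟨h1, h2⟩ := ih (fun j => f j.castSucc) (fun j => hf _) (fun j => hf' _)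
    constructor
    · rw [pow_succ]
      refine (h1.mul (hf (Fin.last k))).congr fun x y => ?_
      rw [Fin.prod_univ_castSucc]
    · unfold ek
      refine (h2.add (h1.mul (hf' (Fin.last k)))).congr fun x y => ?_
      rw [Fin.prod_univ_castSucc]
      ring

variable {n : ℕ} {e : V × Bool × Fin 10 → Fin n}

/-- the complement of the solution set of a system -/
lemma lines_cpl (he : Function.Injective e) {k : ℕ} {S : Set (Fin n → Bool)} (hS : LinSys k S) :
    Bks ((10 * Fintype.card V + 3) ^ (k + 2))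
      (fun x y : V → Bk => 1 - S.indicator (fun _ => (1 : ℝ)) (ax e x y)) := by
  classical
  obtain ⟨a, d, r, M, b, q, hS⟩ := hS
  obtain ⟨c, hc⟩ : ∃ c, c = 10 * Fintype.card V + 3 := ⟨_, rfl⟩
  -- the inequalities
  have hineq : ∀ j, Bks c (fun x y : V → Bk =>
      if d j ≤ ∑ v, (if ax e x y v then a j v else 0) then (1 : ℝ) else 0) ∧
      Bks c (fun x y : V → Bk =>
      1 - if d j ≤ ∑ v, (if ax e x y v then a j v else 0) then (1 : ℝ) else 0) := by
    intro j
    obtain ⟨α, β, hαβ⟩ := lin_split (e := e) he (a j)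
    constructor
    · rw [hc]
      refine (bks_tri α (fun y => d j - β y)).congr fun x y => ?_
      refine if_congr ?_ rfl rfl
      rw [hαβ]
      constructor <;> intro h <;> linarith
    · rw [hc]
      refine (bks_tri' α (fun y => d j - β y)).congr fun x y => ?_
      rw [hαβ]
      by_cases h : d j ≤ α x + β y
      · rw [if_pos h, if_neg (by linarith)]
        norm_num
      · rw [if_neg h, if_pos (by linarith)]
        norm_num
  -- the congruences
  obtain ⟨Cg, hCg⟩ : ∃ Cg : (V → Bk) → (V → Bk) → Prop, Cg = fun x y =>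
    ∀ j, q j ∣ (∑ v, if ax e x y v then M j v else 0) - b j := ⟨_, rfl⟩
  have hCg2 : Dif Cg := by
    intro x y x' y' h1 h2 h3
    rw [hCg] at h1 h2 h3 ⊢
    intro j
    obtain ⟨α, β, hαβ⟩ := lin_split (e := e) he (M j)
    have h1' := h1 j
    have h2' := h2 j
    have h3' := h3 j
    rw [hαβ] at h1' h2' h3' ⊢
    have h4 : α x + β y' - b j = (α x + β y - b j) - (α x' + β y - b j) +
        (α x' + β y' - b j) := by ring
    rw [h4]
    exact dvd_add (dvd_sub h1' h2') h3'
  obtain ⟨h1, h2⟩ := bks_prod _ (fun j => (hineq j).1) (fun j => (hineq j).2)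
  have h3 := bks_cdif hCg2
  rw [← hc] at h3 ⊢
  have h4 : ek c k + c ^ k * (2 * c) ≤ c ^ (k + 2) := by
    have h5 := ek_le (show 2 ≤ c by omega) k
    have h6 : c ^ k * (2 * c) = c ^ (k + 1) * 2 := by ring
    have h7 : c ^ (k + 2) = c ^ (k + 1) * c := pow_succ _ _
    have h8 : c ^ (k + 1) * 3 ≤ c ^ (k + 1) * c := Nat.mul_le_mul_left _ (by omega)
    omega
  refine ((h2.add (h1.mul h3)).mono h4).congr fun x y => ?_
  have h5 : ax e x y ∈ S ↔ (∀ j, d j ≤ ∑ v, if ax e x y v then a j v else 0) ∧ Cg x y := by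
    rw [hCg]
    exact hS _
  rw [Set.indicator_apply]
  by_cases h6 : ∀ j, d j ≤ ∑ v, if ax e x y v then a j v else 0
  · rw [Finset.prod_eq_one fun j _ => if_pos (h6 j)]
    by_cases h7 : Cg x y
    · rw [if_pos (h5.mpr ⟨h6, h7⟩), if_pos h7]
      norm_num
    · rw [if_neg (fun h => h7 (h5.mp h).2), if_neg h7]
      norm_num
  · rw [if_neg (fun h => h6 (h5.mp h).1)]
    push Not at h6
    obtain ⟨j, hj⟩ := h6
    rw [Finset.prod_eq_zero (mem_univ j) (if_neg (not_le.mpr hj))]
    norm_num

end Pool.Agent.J4H24.CA
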