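import Pool.Agent.J4H24.CA.Defs

/-!
# Refutations whose lines are Boolean functions of inequalities and of systems of congruences
-/

namespace Pool.Agent.J4H24.CA

open Pool.Agent.J4H24.NS

variable {n : ℕ}

/-- `P` is the set of the Boolean solutions of a system of linear congruences (arbitrary integer
coefficients and moduli), or of one linear inequality with arbitrary real coefficients. -/
def Tst (P : Set (Fin n → Bool)) : Prop :=
  LinSys 0 P ∨ ∃ (a : Fin n → ℝ) (d : ℝ), ∀ x, x ∈ P ↔ d ≤ ∑ v, if x v then a v else 0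

/-- `S` is a Boolean combination of `k` sets of this kind. -/
def Bln (k : ℕ) (S : Set (Fin n → Bool)) : Prop :=
  ∃ P : Fin k → Set (Fin n → Bool), (∀ j, Tst (P j)) ∧
    ∀ x y, (∀ j, x ∈ P j ↔ y ∈ P j) → (x ∈ S ↔ y ∈ S)

/-- A refutation of the CNF `F` with `s` lines. The set `S v` consists of the assignments that
falsify the line `v`; it is a Boolean combination of `k` tests, and the line `v0` is contradictory.
Every line follows from a clause of `F`, or from earlier lines by a sound rule with a case
distinction: the cube is partitioned into `p` sets `A c`, each given by `κ` inequalities and some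
congruences, and on `A c` the line `v` is implied by the `a` lines `w c i`. The cost of the rule is
`τ`, the logarithm of `p n ^ κ (2 n ^ k) ^ (a - 1)` (rounded up), and it is at most `t`; the total
cost along a path, bounded by the height `h`, is at most `D`. -/
def Rft (F : Finset (Finset (Fin n × Bool))) (k t s D : ℕ) : Prop :=
  ∃ (S : Fin s → Set (Fin n → Bool)) (h : Fin s → ℕ) (v0 : Fin s), S v0 = Set.univ ∧ h v0 ≤ D ∧
    ∀ v, Bln k (S v) ∧ ((∃ C ∈ F, ∀ x ∈ S v, Fals C x) ∨
      ∃ (κ p a τ : ℕ) (A : Fin p → Set (Fin n → Bool)) (w : Fin p → Fin a → Fin s),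
        p * n ^ κ * (2 * n ^ k) ^ (a - 1) ≤ 2 ^ τ ∧ τ ≤ t ∧
        (∀ c, LinSys κ (A c)) ∧ (∀ x, ∃! c, x ∈ A c) ∧
          ∀ c, (∀ i, w c i < v ∧ h (w c i) + τ ≤ h v) ∧ S v ∩ A c ⊆ ⋃ i, S (w c i))

end Pool.Agent.J4H24.CA
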