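import Pool.Agent.J4H24.CA.Exist

/-!
# The lower bound for Sherali–Adams over systems of inequalities and congruences
-/

namespace Pool.Agent.J4H24.CA

open Finset Pool.Agent.J4H24.PR Pool.Agent.J4H24.SA Pool.Agent.J4H24.NS

set_option linter.unusedSectionVars false

lemma two_pow_ge (j : ℕ) (hj : 6 ≤ j) : j + 29 ≤ 2 ^ j := by
  induction j, hj using Nat.le_induction with
  | base => norm_num
  | succ j hj ih =>
    rw [pow_succ]
    omega

lemma log_small {n : ℕ} (hn : 2 ^ 32 ≤ n) : 33592320 * (Nat.log 2 n + 3) ≤ n := by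
  have h1 : 32 ≤ Nat.log 2 n := by
    rw [← Nat.log_pow (show 1 < 2 by norm_num) 32]
    exact Nat.log_mono_right hn
  obtain ⟨j, hj⟩ := Nat.exists_eq_add_of_le (show 26 ≤ Nat.log 2 n by omega)
  have h2 : 2 ^ Nat.log 2 n ≤ n := Nat.pow_log_le_self 2 (by
    have : 0 < 2 ^ 32 := by norm_num
    omega)
  have h3 := two_pow_ge j (by omega)
  rw [hj] at h2 ⊢
  rw [pow_add] at h2
  have h4 : 2 ^ 26 * (j + 29) ≤ 2 ^ 26 * 2 ^ j := Nat.mul_le_mul_left _ h3
  norm_num at h4 h2 ⊢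
  omega

/-- the sizes of the parameters -/
lemma sizes2 {n N' l g K : ℕ} (hn : 2 ^ 32 ≤ n) (hN' : N' = n / 20) (hl : l = Nat.log 2 n + 1)
    (hg : g = 2 * l) (hK : K = N' / (26244 * (16 * g))) :
    (1 / 33592320 : ℝ) * n + 1 ≤ ((l * K : ℕ) : ℝ) := by
  have h1 := log_small hn
  have hgpos : 0 < 26244 * (16 * g) := by omega
  have h2 : N' < 26244 * (16 * g) * (K + 1) := by
    rw [hK]
    exact Nat.lt_mul_div_succ N' hgpos
  have h3 : 26244 * (16 * g) * (K + 1) = 839808 * (l * K + l) := by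
    rw [hg]
    ring
  rw [h3] at h2
  obtain ⟨z, hz⟩ : ∃ z, z = l * K := ⟨_, rfl⟩
  rw [← hz] at h2 ⊢
  have h4 : n + 33592320 ≤ 33592320 * z := by omega
  have h5 : ((n + 33592320 : ℕ) : ℝ) ≤ ((33592320 * z : ℕ) : ℝ) := by exact_mod_cast h4
  push_cast at h5
  linarith

/-- the final computation -/
lemma final2 {n N' l g K k : ℕ} {W δ : ℝ} (hn : 2 ^ 32 ≤ n) (hN' : N' = n / 20)
    (hl : l = Nat.log 2 n + 1) (hg : g = 2 * l)
    (hsize : δ * n + 1 ≤ ((l * K : ℕ) : ℝ)) (hW0 : 0 ≤ W)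
    (hW : 1 / 2 ≤ W * (((10 * N' + 3) ^ k : ℕ) * th (Fin (N' + 1)) g K)) :
    (2 : ℝ) ^ (δ * n) ≤ n ^ k * W := by
  have hnl : n < 2 ^ l := by
    rw [hl]
    exact Nat.lt_pow_succ_log_self (by norm_num) n
  have h1 : ((Fam (Fin (N' + 1)) K).card : ℝ) ≤ 2 ^ (l * K) := by
    have h2 : (Fam (Fin (N' + 1)) K).card ≤ 2 ^ (l * K) := by
      refine (card_small _ K fun J hJ => mem_Fam.mp hJ).trans ?_
      rw [Fintype.card_fin, pow_mul]
      refine Nat.pow_le_pow_left ?_ K
      have : 0 < 2 ^ 32 := by norm_num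
      omega
    exact_mod_cast h2
  have h3 : th (Fin (N' + 1)) g K ≤ (1 / 2) ^ (l * K) := by
    unfold th
    have h4 : (0 : ℝ) ≤ (1 / 2) ^ (g * K) := by positivity
    refine (mul_le_mul_of_nonneg_right h1 h4).trans (le_of_eq ?_)
    rw [hg, show 2 * l * K = l * K + l * K by ring, pow_add, ← mul_assoc, ← mul_pow]
    norm_num
  have h5 : (((10 * N' + 3) ^ k : ℕ) : ℝ) ≤ (n : ℝ) ^ k := by
    have h6 : (10 * N' + 3) ^ k ≤ n ^ k := Nat.pow_le_pow_left (by
      have : 100 < 2 ^ 32 := by norm_num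
      omega) k
    exact_mod_cast h6
  have h7 : 1 / 2 ≤ W * ((n : ℝ) ^ k * (1 / 2) ^ (l * K)) := by
    refine hW.trans (mul_le_mul_of_nonneg_left ?_ hW0)
    exact mul_le_mul h5 h3 th_nonneg (by positivity)
  have h8 : (2 : ℝ) ^ (δ * n + 1) ≤ 2 ^ (l * K) := by
    rw [← Real.rpow_natCast]
    exact Real.rpow_le_rpow_of_exponent_le (by norm_num) hsize
  rw [Real.rpow_add (by norm_num), Real.rpow_one] at h8
  have h9 : (0 : ℝ) < 2 ^ (l * K) := by positivity
  have h10 : W * ((n : ℝ) ^ k * (1 / 2) ^ (l * K)) * 2 ^ (l * K) = n ^ k * W := by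
    have h11 : ((1 / 2 : ℝ) ^ (l * K)) * 2 ^ (l * K) = 1 := by
      rw [← mul_pow]
      norm_num
    calc W * ((n : ℝ) ^ k * (1 / 2) ^ (l * K)) * 2 ^ (l * K) =
        W * (n : ℝ) ^ k * ((1 / 2) ^ (l * K) * 2 ^ (l * K)) := by ring
      _ = _ := by rw [h11]; ring
  have h12 := mul_le_mul_of_nonneg_right h7 h9.le
  rw [h10] at h12
  linarith

/-- the main theorem -/
theorem ca_main : ∃ (δ : ℝ) (w C N : ℕ), 0 < δ ∧ ∀ n ≥ N,
    ∃ F : Finset (Finset (Fin n × Bool)),
      (∀ y, ∃ D ∈ F, Fals D y) ∧ (∀ D ∈ F, D.card ≤ w * Nat.log 2 n) ∧ F.card ≤ n ^ C ∧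
      ∀ (k a a' : ℕ) (l : Fin a → ℝ) (S : Fin a → Set (Fin n → Bool)) (m : Fin a' → ℝ)
        (T : Fin a' → Set (Fin n → Bool)),
        (∀ i, LinSys k (S i) ∧ ∃ D ∈ F, ∀ x ∈ S i, Fals D x) →
        (∀ j, LinSys k (T j) ∧ 0 ≤ m j) →
        (∀ x, ∑ i, l i * (S i).indicator (fun _ => (1 : ℝ)) x =
          1 + ∑ j, m j * (T j).indicator (fun _ => (1 : ℝ)) x) →
        (2 : ℝ) ^ (δ * n) ≤ n ^ k * (∑ i, |l i| + ∑ j, m j) ∧
        (2 : ℝ) ^ (δ * n) ≤ n ^ k * ((1 + a') * ∑ i, |l i|) := by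
  classical
  refine ⟨1 / 33592320, 640, 1281, 2 ^ 32, by norm_num, fun n hn => ?_⟩
  obtain ⟨N', hN'⟩ : ∃ N' : ℕ, N' = n / 20 := ⟨_, rfl⟩
  obtain ⟨l, hl⟩ : ∃ l : ℕ, l = Nat.log 2 n + 1 := ⟨_, rfl⟩
  obtain ⟨g, hg⟩ : ∃ g : ℕ, g = 2 * l := ⟨_, rfl⟩
  obtain ⟨K, hK⟩ : ∃ K : ℕ, K = N' / (26244 * (16 * g)) := ⟨_, rfl⟩
  have hn2 : 100 ≤ n := le_trans (by norm_num) hn
  have hnl : n < 2 ^ l := by
    rw [hl]
    exact Nat.lt_pow_succ_log_self (by norm_num) n
  have hlog : 1 ≤ Nat.log 2 n := Nat.log_pos (by norm_num) (by omega)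
  have hm : N' + 1 ≤ 2 ^ l := by omega
  have hlpow : 2 ^ Nat.log 2 n ≤ n := Nat.pow_log_le_self 2 (by omega)
  obtain ⟨R, hR⟩ := exists_R (N := N') (m := N' + 1) (l := l) (g := g) (K := K) (by omega)
    (by omega) hm hg (by
      rw [hK]
      have := Nat.mul_div_le N' (26244 * (16 * g))
      refine le_trans (le_of_eq ?_) this
      ring)
  obtain ⟨b, hb⟩ := exists_b (Nat.lt_succ_self N') R
  obtain ⟨e⟩ : Nonempty ((Fin N' × Bool × Fin 10) ↪ Fin n) :=
    Function.Embedding.nonempty_of_card_le (by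
      rw [Fintype.card_prod, Fintype.card_prod, Fintype.card_bool, Fintype.card_fin,
        Fintype.card_fin, Fintype.card_fin]
      omega)
  refine ⟨frm e R b, frm_unsat hb, fun D hD => ?_, ?_, ?_⟩
  · refine (frm_width hD).trans ?_
    rw [hg, hl]
    omega
  · refine frm_card.trans ?_
    rw [Fintype.card_fin]
    have h1 : 2 ^ (320 * g) ≤ n ^ 1280 := by
      have h2 : 320 * g ≤ Nat.log 2 n * 1280 := by omega
      calc 2 ^ (320 * g) ≤ 2 ^ (Nat.log 2 n * 1280) := Nat.pow_le_pow_right (by norm_num) h2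
        _ = (2 ^ Nat.log 2 n) ^ 1280 := pow_mul _ _ _
        _ ≤ n ^ 1280 := Nat.pow_le_pow_left hlpow _
    have h3 : N' + 1 ≤ n := by omega
    exact (Nat.mul_le_mul h1 h3).trans (le_of_eq (pow_succ n 1280).symm)
  · intro k a a' lam S m T hS hT hid
    -- the terms that vanish identically are removed
    obtain ⟨m', hm'⟩ : ∃ m' : Fin a' → ℝ, m' = fun j => if (T j).Nonempty then m j else 0 :=
      ⟨_, rfl⟩
    have hm'0 : ∀ j, 0 ≤ m' j := by
      intro j
      rw [hm']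
      show 0 ≤ if (T j).Nonempty then m j else 0
      split_ifs
      · exact (hT j).2
      · exact le_refl _
    have hm'1 : ∀ j, m' j ≤ m j := by
      intro j
      rw [hm']
      show (if (T j).Nonempty then m j else 0) ≤ m j
      split_ifs
      · exact le_refl _
      · exact (hT j).2
    have hid' : ∀ x, ∑ i, lam i * (S i).indicator (fun _ => (1 : ℝ)) x =
        1 + ∑ j, m' j * (T j).indicator (fun _ => (1 : ℝ)) x := by
      intro x
      rw [hid x]
      congr 1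
      refine Finset.sum_congr rfl fun j _ => ?_
      by_cases hx : x ∈ T j
      · rw [hm']
        show _ = (if (T j).Nonempty then m j else 0) * _
        rw [if_pos ⟨x, hx⟩]
      · rw [Set.indicator_of_notMem hx, mul_zero, mul_zero]
    have hle : ∀ x, ∑ i, lam i * (S i).indicator (fun _ => (1 : ℝ)) x ≤ ∑ i, |lam i| := by
      intro x
      refine Finset.sum_le_sum fun i _ => ?_
      by_cases hx : x ∈ S i
      · rw [Set.indicator_of_mem hx, mul_one]
        exact le_abs_self _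
      · rw [Set.indicator_of_notMem hx, mul_zero]
        exact abs_nonneg _
    have hl0 : 0 ≤ ∑ i, |lam i| := Finset.sum_nonneg fun i _ => abs_nonneg _
    have hm'2 : ∀ j, m' j ≤ ∑ i, |lam i| := by
      intro j
      by_cases hne : (T j).Nonempty
      · obtain ⟨x, hx⟩ := hne
        have h1 : m' j * (T j).indicator (fun _ => (1 : ℝ)) x ≤
            ∑ j, m' j * (T j).indicator (fun _ => (1 : ℝ)) x :=
          Finset.single_le_sum (f := fun j => m' j * (T j).indicator (fun _ => (1 : ℝ)) x)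
            (fun j _ => mul_nonneg (hm'0 j) (Set.indicator_nonneg (fun _ _ => zero_le_one) _))
            (mem_univ j)
        rw [Set.indicator_of_mem hx, mul_one] at h1
        have h2 := hid' x
        have h3 := hle x
        linarith
      · rw [hm']
        show (if (T j).Nonempty then m j else 0) ≤ _
        rw [if_neg hne]
        exact hl0
    have hsum : ∑ j, m' j ≤ a' * ∑ i, |lam i| := by
      refine (Finset.sum_le_sum fun j _ => hm'2 j).trans (le_of_eq ?_)
      rw [Finset.sum_const, Finset.card_univ, Fintype.card_fin, nsmul_eq_mul]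
    have hW0 : 0 ≤ ∑ i, |lam i| + ∑ j, m' j :=
      add_nonneg hl0 (Finset.sum_nonneg fun j _ => hm'0 j)
    have key : (2 : ℝ) ^ ((1 / 33592320 : ℝ) * n) ≤ n ^ k * (∑ i, |lam i| + ∑ j, m' j) := by
      refine final2 hn hN' hl hg (sizes2 hn hN' hl hg hK) hW0 ?_
      have hc := core (V := Fin N') (ι := Fin (N' + 1)) (g := g) (r := K) (R := R) (b := b)
        (by omega) hR (hz_bound (by omega) hm hg) (K0 := (10 * Fintype.card (Fin N') + 3) ^ k)
        lam m' hm'0
        (fun i x y => (S i).indicator (fun _ => (1 : ℝ)) (ax e x y))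
        (fun j x y => (T j).indicator (fun _ => (1 : ℝ)) (ax e x y))
        (fun i => lines_bks e.injective (hS i).1)
        (fun j => lines_bks e.injective (hT j).1) ?_ (fun x y => hid' (ax e x y))
      · rw [Fintype.card_fin] at hc
        exact hc
      · intro i
        obtain ⟨D, hD, hfal⟩ := (hS i).2
        obtain ⟨i0, zx, zy, hz, rfl⟩ := mem_frm.mp hD
        refine ⟨i0, fun x y hxy => eps_of_fals e.injective hz (hfal _ ?_)⟩
        by_contra hcon
        exact hxy (Set.indicator_of_notMem hcon _)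
    have hnk : (0 : ℝ) ≤ (n : ℝ) ^ k := by positivity
    refine ⟨key.trans (mul_le_mul_of_nonneg_left ?_ hnk),
      key.trans (mul_le_mul_of_nonneg_left ?_ hnk)⟩
    · have := Finset.sum_le_sum fun j (_ : j ∈ (univ : Finset (Fin a'))) => hm'1 j
      linarith
    · linarith

end Pool.Agent.J4H24.CA
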