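import Pool.Agent.J4H24.CA.Itr
import Pool.Agent.J4H24.CA.Main
import Pool.Agent.J4H24.CA.DefsD

/-!
# The lower bound for refutations of bounded depth
-/

namespace Pool.Agent.J4H24.CA

open Finset Pool.Agent.J4H24.PR Pool.Agent.J4H24.SA Pool.Agent.J4H24.NS

set_option linter.unusedSectionVars false

section

variable {V : Type} [Fintype V] [DecidableEq V] {n : ℕ} {e : V × Bool × Fin 10 → Fin n}

/-- a test and its complement -/
lemma tst_bks (he : Function.Injective e) {P : Set (Fin n → Bool)} (hP : Tst P) :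
    ∃ c1 c2, c1 + c2 ≤ 2 * (10 * Fintype.card V + 3) + 1 ∧
      Bks c1 (fun x y : V → Bk => P.indicator (fun _ => (1 : ℝ)) (ax e x y)) ∧
      Bks c2 (fun x y : V → Bk => 1 - P.indicator (fun _ => (1 : ℝ)) (ax e x y)) := by
  classical
  rcases hP with hP | ⟨a, d, hP⟩
  · refine ⟨1, 2 * (10 * Fintype.card V + 3), by omega, ?_, ?_⟩
    · have := lines_bks he hP
      rwa [pow_zero] at this
    · obtain ⟨a0, d0, r, M, b, q, hS⟩ := hP
      obtain ⟨Cg, hCg⟩ : ∃ Cg : (V → Bk) → (V → Bk) → Prop, Cg = fun x y =>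
        ∀ j, q j ∣ (∑ v, if ax e x y v then M j v else 0) - b j := ⟨_, rfl⟩
      have hCg2 : Dif Cg := by
        intro x y x' y' h1 h2 h3
        rw [hCg] at h1 h2 h3 ⊢
        intro j
        obtain ⟨α, β, hαβ⟩ := lin_split (e := e) he (M j)
        have h1' := h1 j
        have h2' := h2 j
        have h3' := h3 j
        rw [hαβ] at h1' h2' h3' ⊢
        have h4 : α x + β y' - b j = (α x + β y - b j) - (α x' + β y - b j) +
            (α x' + β y' - b j) := by ring
        rw [h4]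
        exact dvd_add (dvd_sub h1' h2') h3'
      refine (bks_cdif hCg2).congr fun x y => ?_
      have h5 : ax e x y ∈ P ↔ Cg x y := by
        rw [hCg]
        refine (hS _).trans ⟨fun h => h.2, fun h => ⟨fun j => j.elim0, h⟩⟩
      rw [Set.indicator_apply]
      by_cases h6 : Cg x y
      · rw [if_pos (h5.mpr h6), if_pos h6]
        norm_num
      · rw [if_neg (fun h => h6 (h5.mp h)), if_neg h6]
        norm_num
  · obtain ⟨α, β, hαβ⟩ := lin_split (e := e) he a
    have h5 : ∀ x y, ax e x y ∈ P ↔ d - β y ≤ α x := by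
      intro x y
      rw [hP, hαβ]
      constructor <;> intro h <;> linarith
    refine ⟨10 * Fintype.card V + 3, 10 * Fintype.card V + 3, by omega, ?_, ?_⟩
    · refine (bks_tri α (fun y => d - β y)).congr fun x y => ?_
      rw [Set.indicator_apply]
      exact if_congr (h5 x y) rfl rfl
    · refine (bks_tri' α (fun y => d - β y)).congr fun x y => ?_
      rw [Set.indicator_apply]
      by_cases h6 : ax e x y ∈ P
      · rw [if_pos h6, if_neg (not_lt.mpr ((h5 x y).mp h6))]
        norm_num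
      · rw [if_neg h6, if_pos (not_le.mp fun h => h6 ((h5 x y).mpr h))]
        norm_num

open Classical in
/-- Boolean functions of tests -/
lemma bool_bks (he : Function.Injective e) {m k : ℕ}
    (hm : 2 * (10 * Fintype.card V + 3) + 1 ≤ m) :
    ∀ (P : Fin k → Set (Fin n → Bool)) (_ : ∀ j, Tst (P j)) (φ : (Fin k → Prop) → Prop),
      Bks (m ^ k) (fun x y : V → Bk => if φ (fun j => ax e x y ∈ P j) then (1 : ℝ) else 0) := by
  induction k with
  | zero =>
    intro P _ φ
    have h0 : ∀ q : Fin 0 → Prop, q = fun j => j.elim0 := fun q => funext fun j => j.elim0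
    by_cases h : φ (fun j => j.elim0)
    · refine bks_one.congr fun x y => if_pos ?_
      rw [h0 fun j => ax e x y ∈ P j]
      exact h
    · refine (bks_zero.mono (Nat.zero_le _)).congr fun x y => if_neg ?_
      rw [h0 fun j => ax e x y ∈ P j]
      exact h
  | succ k ih =>
    intro P hP φ
    obtain ⟨c1, c2, hc, h1, h2⟩ := tst_bks he (hP 0)
    have h3 := ih (fun j => P j.succ) (fun j => hP _) (fun q => φ (Fin.cons True q))
    have h4 := ih (fun j => P j.succ) (fun j => hP _) (fun q => φ (Fin.cons False q))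
    refine (((h1.mul h3).add (h2.mul h4)).mono ?_).congr fun x y => ?_
    · rw [← add_mul, pow_succ, mul_comm]
      exact Nat.mul_le_mul_left _ (hc.trans hm)
    · have h5 : (fun j => ax e x y ∈ P j) =
          Fin.cons (ax e x y ∈ P 0) (fun j : Fin k => ax e x y ∈ P j.succ) := by
        funext j
        refine Fin.cases ?_ (fun j => ?_) j
        · rw [Fin.cons_zero]
        · rw [Fin.cons_succ]
      rw [h5]
      by_cases h6 : ax e x y ∈ P 0
      · rw [Set.indicator_of_mem h6, eq_true h6]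
        ring
      · rw [Set.indicator_of_notMem h6, eq_false h6]
        ring

lemma bln_bks (he : Function.Injective e) {m k : ℕ}
    (hm : 2 * (10 * Fintype.card V + 3) + 1 ≤ m) {S : Set (Fin n → Bool)} (hS : Bln k S) :
    Bks (m ^ k) (fun x y : V → Bk => S.indicator (fun _ => (1 : ℝ)) (ax e x y)) ∧
    Bks (m ^ k) (fun x y : V → Bk => 1 - S.indicator (fun _ => (1 : ℝ)) (ax e x y)) := by
  classical
  obtain ⟨P, hP, hS⟩ := hS
  have hiff : ∀ x, x ∈ S ↔ ∃ y ∈ S, (fun j => y ∈ P j) = fun j => x ∈ P j := by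
    intro x
    constructor
    · intro hx
      exact ⟨x, hx, rfl⟩
    · rintro ⟨y, hy, hyx⟩
      exact (hS y x fun j => iff_of_eq (congrFun hyx j)).mp hy
  constructor
  · refine (bool_bks he hm P hP (fun q => ∃ y ∈ S, (fun j => y ∈ P j) = q)).congr
      fun x y => ?_
    rw [Set.indicator_apply]
    by_cases h : ax e x y ∈ S
    · rw [if_pos h, if_pos ((hiff _).mp h)]
    · rw [if_neg h, if_neg (fun h' => h ((hiff _).mpr h'))]
  · refine (bool_bks he hm P hP (fun q => ¬ ∃ y ∈ S, (fun j => y ∈ P j) = q)).congr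
      fun x y => ?_
    rw [Set.indicator_apply]
    by_cases h : ax e x y ∈ S
    · rw [if_pos h, if_neg (not_not.mpr ((hiff _).mp h))]
      norm_num
    · rw [if_neg h, if_pos (fun h' => h ((hiff _).mpr h'))]
      norm_num

variable {σ : Type} [Fintype σ] [DecidableEq σ]

open Classical in
/-- the first line of a list that is falsified -/
noncomputable def fm (S : σ → Set (Fin n → Bool)) (x : Fin n → Bool) (w0 : σ) : List σ → σ
  | [] => w0
  | w1 :: ws => if x ∈ S w0 then w0 else fm S x w1 ws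

open Classical in
lemma fm_cons (S : σ → Set (Fin n → Bool)) (x : Fin n → Bool) (w0 w1 : σ) (ws : List σ) :
    fm S x w0 (w1 :: ws) = if x ∈ S w0 then w0 else fm S x w1 ws := rfl

lemma fm_mem {S : σ → Set (Fin n → Bool)} {x : Fin n → Bool} (ws : List σ) :
    ∀ w0, (∃ w ∈ w0 :: ws, x ∈ S w) → fm S x w0 ws ∈ w0 :: ws ∧ x ∈ S (fm S x w0 ws) := by
  induction ws with
  | nil =>
    rintro w0 ⟨w, hw, hx⟩
    rw [List.mem_singleton] at hw
    subst hw
    exact ⟨List.mem_singleton_self _, hx⟩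
  | cons w1 ws ih =>
    rintro w0 ⟨w, hw, hx⟩
    rw [fm_cons]
    by_cases h : x ∈ S w0
    · rw [if_pos h]
      exact ⟨List.mem_cons_self, h⟩
    · rw [if_neg h]
      have h1 : ∃ w ∈ w1 :: ws, x ∈ S w := by
        rcases List.mem_cons.mp hw with h2 | h2
        · subst h2
          exact absurd hx h
        · exact ⟨w, h2, hx⟩
      obtain ⟨h2, h3⟩ := ih w1 h1
      exact ⟨List.mem_cons_of_mem _ h2, h3⟩

lemma fm_bks {S : σ → Set (Fin n → Bool)} {Ku K : ℕ} (hKu : 1 ≤ Ku)
    (hS : ∀ w, Bks Ku (fun x y : V → Bk => (S w).indicator (fun _ => (1 : ℝ)) (ax e x y)))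
    (hS' : ∀ w, Bks Ku (fun x y : V → Bk => 1 - (S w).indicator (fun _ => (1 : ℝ)) (ax e x y)))
    {f : σ → (V → Bk) → (V → Bk) → ℝ} (hf : ∀ w, Bks K (f w)) (ws : List σ) :
    ∀ w0, Bks ((2 * Ku) ^ ws.length * K) (fun x y => f (fm S (ax e x y) w0 ws) x y) := by
  classical
  induction ws with
  | nil =>
    intro w0
    rw [List.length_nil, pow_zero, one_mul]
    exact hf w0
  | cons w1 ws ih =>
    intro w0
    refine ((((hS w0).mul (hf w0)).add ((hS' w0).mul (ih w1))).mono ?_).congr fun x y => ?_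
    · rw [List.length_cons, pow_succ]
      have h1 : 1 ≤ (2 * Ku) ^ ws.length := Nat.one_le_pow _ _ (by omega)
      have h2 : Ku * K ≤ Ku * ((2 * Ku) ^ ws.length * K) :=
        Nat.mul_le_mul_left _ (Nat.le_mul_of_pos_left _ h1)
      have h3 : (2 * Ku) ^ ws.length * (2 * Ku) * K =
          2 * (Ku * ((2 * Ku) ^ ws.length * K)) := by ring
      rw [h3]
      omega
    · rw [fm_cons]
      by_cases h : ax e x y ∈ S w0
      · rw [if_pos h, Set.indicator_of_mem h]
        ring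
      · rw [if_neg h, Set.indicator_of_notMem h]
        ring

end

/-- the sizes of the parameters -/
lemma sizes3 {n N' l g K : ℕ} (hn : 2 ^ 32 ≤ n) (hN' : N' = n / 21) (hl : l = Nat.log 2 n + 1)
    (hg : g = 2 * l) (hK : K = N' / (26244 * (16 * g))) :
    (1 / 67184640 : ℝ) * n ≤ ((l * K : ℕ) : ℝ) ∧ l * K ≤ n := by
  have h1 := log_small hn
  have hgpos : 0 < 26244 * (16 * g) := by omega
  have h2 : N' < 26244 * (16 * g) * (K + 1) := by
    rw [hK]
    exact Nat.lt_mul_div_succ N' hgpos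
  have h3 : 26244 * (16 * g) * (K + 1) = 839808 * (l * K + l) := by
    rw [hg]
    ring
  rw [h3] at h2
  have h5 : K * (26244 * (16 * g)) ≤ N' := by
    rw [hK]
    exact Nat.div_mul_le_self _ _
  have h6 : K * (26244 * (16 * g)) = 839808 * (l * K) := by
    rw [hg]
    ring
  rw [h6] at h5
  obtain ⟨z, hz⟩ : ∃ z, z = l * K := ⟨_, rfl⟩
  rw [← hz] at h2 h5 ⊢
  have h4 : n ≤ 67184640 * z := by omega
  refine ⟨?_, by omega⟩
  have h5 : ((n : ℕ) : ℝ) ≤ ((67184640 * z : ℕ) : ℝ) := by exact_mod_cast h4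
  push_cast at h5
  linarith

/-- the size of the family and the error -/
lemma fam_th {n N' l g K : ℕ} (hN' : N' + 2 ≤ n)
    (hl : l = Nat.log 2 n + 1) (hg : g = 2 * l) :
    (Fam (Fin (N' + 1)) K).card ≤ 2 ^ (l * K) ∧ th (Fin (N' + 1)) g K ≤ (1 / 2) ^ (l * K) := by
  have hnl : n < 2 ^ l := by
    rw [hl]
    exact Nat.lt_pow_succ_log_self (by norm_num) n
  have h2 : (Fam (Fin (N' + 1)) K).card ≤ 2 ^ (l * K) := by
    refine (card_small _ K fun J hJ => mem_Fam.mp hJ).trans ?_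
    rw [Fintype.card_fin, pow_mul]
    refine Nat.pow_le_pow_left ?_ K
    omega
  refine ⟨h2, ?_⟩
  have h1 : ((Fam (Fin (N' + 1)) K).card : ℝ) ≤ 2 ^ (l * K) := by exact_mod_cast h2
  unfold th
  have h4 : (0 : ℝ) ≤ (1 / 2) ^ (g * K) := by positivity
  refine (mul_le_mul_of_nonneg_right h1 h4).trans (le_of_eq ?_)
  rw [hg, show 2 * l * K = l * K + l * K by ring, pow_add, ← mul_assoc, ← mul_pow]
  norm_num

/-- the rule of a line: the next line of the walk -/
lemma rule_next {n k s t : ℕ} {S : Fin s → Set (Fin n → Bool)} {h : Fin s → ℕ} {v : Fin s}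
    {V : Type} [Fintype V] [DecidableEq V] {e : V × Bool × Fin 10 → Fin n}
    (he : Function.Injective e) (hn : 1 ≤ n) (hcn : 10 * Fintype.card V + 3 ≤ n)
    (H2 : ∀ v, Bks (n ^ k) (fun x y : V → Bk =>
      (S v).indicator (fun _ => (1 : ℝ)) (ax e x y)))
    (H2' : ∀ v, Bks (n ^ k) (fun x y : V → Bk =>
      1 - (S v).indicator (fun _ => (1 : ℝ)) (ax e x y)))
    (hv : ∃ (κ p a τ : ℕ) (A : Fin p → Set (Fin n → Bool)) (w : Fin p → Fin a → Fin s),
        p * n ^ κ * (2 * n ^ k) ^ (a - 1) ≤ 2 ^ τ ∧ τ ≤ t ∧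
        (∀ c, LinSys κ (A c)) ∧ (∀ x, ∃! c, x ∈ A c) ∧
          ∀ c, (∀ i, w c i < v ∧ h (w c i) + τ ≤ h v) ∧ S v ∩ A c ⊆ ⋃ i, S (w c i)) :
    ∃ (τ : ℕ) (nx : (Fin n → Bool) → Fin s), τ ≤ t ∧ Brn e (2 ^ τ) nx ∧
      ∀ x ∈ S v, x ∈ S (nx x) ∧ nx x < v ∧ h (nx x) + τ ≤ h v := by
  classical
  obtain ⟨κ, p, a, τ, A, w, hτ, hτt, h1, h2, h3⟩ := hv
  obtain ⟨fl, hfl⟩ : ∃ fl : (Fin n → Bool) → List (Fin s) → Fin s,
      fl = fun x l => match l with
        | [] => v
        | w0 :: ws => fm S x w0 ws := ⟨_, rfl⟩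
  have hfl0 : ∀ x, fl x [] = v := by
    intro x
    rw [hfl]
  have hfl1 : ∀ x w0 ws, fl x (w0 :: ws) = fm S x w0 ws := by
    intro x w0 ws
    rw [hfl]
  obtain ⟨nx, hnx⟩ : ∃ nx : (Fin n → Bool) → Fin s,
      nx = fun x => fl x (List.ofFn (w (h2 x).choose)) := ⟨_, rfl⟩
  have hnx1 : ∀ x c, x ∈ A c → nx x = fl x (List.ofFn (w c)) := by
    intro x c hc
    rw [hnx]
    simp only
    have h4 := (h2 x).choose_spec
    rw [h4.2 c hc]
  have hKu : 1 ≤ n ^ k := Nat.one_le_pow _ _ hn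
  refine ⟨τ, nx, hτt, ?_, ?_⟩
  · intro K0 f hf
    have h4 : ∀ c, Bks (n ^ κ * ((2 * n ^ k) ^ (a - 1) * K0)) (fun x y =>
        (A c).indicator (fun _ => (1 : ℝ)) (ax e x y) *
          f (fl (ax e x y) (List.ofFn (w c))) x y) := by
      intro c
      refine ((lines_bks he (h1 c)).mono (Nat.pow_le_pow_left hcn κ)).mul ?_
      obtain ⟨ls, hls⟩ : ∃ ls, ls = List.ofFn (w c) := ⟨_, rfl⟩
      have hlen : ls.length = a := by
        rw [hls, List.length_ofFn]
      rw [← hls]
      cases ls with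
      | nil =>
        refine ((hf v).mono (Nat.le_mul_of_pos_left _ ?_)).congr fun x y => ?_
        · exact Nat.pow_pos (by omega)
        · rw [hfl0]
      | cons w0 ws =>
        have h5 : a - 1 = ws.length := by
          rw [← hlen, List.length_cons]
          rfl
        rw [h5]
        refine (fm_bks hKu H2 H2' hf ws w0).congr fun x y => ?_
        rw [hfl1]
    refine ((Bks.sum h4).mono ?_).congr fun x y => ?_
    · rw [Fintype.card_fin]
      calc p * (n ^ κ * ((2 * n ^ k) ^ (a - 1) * K0)) =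
          p * n ^ κ * (2 * n ^ k) ^ (a - 1) * K0 := by ring
        _ ≤ _ := Nat.mul_le_mul_right _ hτ
    · obtain ⟨c, hc, hc2⟩ := h2 (ax e x y)
      rw [Finset.sum_eq_single c]
      · rw [Set.indicator_of_mem hc, one_mul, hnx1 _ c hc]
      · intro c' _ hne
        rw [Set.indicator_of_notMem (fun h' => hne (hc2 c' h')), zero_mul]
      · intro h'
        exact absurd (mem_univ _) h'
  · intro x hx
    obtain ⟨c, hc, -⟩ := h2 x
    obtain ⟨h4, h5⟩ := h3 c
    obtain ⟨i, hi⟩ := Set.mem_iUnion.mp (h5 ⟨hx, hc⟩)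
    rw [hnx1 x c hc]
    obtain ⟨ls, hls⟩ : ∃ ls, ls = List.ofFn (w c) := ⟨_, rfl⟩
    have hmem : ∀ w' ∈ ls, w' < v ∧ h w' + τ ≤ h v := by
      intro w' hw'
      rw [hls, List.mem_ofFn] at hw'
      obtain ⟨j, rfl⟩ := hw'
      exact h4 j
    have hin : ∃ w' ∈ ls, x ∈ S w' := by
      refine ⟨w c i, ?_, hi⟩
      rw [hls, List.mem_ofFn]
      exact ⟨i, rfl⟩
    rw [← hls]
    cases ls with
    | nil =>
      obtain ⟨w', hw', -⟩ := hin
      simp at hw'
    | cons w0 ws =>
      rw [hfl1]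
      obtain ⟨h6, h7⟩ := fm_mem ws w0 hin
      exact ⟨h7, hmem _ h6⟩

/-- the final computation for the static system -/
lemma final3 {n l K k : ℕ} {W δ θ : ℝ} (hsize : δ * n + 1 ≤ ((l * K : ℕ) : ℝ)) (hW0 : 0 ≤ W)
    (hθ0 : 0 ≤ θ) (hθ : θ ≤ (1 / 2) ^ (l * K)) (hW : 1 / 2 ≤ W * ((n ^ k : ℕ) * θ)) :
    (2 : ℝ) ^ (δ * n) ≤ n ^ k * W := by
  have h7 : 1 / 2 ≤ W * ((n : ℝ) ^ k * (1 / 2) ^ (l * K)) := by
    refine hW.trans (mul_le_mul_of_nonneg_left ?_ hW0)
    refine mul_le_mul ?_ hθ hθ0 (by positivity)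
    push_cast
    exact le_refl _
  have h8 : (2 : ℝ) ^ (δ * n + 1) ≤ 2 ^ (l * K) := by
    rw [← Real.rpow_natCast]
    exact Real.rpow_le_rpow_of_exponent_le (by norm_num) hsize
  rw [Real.rpow_add (by norm_num), Real.rpow_one] at h8
  have h9 : (0 : ℝ) < 2 ^ (l * K) := by positivity
  have h10 : W * ((n : ℝ) ^ k * (1 / 2) ^ (l * K)) * 2 ^ (l * K) = n ^ k * W := by
    have h11 : ((1 / 2 : ℝ) ^ (l * K)) * 2 ^ (l * K) = 1 := by
      rw [← mul_pow]
      norm_num
    calc W * ((n : ℝ) ^ k * (1 / 2) ^ (l * K)) * 2 ^ (l * K) =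
        W * (n : ℝ) ^ k * ((1 / 2) ^ (l * K) * 2 ^ (l * K)) := by ring
      _ = _ := by rw [h11]; ring
  have h12 := mul_le_mul_of_nonneg_right h7 h9.le
  rw [h10] at h12
  linarith

/-- the main theorem -/
theorem mixed_main : ∃ (δ : ℝ) (w C N : ℕ), 0 < δ ∧ ∀ n ≥ N,
    ∃ F : Finset (Finset (Fin n × Bool)),
      (∀ y, ∃ D ∈ F, Fals D y) ∧ (∀ D ∈ F, D.card ≤ w * Nat.log 2 n) ∧ F.card ≤ n ^ C ∧
      (∀ k t s D : ℕ, (t : ℝ) ≤ δ * n → Rft F k t s D →
        (2 : ℝ) ^ (δ * n ^ 2 / (n + D)) ≤ s * n ^ k) ∧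
      ∀ (k a a' : ℕ) (l : Fin a → ℝ) (S : Fin a → Set (Fin n → Bool)) (m : Fin a' → ℝ)
        (T : Fin a' → Set (Fin n → Bool)),
        (∀ i, Bln k (S i) ∧ ∃ D ∈ F, ∀ x ∈ S i, Fals D x) →
        (∀ j, Bln k (T j) ∧ 0 ≤ m j) →
        (∀ x, ∑ i, l i * (S i).indicator (fun _ => (1 : ℝ)) x =
          1 + ∑ j, m j * (T j).indicator (fun _ => (1 : ℝ)) x) →
        (2 : ℝ) ^ (δ * n) ≤ n ^ k * (∑ i, |l i| + ∑ j, m j) ∧
        (2 : ℝ) ^ (δ * n) ≤ n ^ k * ((1 + a') * ∑ i, |l i|) := by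
  classical
  refine ⟨(1 / 67184640 : ℝ) ^ 2 / 18304, 640, 1281, 2 ^ 32, by norm_num, fun n hn => ?_⟩
  obtain ⟨N', hN'⟩ : ∃ N' : ℕ, N' = n / 21 := ⟨_, rfl⟩
  obtain ⟨l, hl⟩ : ∃ l : ℕ, l = Nat.log 2 n + 1 := ⟨_, rfl⟩
  obtain ⟨g, hg⟩ : ∃ g : ℕ, g = 2 * l := ⟨_, rfl⟩
  obtain ⟨K, hK⟩ : ∃ K : ℕ, K = N' / (26244 * (16 * g)) := ⟨_, rfl⟩
  have hn2 : 1000 ≤ n := le_trans (by norm_num) hn
  have hnr : (4294967296 : ℝ) ≤ n := by
    have : ((2 ^ 32 : ℕ) : ℝ) ≤ n := by exact_mod_cast hn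
    push_cast at this
    linarith
  have hnl : n < 2 ^ l := by
    rw [hl]
    exact Nat.lt_pow_succ_log_self (by norm_num) n
  have hlog : 1 ≤ Nat.log 2 n := Nat.log_pos (by norm_num) (by omega)
  have hm : N' + 1 ≤ 2 ^ l := by omega
  have hlpow : 2 ^ Nat.log 2 n ≤ n := Nat.pow_log_le_self 2 (by omega)
  obtain ⟨R, hR⟩ := exists_R (N := N') (m := N' + 1) (l := l) (g := g) (K := K) (by omega)
    (by omega) hm hg (by
      rw [hK]
      have := Nat.mul_div_le N' (26244 * (16 * g))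
      refine le_trans (le_of_eq ?_) this
      ring)
  obtain ⟨b, hb⟩ := exists_b (Nat.lt_succ_self N') R
  obtain ⟨e⟩ : Nonempty ((Fin N' × Bool × Fin 10) ↪ Fin n) :=
    Function.Embedding.nonempty_of_card_le (by
      rw [Fintype.card_prod, Fintype.card_prod, Fintype.card_bool, Fintype.card_fin,
        Fintype.card_fin, Fintype.card_fin]
      omega)
  have hz := hz_bound (m := N' + 1) (l := l) (g := g) (by omega) hm hg
  obtain ⟨hfam, hth⟩ := fam_th (K := K) (by omega : N' + 2 ≤ n) hl hg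
  obtain ⟨hsize, hlK⟩ := sizes3 hn hN' hl hg hK
  have hlK12 : 12 ≤ l * K := by
    have h6 : (12 : ℝ) ≤ ((l * K : ℕ) : ℝ) := by linarith
    exact_mod_cast h6
  have hmn : 2 * (10 * Fintype.card (Fin N') + 3) + 1 ≤ n := by
    rw [Fintype.card_fin]
    omega
  have hcn : 10 * Fintype.card (Fin N') + 3 ≤ n := by omega
  have hviol : ∀ (Q : Set (Fin n → Bool)), (∃ C ∈ frm e R b, ∀ x ∈ Q, Fals C x) →
      ∃ i0 : Fin (N' + 1), ∀ x y : Fin N' → Bk, ax e x y ∈ Q →
        eps (sy R) b {i0} x y = -1 := by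
    rintro Q ⟨C, hC, hfal⟩
    obtain ⟨i0, zx, zy, hz, rfl⟩ := mem_frm.mp hC
    exact ⟨i0, fun x y hxy => eps_of_fals e.injective hz (hfal _ hxy)⟩
  refine ⟨frm e R b, frm_unsat hb, fun D hD => ?_, ?_, ?_, ?_⟩
  · refine (frm_width hD).trans ?_
    rw [hg, hl]
    omega
  · refine frm_card.trans ?_
    rw [Fintype.card_fin]
    have h1 : 2 ^ (320 * g) ≤ n ^ 1280 := by
      have h2 : 320 * g ≤ Nat.log 2 n * 1280 := by omega
      calc 2 ^ (320 * g) ≤ 2 ^ (Nat.log 2 n * 1280) := Nat.pow_le_pow_right (by norm_num) h2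
        _ = (2 ^ Nat.log 2 n) ^ 1280 := pow_mul _ _ _
        _ ≤ n ^ 1280 := Nat.pow_le_pow_left hlpow _
    have h3 : N' + 1 ≤ n := by omega
    exact (Nat.mul_le_mul h1 h3).trans (le_of_eq (pow_succ n 1280).symm)
  · -- refutations
    intro k t s D ht hRft
    obtain ⟨S, h, v0, hv0, hD, hS⟩ := hRft
    have hKu : 1 ≤ n ^ k := Nat.one_le_pow _ _ (by omega)
    have H2 := fun v => (bln_bks e.injective hmn (hS v).1).1
    have H2' := fun v => (bln_bks e.injective hmn (hS v).1).2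
    obtain ⟨lf, hlf⟩ : ∃ lf : Fin s → Prop,
        lf = fun v => ∃ C ∈ frm e R b, ∀ x ∈ S v, Fals C x := ⟨_, rfl⟩
    have H3 : ∀ v, lf v → ∃ i0 : Fin (N' + 1), ∀ x y : Fin N' → Bk, ax e x y ∈ S v →
        eps (sy R) b {i0} x y = -1 := by
      intro v hv
      rw [hlf] at hv
      exact hviol _ hv
    have hrule : ∀ v, ∃ (τ : ℕ) (nx : (Fin n → Bool) → Fin s), ¬ lf v →
        τ ≤ t ∧ Brn e (2 ^ τ) nx ∧
          ∀ x ∈ S v, x ∈ S (nx x) ∧ nx x < v ∧ h (nx x) + τ ≤ h v := by
      intro v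
      by_cases hv : lf v
      · exact ⟨0, fun _ => v, fun hn => absurd hv hn⟩
      · have h1 := (hS v).2
        rw [hlf] at hv
        obtain ⟨τ, nx, h2⟩ := rule_next (V := Fin N') (e := e) e.injective (by omega) hcn H2 H2'
          (h1.resolve_left hv)
        exact ⟨τ, nx, fun _ => h2⟩
    choose τ nx hnx using hrule
    have H4 : ∀ v, ¬ lf v → ∀ x ∈ S v, x ∈ S (nx v x) ∧ (fun u : Fin s => (u : ℕ)) (nx v x) <
        (fun u : Fin s => (u : ℕ)) v ∧ h (nx v x) + τ v ≤ h v := by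
      intro v hv x hx
      obtain ⟨h1, h2, h3⟩ := (hnx v hv).2.2 x hx
      exact ⟨h1, h2, h3⟩
    -- at least two lines
    have hroot : ¬ lf v0 := by
      intro hlf0
      obtain ⟨i0, hi0⟩ := H3 v0 hlf0
      have h1 := psi_viol (b := b) hR (bks_one (V := Fin N')) i0 (by
        intro x y _
        refine hi0 x y ?_
        rw [hv0]
        exact Set.mem_univ _)
      have h2 := psi_one (b := b) (by omega : 0 < g) hR hz
      have h3 := (abs_le.mp h1).2
      have h4 : th (Fin (N' + 1)) g K ≤ 1 / 4 := by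
        refine hth.trans ?_
        refine (pow_le_pow_of_le_one (by norm_num) (by norm_num)
          (show 2 ≤ l * K by omega)).trans (by norm_num)
      obtain ⟨M, hM⟩ : ∃ M : ℝ, M = 1024 ^ Fintype.card (Fin N') * 1024 ^ Fintype.card (Fin N') :=
        ⟨_, rfl⟩
      have hM0 : 0 < M := by rw [hM]; positivity
      rw [mul_assoc, ← hM] at h3
      rw [← hM] at h2
      have h5 : th (Fin (N' + 1)) g K * M ≤ 1 / 4 * M := mul_le_mul_of_nonneg_right h4 hM0.le
      push_cast at h3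
      linarith
    have hs2 : 2 ≤ s := by
      have h1 := (H4 v0 hroot (fun _ => false) (by rw [hv0]; exact Set.mem_univ _)).2.1
      have h2 : nx v0 (fun _ => false) ≠ v0 := by
        intro h3
        rw [h3] at h1
        exact lt_irrefl _ h1
      have h3 : 1 < Fintype.card (Fin s) := Fintype.one_lt_card_iff.mpr ⟨_, _, h2⟩
      rw [Fintype.card_fin] at h3
      exact h3
    have hfin := final9 (n := n) (l := l) (r := K) (tm := t) (X := s * n ^ k) (D := D)
      (δ0 := 1 / 67184640) (by norm_num) (by omega) hsize hlK hlK12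
      (le_trans hs2 (Nat.le_mul_of_pos_right _ hKu)) (by
        refine ht.trans (mul_le_mul_of_nonneg_right (by norm_num) (Nat.cast_nonneg _))) (by
        intro L c m hL hc hDm
        refine iter (V := Fin N') (ι := Fin (N' + 1)) (r := K) (R := R) (b := b) (e := e)
          (nx := nx) (S := S) (h := h) (lf := lf) (Ku := n ^ k) (c := c) (tm := t)
          (ρ := fun u : Fin s => (u : ℕ)) (τ := τ)
          hg (by omega) hR hz hfam hth (fun v hv => (hnx v hv).1) (fun v hv => (hnx v hv).2.1)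
          H2 H3 H4 ?_ hv0 hc (lt_of_le_of_lt hD hDm)
        rw [Fintype.card_fin]
        exact hL)
    push_cast at hfin
    exact hfin
  · -- identities
    intro k a a' lam S m T hS hT hid
    -- the terms that vanish identically are removed
    obtain ⟨m', hm'⟩ : ∃ m' : Fin a' → ℝ, m' = fun j => if (T j).Nonempty then m j else 0 :=
      ⟨_, rfl⟩
    have hm'0 : ∀ j, 0 ≤ m' j := by
      intro j
      rw [hm']
      show 0 ≤ if (T j).Nonempty then m j else 0
      split_ifs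
      · exact (hT j).2
      · exact le_refl _
    have hm'1 : ∀ j, m' j ≤ m j := by
      intro j
      rw [hm']
      show (if (T j).Nonempty then m j else 0) ≤ m j
      split_ifs
      · exact le_refl _
      · exact (hT j).2
    have hid' : ∀ x, ∑ i, lam i * (S i).indicator (fun _ => (1 : ℝ)) x =
        1 + ∑ j, m' j * (T j).indicator (fun _ => (1 : ℝ)) x := by
      intro x
      rw [hid x]
      congr 1
      refine Finset.sum_congr rfl fun j _ => ?_
      by_cases hx : x ∈ T j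
      · rw [hm']
        show _ = (if (T j).Nonempty then m j else 0) * _
        rw [if_pos ⟨x, hx⟩]
      · rw [Set.indicator_of_notMem hx, mul_zero, mul_zero]
    have hle : ∀ x, ∑ i, lam i * (S i).indicator (fun _ => (1 : ℝ)) x ≤ ∑ i, |lam i| := by
      intro x
      refine Finset.sum_le_sum fun i _ => ?_
      by_cases hx : x ∈ S i
      · rw [Set.indicator_of_mem hx, mul_one]
        exact le_abs_self _
      · rw [Set.indicator_of_notMem hx, mul_zero]
        exact abs_nonneg _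
    have hl0 : 0 ≤ ∑ i, |lam i| := Finset.sum_nonneg fun i _ => abs_nonneg _
    have hm'2 : ∀ j, m' j ≤ ∑ i, |lam i| := by
      intro j
      by_cases hne : (T j).Nonempty
      · obtain ⟨x, hx⟩ := hne
        have h1 : m' j * (T j).indicator (fun _ => (1 : ℝ)) x ≤
            ∑ j, m' j * (T j).indicator (fun _ => (1 : ℝ)) x :=
          Finset.single_le_sum (f := fun j => m' j * (T j).indicator (fun _ => (1 : ℝ)) x)
            (fun j _ => mul_nonneg (hm'0 j) (Set.indicator_nonneg (fun _ _ => zero_le_one) _))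
            (mem_univ j)
        rw [Set.indicator_of_mem hx, mul_one] at h1
        have h2 := hid' x
        have h3 := hle x
        linarith
      · rw [hm']
        show (if (T j).Nonempty then m j else 0) ≤ _
        rw [if_neg hne]
        exact hl0
    have hsum : ∑ j, m' j ≤ a' * ∑ i, |lam i| := by
      refine (Finset.sum_le_sum fun j _ => hm'2 j).trans (le_of_eq ?_)
      rw [Finset.sum_const, Finset.card_univ, Fintype.card_fin, nsmul_eq_mul]
    have hW0 : 0 ≤ ∑ i, |lam i| + ∑ j, m' j :=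
      add_nonneg hl0 (Finset.sum_nonneg fun j _ => hm'0 j)
    have key : (2 : ℝ) ^ ((1 / 67184640 : ℝ) ^ 2 / 18304 * n) ≤
        n ^ k * (∑ i, |lam i| + ∑ j, m' j) := by
      refine final3 (l := l) (K := K) (θ := th (Fin (N' + 1)) g K) ?_ hW0 th_nonneg hth ?_
      · refine le_trans ?_ hsize
        have h1 : (1 / 67184640 : ℝ) ^ 2 / 18304 * n ≤ 1 / 67184640 / 2 * n :=
          mul_le_mul_of_nonneg_right (by norm_num) (by linarith)
        linarith
      · exact core (V := Fin N') (ι := Fin (N' + 1)) (g := g) (r := K) (R := R) (b := b)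
          (by omega) hR hz (K0 := n ^ k)
          lam m' hm'0
          (fun i x y => (S i).indicator (fun _ => (1 : ℝ)) (ax e x y))
          (fun j x y => (T j).indicator (fun _ => (1 : ℝ)) (ax e x y))
          (fun i => (bln_bks e.injective hmn (hS i).1).1)
          (fun j => (bln_bks e.injective hmn (hT j).1).1) (by
            intro i
            obtain ⟨i0, hi0⟩ := hviol (S i) (hS i).2
            refine ⟨i0, fun x y hxy => hi0 x y ?_⟩
            by_contra hcon
            exact hxy (Set.indicator_of_notMem hcon _)) (fun x y => hid' (ax e x y))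
    have hnk : (0 : ℝ) ≤ (n : ℝ) ^ k := by positivity
    refine ⟨key.trans (mul_le_mul_of_nonneg_left ?_ hnk),
      key.trans (mul_le_mul_of_nonneg_left ?_ hnk)⟩
    · have := Finset.sum_le_sum fun j (_ : j ∈ (univ : Finset (Fin a'))) => hm'1 j
      linarith
    · linarith

end Pool.Agent.J4H24.CA
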