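import Pool.Agent.J4H24.CA.Cnf
import Pool.Agent.J4H24.SA.Main

/-!
# The existence of the system
-/

namespace Pool.Agent.J4H24.CA

open Finset Pool.Agent.J4H24.PR Pool.Agent.J4H24.SA Pool.Agent.J4H24.NS

set_option linter.unusedSectionVars false

section

variable {V ι : Type*} [Fintype V] [DecidableEq V] [Fintype ι] [DecidableEq ι]

/-- failure of the expansion -/
lemma fr_exp [Nonempty V] {c d : ℕ} (hd : d ≤ c) (K : ℕ)
    (hK : c * (2 * K) ≤ Fintype.card V)
    (h : Fintype.card ι * (3 ^ c * ((c * (2 * K) : ℝ) / Fintype.card V) ^ d) ≤ 1) :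
    fr (fun ω : ι → Row V c => ¬ ∀ J : Finset ι, J.card ≤ 2 * K →
      (c - d) * J.card ≤ (nb (fun i => (ω i).1) J).card) ≤
      2 * (Fintype.card ι * (3 ^ c * ((c * (2 * K) : ℝ) / Fintype.card V) ^ d)) := by
  classical
  have hV : (0 : ℝ) < Fintype.card V := by exact_mod_cast Fintype.card_pos
  have hy0 : 0 ≤ (3 : ℝ) ^ c * ((c * (2 * K) : ℝ) / Fintype.card V) ^ d := by positivity
  refine le_trans ?_ (sum_pow_card hy0 h)
  refine le_trans ?_ ((fr_exists_finset (univ.filter fun J : Finset ι => J.Nonempty)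
    (fun (J : Finset ι) (ω : ι → Row V c) => J.card ≤ 2 * K ∧
      (nb (fun i => (ω i).1) J).card ≤ (c - d) * J.card)).trans ?_)
  · refine fr_mono fun ω hω => ?_
    push Not at hω
    obtain ⟨J, hJ, hs⟩ := hω
    refine ⟨J, ?_, hJ, ?_⟩
    · simp only [Finset.mem_filter, Finset.mem_univ, true_and]
      refine Finset.card_pos.mp ?_
      rcases Nat.eq_zero_or_pos J.card with h0 | h0
      · rw [h0] at hs
        simp at hs
      · exact h0
    · exact hs.le
  · refine Finset.sum_le_sum fun J hJ => ?_
    have hJ1 : 0 < J.card := by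
      simp only [Finset.mem_filter, Finset.mem_univ, true_and] at hJ
      exact hJ.card_pos
    by_cases hc : J.card ≤ 2 * K
    · have hD : (c - d) * J.card ≤ Fintype.card V := by
        refine le_trans ?_ hK
        exact Nat.mul_le_mul (Nat.sub_le _ _) hc
      refine (fr_mono fun ω hω => hω.2).trans ?_
      -- the union bound with the factorial
      have h1 : fr (fun ω : ι → Row V c => (nb (fun i => (ω i).1) J).card ≤ (c - d) * J.card) ≤
          (Fintype.card V).choose ((c - d) * J.card) *
            (((((c - d) * J.card : ℕ) : ℝ) / Fintype.card V) ^ c) ^ J.card := by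
        refine le_trans (fr_mono (q := fun ω : ι → Row V c =>
          ∃ X ∈ (univ : Finset V).powersetCard ((c - d) * J.card),
            ∀ i ∈ J, ∀ k, (ω i).1 k ∈ X) fun ω hω => ?_) ?_
        · obtain ⟨X, hX, -, hXd⟩ := Finset.exists_subsuperset_card_eq
            (Finset.subset_univ (nb (fun i => (ω i).1) J)) hω (by simpa using hD)
          refine ⟨X, ?_, fun i hi k => hX ?_⟩
          · rw [Finset.mem_powersetCard]
            exact ⟨Finset.subset_univ _, hXd⟩
          · simp only [nb, Finset.mem_biUnion, Finset.mem_image, Finset.mem_univ, true_and]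
            exact ⟨i, hi, k, rfl⟩
        · refine (fr_exists_finset _ _).trans ?_
          refine (Finset.sum_le_sum (g := fun _ =>
            (((((c - d) * J.card : ℕ) : ℝ) / Fintype.card V) ^ c) ^ J.card) ?_).trans ?_
          · intro X hX
            rw [fr_inside, (Finset.mem_powersetCard.mp hX).2]
          · rw [Finset.sum_const, nsmul_eq_mul, Finset.card_powersetCard, Finset.card_univ]
      refine h1.trans ?_
      by_cases hD0 : (c - d) * J.card = 0
      · rw [hD0]
        have hcd : c - d = 0 := by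
          rcases Nat.mul_eq_zero.mp hD0 with h | h
          · exact h
          · omega
        have hcd' : c = d := by omega
        simp only [Nat.choose_zero_right, Nat.cast_one, Nat.cast_zero, zero_div, one_mul]
        refine pow_le_pow_left₀ (by positivity) ?_ _
        rcases Nat.eq_zero_or_pos c with h0 | h0
        · rw [← hcd', h0]
          simp
        · rw [zero_pow (by omega)]
          exact hy0
      · have hDpos : (0 : ℝ) < (((c - d) * J.card : ℕ) : ℝ) := by
          exact_mod_cast Nat.pos_of_ne_zero hD0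
        have h3 : ((Fintype.card V).choose ((c - d) * J.card) : ℝ) ≤
            (Fintype.card V / (((c - d) * J.card : ℕ) : ℝ)) ^ ((c - d) * J.card) *
              3 ^ ((c - d) * J.card) := by
          have h4 := Nat.choose_le_pow_div (α := ℝ) ((c - d) * J.card) (Fintype.card V)
          have h5 := Real.pow_div_factorial_le_exp ((((c - d) * J.card : ℕ) : ℝ)) hDpos.le
            ((c - d) * J.card)
          have h6 : Real.exp ((((c - d) * J.card : ℕ) : ℝ)) ≤ 3 ^ ((c - d) * J.card) := by
            have := Real.exp_one_lt_three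
            calc Real.exp ((((c - d) * J.card : ℕ) : ℝ)) = (Real.exp 1) ^ ((c - d) * J.card) := by
                  rw [← Real.exp_nat_mul, mul_one]
              _ ≤ _ := pow_le_pow_left₀ (Real.exp_pos _).le this.le _
          refine h4.trans ?_
          have h7 : (Fintype.card V : ℝ) ^ ((c - d) * J.card) /
              (((c - d) * J.card).factorial : ℝ) =
              (Fintype.card V / (((c - d) * J.card : ℕ) : ℝ)) ^ ((c - d) * J.card) *
              ((((c - d) * J.card : ℕ) : ℝ) ^ ((c - d) * J.card) /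
                (((c - d) * J.card).factorial : ℝ)) := by
            rw [div_pow]
            field_simp
          rw [h7]
          exact mul_le_mul_of_nonneg_left (h5.trans h6) (by positivity)
        refine (mul_le_mul_of_nonneg_right h3 (by positivity)).trans ?_
        rw [pow_mul, pow_mul, ← mul_pow, ← mul_pow]
        refine pow_le_pow_left₀ (by positivity) ?_ _
        generalize hDD : (((c - d) * J.card : ℕ) : ℝ) = DD at hDpos
        have h8 : (Fintype.card V / DD) ^ (c - d) * 3 ^ (c - d) * (DD / Fintype.card V) ^ c =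
            3 ^ (c - d) * (DD / Fintype.card V) ^ d := by
          have h9 : (DD / (Fintype.card V : ℝ)) ^ c =
              (DD / Fintype.card V) ^ (c - d) * (DD / Fintype.card V) ^ d := by
            rw [← pow_add]
            congr 1
            omega
          rw [h9]
          have h10 : (Fintype.card V / DD) ^ (c - d) * (DD / (Fintype.card V : ℝ)) ^ (c - d) =
              1 := by
            rw [← mul_pow]
            have : (Fintype.card V : ℝ) / DD * (DD / Fintype.card V) = 1 := by
              field_simp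
            rw [this, one_pow]
          calc (Fintype.card V / DD) ^ (c - d) * 3 ^ (c - d) *
                ((DD / (Fintype.card V : ℝ)) ^ (c - d) * (DD / Fintype.card V) ^ d) =
                ((Fintype.card V / DD) ^ (c - d) * (DD / (Fintype.card V : ℝ)) ^ (c - d)) *
                (3 ^ (c - d) * (DD / Fintype.card V) ^ d) := by ring
            _ = _ := by rw [h10, one_mul]
        rw [h8]
        refine mul_le_mul (pow_le_pow_right₀ (by norm_num) (Nat.sub_le _ _)) ?_ (by positivity)
          (by positivity)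
        refine pow_le_pow_left₀ (by positivity) ?_ _
        refine div_le_div_of_nonneg_right ?_ hV.le
        rw [← hDD]
        have h11 : (c - d) * J.card ≤ c * (2 * K) := Nat.mul_le_mul (Nat.sub_le _ _) hc
        exact_mod_cast h11
    · have : fr (fun ω : ι → Row V c => J.card ≤ 2 * K ∧
          (nb (fun i => (ω i).1) J).card ≤ (c - d) * J.card) = 0 := by
        unfold fr
        simp [hc]
      rw [this]
      exact pow_nonneg hy0 _

end

/-- a random system expands -/
lemma exists_R {N m l g K : ℕ} (hN : 1 ≤ N) (hl : 1 ≤ l) (hm : m ≤ 2 ^ l) (hg : g = 2 * l)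
    (hK : 26244 * (8 * g * (2 * K)) ≤ N) :
    ∃ R : Fin m → Fin (8 * g) → Fin N, ∀ U : Finset (Fin m), U.card ≤ 2 * K →
      7 * g * U.card ≤ (nb R U).card := by
  classical
  have : Nonempty (Fin N) := ⟨⟨0, hN⟩⟩
  have hN0 : (0 : ℝ) < N := by exact_mod_cast hN
  obtain ⟨y, hy⟩ : ∃ y : ℝ, y = 3 ^ (8 * g) * ((((8 * g : ℕ) : ℝ) * (2 * K)) / N) ^ g := ⟨_, rfl⟩
  have hy1 : y ≤ (1 / 4) ^ g := by
    rw [hy, pow_mul, ← mul_pow]
    refine pow_le_pow_left₀ (by positivity) ?_ _
    have h1 : ((26244 * (8 * g * (2 * K)) : ℕ) : ℝ) ≤ N := by exact_mod_cast hK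
    push_cast at h1 ⊢
    rw [mul_div_assoc', div_le_iff₀ hN0]
    norm_num
    linarith
  have hmy : (m : ℝ) * y ≤ 1 / 8 := by
    have h1 : (m : ℝ) ≤ 2 ^ l := by exact_mod_cast hm
    have h2 : (m : ℝ) * y ≤ 2 ^ l * (1 / 4) ^ g :=
      mul_le_mul h1 hy1 (by rw [hy]; positivity) (by positivity)
    refine h2.trans ?_
    rw [hg, pow_mul, ← mul_pow]
    have h3 : (2 * (1 / 4) ^ 2 : ℝ) = 1 / 8 := by norm_num
    rw [h3]
    calc (1 / 8 : ℝ) ^ l ≤ (1 / 8) ^ 1 := pow_le_pow_of_le_one (by norm_num) (by norm_num) hl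
      _ = 1 / 8 := pow_one _
  have h3 := fr_exp (V := Fin N) (ι := Fin m) (c := 8 * g) (d := g) (by omega) K (by
    rw [Fintype.card_fin]
    have : 8 * g * (2 * K) ≤ 26244 * (8 * g * (2 * K)) := Nat.le_mul_of_pos_left _ (by norm_num)
    omega) (by
    rw [Fintype.card_fin, Fintype.card_fin, ← hy]
    linarith)
  rw [Fintype.card_fin, Fintype.card_fin, ← hy] at h3
  by_contra hcon
  push Not at hcon
  have h4 : fr (fun ω : Fin m → Row (Fin N) (8 * g) => ¬ ∀ J : Finset (Fin m), J.card ≤ 2 * K →
      (8 * g - g) * J.card ≤ (nb (fun i => (ω i).1) J).card) = 1 := by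
    rw [← fr_true (Ω := Fin m → Row (Fin N) (8 * g))]
    refine fr_congr fun ω => ?_
    simp only [iff_true]
    intro h
    obtain ⟨U, hU1, hU2⟩ := hcon fun i => (ω i).1
    have h5 := h U hU1
    rw [show 8 * g - g = 7 * g by omega] at h5
    exact absurd hU2 (not_lt.mpr h5)
  rw [h4] at h3
  linarith

/-- a right side outside the image -/
lemma exists_b {N m g : ℕ} (h : N < m) (R : Fin m → Fin (8 * g) → Fin N) :
    ∃ b : Fin m → ZMod 2, ∀ z : Fin N → ZMod 2, ∃ i, ∑ v, sy R i v * z v ≠ b i := by
  by_contra hcon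
  push Not at hcon
  have h1 : Function.Surjective fun (z : Fin N → ZMod 2) (i : Fin m) => ∑ v, sy R i v * z v := by
    intro b
    obtain ⟨z, hz⟩ := hcon b
    exact ⟨z, funext hz⟩
  have h2 := Fintype.card_le_of_surjective _ h1
  rw [Fintype.card_fun, Fintype.card_fun, ZMod.card, Fintype.card_fin, Fintype.card_fin] at h2
  exact absurd ((Nat.pow_le_pow_iff_right (by norm_num)).mp h2) (by omega)

/-- the bound for the closure -/
lemma hz_bound {m l g : ℕ} (hl : 1 ≤ l) (hm : m ≤ 2 ^ l) (hg : g = 2 * l) :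
    (1 + (1 / 2 : ℝ) ^ (2 * g)) ^ Fintype.card (Fin m) ≤ 2 := by
  rw [Fintype.card_fin]
  have h0 : (0 : ℝ) ≤ (1 / 2 : ℝ) ^ (2 * g) := by positivity
  have h1 : (1 + (1 / 2 : ℝ) ^ (2 * g)) ^ m ≤ Real.exp (m * (1 / 2) ^ (2 * g)) := by
    have h2 := Real.add_one_le_exp ((1 / 2 : ℝ) ^ (2 * g))
    calc (1 + (1 / 2 : ℝ) ^ (2 * g)) ^ m ≤ (Real.exp ((1 / 2) ^ (2 * g))) ^ m :=
          pow_le_pow_left₀ (by linarith) (by linarith) m
      _ = _ := by rw [← Real.exp_nat_mul]
  refine h1.trans ?_
  have h2 : (m : ℝ) * (1 / 2) ^ (2 * g) ≤ 1 / 8 := by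
    have h3 : (m : ℝ) ≤ 2 ^ l := by exact_mod_cast hm
    refine (mul_le_mul_of_nonneg_right h3 h0).trans ?_
    rw [hg, show 2 * (2 * l) = 4 * l by ring, pow_mul, ← mul_pow]
    have h4 : (2 * (1 / 2) ^ 4 : ℝ) = 1 / 8 := by norm_num
    rw [h4]
    calc (1 / 8 : ℝ) ^ l ≤ (1 / 8) ^ 1 := pow_le_pow_of_le_one (by norm_num) (by norm_num) hl
      _ = 1 / 8 := pow_one _
  have h5 : Real.exp (m * (1 / 2) ^ (2 * g)) ≤ Real.exp (1 / 2) :=
    Real.exp_le_exp.mpr (h2.trans (by norm_num))
  refine h5.trans ?_
  have h6 : Real.exp (1 / 2) ^ 2 = Real.exp 1 := by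
    rw [← Real.exp_nat_mul]
    norm_num
  have h7 := Real.exp_one_lt_three
  nlinarith [Real.exp_pos (1 / 2)]

end Pool.Agent.J4H24.CA
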