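import Pool.Agent.J4H24.SA.Func

/-!
# Inner products of blocks and Lindsey's lemma
-/

namespace Pool.Agent.J4H24.CA

open Finset Pool.Agent.J4H24.PR Pool.Agent.J4H24.SA

set_option linter.unusedSectionVars false

/-- one half of a block -/
abbrev Bk := Fin 10 → ZMod 2

/-- the inner product -/
def ipz (u w : Bk) : ZMod 2 := ∑ k, u k * w k

lemma card_Bk : Fintype.card Bk = 1024 := by
  rw [Fintype.card_fun, ZMod.card, Fintype.card_fin]
  norm_num

lemma sum_sg_mul (t : ZMod 2) : ∑ a : ZMod 2, sg (a * t) = if t = 0 then 2 else 0 := by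
  have h : (univ : Finset (ZMod 2)) = {0, 1} := by decide
  rw [h, Finset.sum_insert (by decide), Finset.sum_singleton]
  revert t
  intro t
  rcases zmod2_cases t with rfl | rfl
  · simp [sg]
    norm_num
  · simp [sg]

lemma sum_sg_ipz (w w' : Bk) : ∑ u : Bk, sg (ipz u w) * sg (ipz u w') =
    if w = w' then 1024 else 0 := by
  have h1 : ∀ u : Bk, sg (ipz u w) * sg (ipz u w') = ∏ k, sg (u k * (w k + w' k)) := by
    intro u
    rw [← sg_add, ← sg_sum]
    congr 1
    unfold ipz
    rw [← Finset.sum_add_distrib]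
    exact Finset.sum_congr rfl fun k _ => by ring
  simp_rw [h1]
  have h2 : ∑ u : Bk, ∏ k, sg (u k * (w k + w' k)) = ∏ k, ∑ a : ZMod 2, sg (a * (w k + w' k)) := by
    rw [Finset.prod_univ_sum]
    simp only [Fintype.piFinset_univ]
  rw [h2]
  simp_rw [sum_sg_mul]
  by_cases h : w = w'
  · rw [if_pos h, h]
    have : ∀ a : ZMod 2, a + a = 0 := by decide
    simp only [this, if_true, Finset.prod_const, Finset.card_univ, Fintype.card_fin]
    norm_num
  · rw [if_neg h]
    obtain ⟨k, hk⟩ := Function.ne_iff.mp h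
    refine Finset.prod_eq_zero (mem_univ k) (if_neg ?_)
    intro h0
    apply hk
    have : ∀ a b : ZMod 2, a + b = 0 → a = b := by decide
    exact this _ _ h0

variable {V : Type*} [Fintype V] [DecidableEq V]

/-- the restriction of a family of blocks to a set -/
def rs (S : Finset V) (x : V → Bk) (v : V) : Bk := if v ∈ S then x v else 0

lemma rs_eq {S : Finset V} {x x' : V → Bk} : rs S x = rs S x' ↔ ∀ v ∈ S, x v = x' v := by
  constructor
  · intro h v hv
    have := congrFun h v
    unfold rs at this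
    rwa [if_pos hv, if_pos hv] at this
  · intro h
    funext v
    unfold rs
    split_ifs with hv
    · exact h v hv
    · rfl

/-- the restrictions -/
def rset (S : Finset V) : Finset (V → Bk) :=
  Fintype.piFinset fun v => if v ∈ S then univ else {0}

lemma rs_mem (S : Finset V) (x : V → Bk) : rs S x ∈ rset S := by
  unfold rset
  rw [Fintype.mem_piFinset]
  intro v
  unfold rs
  split_ifs with hv
  · exact mem_univ _
  · exact Finset.mem_singleton_self _

lemma rset_card (S : Finset V) : (rset S).card = 1024 ^ S.card := by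
  unfold rset
  rw [Fintype.card_piFinset]
  have h : ∀ v, (if v ∈ S then (univ : Finset Bk) else {0}).card = if v ∈ S then 1024 else 1 := by
    intro v
    split_ifs
    · rw [Finset.card_univ, card_Bk]
    · rfl
  simp_rw [h]
  rw [Finset.prod_ite_mem, Finset.univ_inter, Finset.prod_const]

lemma rs_rset {S : Finset V} {x : V → Bk} (hx : x ∈ rset S) : rs S x = x := by
  unfold rset at hx
  rw [Fintype.mem_piFinset] at hx
  funext v
  have := hx v
  unfold rs
  split_ifs with hv
  · rfl
  · rw [if_neg hv, Finset.mem_singleton] at this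
    exact this.symm

/-- the product of the signs of the blocks in a set -/
def chi (S : Finset V) (x y : V → Bk) : ℝ := ∏ v ∈ S, sg (ipz (x v) (y v))

lemma chi_congr {S : Finset V} {x x' : V → Bk} (h : rs S x = rs S x') (y : V → Bk) :
    chi S x y = chi S x' y := by
  rw [rs_eq] at h
  unfold chi
  exact Finset.prod_congr rfl fun v hv => by rw [h v hv]

lemma sum_rset (S : Finset V) (y y' : V → Bk) :
    ∑ α ∈ rset S, chi S α y * chi S α y' = if rs S y = rs S y' then 1024 ^ S.card else 0 := by
  have h1 : ∀ α ∈ rset S, chi S α y * chi S α y' =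
      ∏ v, if v ∈ S then sg (ipz (α v) (y v)) * sg (ipz (α v) (y' v)) else 1 := by
    intro α _
    unfold chi
    rw [Finset.prod_ite_mem, Finset.univ_inter, Finset.prod_mul_distrib]
  rw [Finset.sum_congr rfl h1]
  have h2 := Finset.prod_univ_sum (t := fun v : V => if v ∈ S then (univ : Finset Bk) else {0})
    (f := fun v u => if v ∈ S then sg (ipz u (y v)) * sg (ipz u (y' v)) else (1 : ℝ))
  unfold rset
  rw [← h2]
  have h3 : ∀ v : V, ∑ u ∈ (if v ∈ S then (univ : Finset Bk) else {0}),
      (if v ∈ S then sg (ipz u (y v)) * sg (ipz u (y' v)) else (1 : ℝ)) =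
      if v ∈ S then (if y v = y' v then 1024 else 0) else 1 := by
    intro v
    by_cases hv : v ∈ S
    · simp only [hv, if_true]
      exact sum_sg_ipz _ _
    · simp only [hv, if_false, Finset.sum_singleton]
  simp_rw [h3]
  rw [Finset.prod_ite_mem, Finset.univ_inter]
  by_cases h : rs S y = rs S y'
  · rw [if_pos h]
    rw [rs_eq] at h
    rw [Finset.prod_congr rfl fun v hv => if_pos (h v hv), Finset.prod_const]
  · rw [if_neg h]
    rw [rs_eq] at h
    push Not at h
    obtain ⟨v, hv, hne⟩ := h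
    exact Finset.prod_eq_zero hv (if_neg hne)

/-- Lindsey's lemma -/
lemma lind (S : Finset V) (X Y : Finset (V → Bk)) {a b : ℝ}
    (ha : ∀ x0 ∈ X, ((X.filter fun x => rs S x = rs S x0).card : ℝ) ≤ a)
    (hb : ∀ y0 ∈ Y, ((Y.filter fun y => rs S y = rs S y0).card : ℝ) ≤ b) (ha0 : 0 ≤ a) :
    (∑ x ∈ X, ∑ y ∈ Y, chi S x y) ^ 2 ≤ 1024 ^ S.card * (a * X.card) * (b * Y.card) := by
  obtain ⟨f, hf⟩ : ∃ f : (V → Bk) → ℝ, f = fun x => ∑ y ∈ Y, chi S x y := ⟨_, rfl⟩
  obtain ⟨m, hm⟩ : ∃ m : (V → Bk) → ℝ,
    m = fun α => ((X.filter fun x => rs S x = α).card : ℝ) := ⟨_, rfl⟩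
  have h1 : ∑ x ∈ X, ∑ y ∈ Y, chi S x y = ∑ α ∈ rset S, m α * f α := by
    rw [← Finset.sum_fiberwise_of_maps_to (g := rs S) (t := rset S) fun x _ => rs_mem S x]
    refine Finset.sum_congr rfl fun α hα => ?_
    rw [hm]
    simp only
    rw [← nsmul_eq_mul, ← Finset.sum_const]
    refine Finset.sum_congr rfl fun x hx => ?_
    rw [hf]
    simp only
    refine Finset.sum_congr rfl fun y _ => chi_congr ?_ y
    rw [(Finset.mem_filter.mp hx).2, rs_rset hα]
  rw [h1]
  refine (Finset.sum_mul_sq_le_sq_mul_sq _ _ _).trans ?_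
  have h2 : ∑ α ∈ rset S, m α ^ 2 ≤ a * X.card := by
    have h3 : ∀ α ∈ rset S, m α ^ 2 ≤ a * m α := by
      intro α _
      have h4 : 0 ≤ m α := by rw [hm]; exact Nat.cast_nonneg _
      have h5 : m α ≤ a := by
        rcases (X.filter fun x => rs S x = α).eq_empty_or_nonempty with h0 | ⟨x0, hx0⟩
        · rw [hm]
          simp only
          rw [h0]
          simpa using ha0
        · rw [Finset.mem_filter] at hx0
          have := ha x0 hx0.1
          rw [hx0.2] at this
          rw [hm]
          exact this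
      rw [sq]
      exact mul_le_mul_of_nonneg_right h5 h4
    refine (Finset.sum_le_sum h3).trans (le_of_eq ?_)
    rw [← Finset.mul_sum]
    congr 1
    rw [hm]
    simp only
    rw [← Nat.cast_sum]
    congr 1
    rw [Finset.card_eq_sum_card_fiberwise fun x _ => rs_mem S x]
  have h3 : ∑ α ∈ rset S, f α ^ 2 ≤ 1024 ^ S.card * (b * Y.card) := by
    have h4 : ∑ α ∈ rset S, f α ^ 2 =
        ∑ y ∈ Y, ∑ y' ∈ Y, if rs S y = rs S y' then (1024 : ℝ) ^ S.card else 0 := by
      rw [hf]
      simp only
      have : ∀ α ∈ rset S, (∑ y ∈ Y, chi S α y) ^ 2 =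
          ∑ y ∈ Y, ∑ y' ∈ Y, chi S α y * chi S α y' := by
        intro α _
        rw [sq, Finset.sum_mul_sum]
      rw [Finset.sum_congr rfl this, Finset.sum_comm]
      refine Finset.sum_congr rfl fun y _ => ?_
      rw [Finset.sum_comm]
      exact Finset.sum_congr rfl fun y' _ => sum_rset S y y'
    rw [h4]
    have h5 : ∀ y ∈ Y, ∑ y' ∈ Y, (if rs S y = rs S y' then (1024 : ℝ) ^ S.card else 0) ≤
        1024 ^ S.card * b := by
      intro y hy
      rw [← Finset.sum_filter, Finset.sum_const, nsmul_eq_mul, mul_comm]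
      refine mul_le_mul_of_nonneg_left ?_ (by positivity)
      refine le_trans (le_of_eq ?_) (hb y hy)
      congr 2
      ext y'
      rw [Finset.mem_filter, Finset.mem_filter]
      constructor
      · rintro ⟨h6, h7⟩
        exact ⟨h6, h7.symm⟩
      · rintro ⟨h6, h7⟩
        exact ⟨h6, h7.symm⟩
    refine (Finset.sum_le_sum h5).trans (le_of_eq ?_)
    rw [Finset.sum_const, nsmul_eq_mul]
    ring
  calc (∑ α ∈ rset S, m α ^ 2) * ∑ α ∈ rset S, f α ^ 2 ≤
        (a * X.card) * (1024 ^ S.card * (b * Y.card)) :=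
        mul_le_mul h2 h3 (Finset.sum_nonneg fun α _ => sq_nonneg _) (by positivity)
    _ = _ := by ring

end Pool.Agent.J4H24.CA
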