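import Pool.Agent.J4H24.CA.Wlk

/-!
# The iteration of the phases
-/

namespace Pool.Agent.J4H24.CA

open Finset Pool.Agent.J4H24.PR Pool.Agent.J4H24.SA Pool.Agent.J4H24.NS

set_option linter.unusedSectionVars false

variable {V ι : Type} [Fintype V] [DecidableEq V] [Fintype ι] [DecidableEq ι]
  {g r : ℕ} {R : ι → Fin (8 * g) → V} {b : ι → ZMod 2} {σ : Type} [Fintype σ] [DecidableEq σ]
  {n : ℕ} {e : V × Bool × Fin 10 → Fin n}

/-- the number of phases is small -/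
lemma iter {l L c tm Ku m : ℕ} (hg : g = 2 * l) (hl : 1 ≤ l)
    (hE : ∀ U : Finset ι, U.card ≤ 2 * r → 7 * g * U.card ≤ (nb R U).card)
    (hz : (1 + (1 / 2 : ℝ) ^ (2 * g)) ^ Fintype.card ι ≤ 2)
    (hfam : (Fam ι r).card ≤ 2 ^ (l * r)) (hth : th ι g r ≤ (1 / 2) ^ (l * r))
    {nx : σ → (Fin n → Bool) → σ} {S : σ → Set (Fin n → Bool)} {h ρ τ : σ → ℕ} {lf : σ → Prop}
    (htm : ∀ v, ¬ lf v → τ v ≤ tm)
    (H1 : ∀ v, ¬ lf v → Brn e (2 ^ τ v) (nx v)) (H2 : ∀ v, Bks Ku (fun x y : V → Bk =>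
      (S v).indicator (fun _ => (1 : ℝ)) (ax e x y)))
    (H3 : ∀ v, lf v → ∃ i0 : ι, ∀ x y : V → Bk, ax e x y ∈ S v → eps (sy R) b {i0} x y = -1)
    (H4 : ∀ v, ¬ lf v → ∀ x ∈ S v, x ∈ S (nx v x) ∧ ρ (nx v x) < ρ v ∧ h (nx v x) + τ v ≤ h v)
    (hL : Fintype.card σ * Ku ≤ 2 ^ L)
    {v0 : σ} (hv0 : S v0 = Set.univ) (hc : tm ≤ c) (hm : h v0 < m * (c - tm)) :
    l * r ≤ 1 + L + c + 142 * (2 + m * (L + 2)) := by
  by_contra hcon
  push Not at hcon
  have key : ∀ i ≤ m, ∃ v I U X Y, Good R b r e S (1 + i * (L + 2)) v I U X Y ∧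
      h v + i * (c - tm) ≤ h v0 := by
    intro i
    induction i with
    | zero =>
      intro _
      refine ⟨v0, ∅, ∅, univ, univ, ⟨⟨0, mem_univ _⟩, ⟨0, mem_univ _⟩, ⟨?_, ?_, ?_, ?_⟩, ?_, ?_⟩, ?_⟩
      · intro x _ x' _ v hv
        simp at hv
      · intro x _ x' _ v hv
        simp at hv
      · simp [nb]
      · simp
      · intro x _ y _
        rw [hv0]
        exact Set.mem_univ _
      · have h1 := psi_one (b := b) (by omega : 0 < g) hE hz
        have h2 : psi R b r (fun _ _ => 1) = mu R b r univ univ := by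
          rw [← psi_rect]
          congr 1
          funext x y
          simp
        rw [h2] at h1
        have h3 : rt (univ : Finset (V → Bk)) univ = 1024 ^ Fintype.card V := by
          unfold rt
          rw [Real.mul_self_sqrt (Nat.cast_nonneg _), Finset.card_univ, card_W]
        rw [h3]
        simp only [wt, Finset.card_empty, mul_zero, add_zero, pow_zero, one_mul, zero_mul, pow_one]
        linarith
      · simp
    | succ i ih =>
      intro hi
      obtain ⟨v, I, U, X, Y, hgood, hdep⟩ := ih (by omega)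
      obtain ⟨v', I', U', X', Y', hgood', hdep'⟩ := phase (c := c) hg hl hE hz hfam hth htm H1 H2 H3 H4 hL
        (by
          have h1 : i * (L + 2) ≤ m * (L + 2) := Nat.mul_le_mul_right _ (by omega)
          omega) hgood
      refine ⟨v', I', U', X', Y', ?_, ?_⟩
      · have h1 : 1 + (i + 1) * (L + 2) = 1 + i * (L + 2) + L + 2 := by ring
        rw [h1]
        exact hgood'
      · have h1 : (i + 1) * (c - tm) = i * (c - tm) + (c - tm) := by ring
        rw [h1]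
        omega
  obtain ⟨v, I, U, X, Y, -, hdep⟩ := key m (le_refl _)
  omega

/-- the final computation -/
lemma final9 {n l r tm X D : ℕ} {δ0 : ℝ} (hδ0 : 0 < δ0) (hn : 0 < n)
    (hsize : δ0 * n ≤ ((l * r : ℕ) : ℝ)) (hlr : l * r ≤ n) (hlr12 : 12 ≤ l * r) (hX : 2 ≤ X)
    (htm : (tm : ℝ) ≤ δ0 / 8 * n)
    (h : ∀ L c m : ℕ, X ≤ 2 ^ L → tm ≤ c → D < m * (c - tm) →
      l * r ≤ 1 + L + c + 142 * (2 + m * (L + 2))) :
    (2 : ℝ) ^ (δ0 ^ 2 / 18304 * n ^ 2 / (n + D)) ≤ X := by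
  have hXr : (2 : ℝ) ≤ X := by exact_mod_cast hX
  have hX0 : (0 : ℝ) < X := by linarith
  -- it is enough to bound the exponent
  have hred : δ0 ^ 2 / 18304 * n ^ 2 / (n + D) ≤ Real.logb 2 X → 
      (2 : ℝ) ^ (δ0 ^ 2 / 18304 * n ^ 2 / (n + D)) ≤ X := by
    intro h1
    have h2 := Real.rpow_le_rpow_of_exponent_le (by norm_num : (1 : ℝ) ≤ 2) h1
    rwa [Real.rpow_logb (by norm_num) (by norm_num) hX0] at h2
  have hlog1 : 1 ≤ Real.logb 2 X := by
    rw [Real.le_logb_iff_rpow_le (by norm_num) hX0, Real.rpow_one]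
    exact hXr
  apply hred
  have hnr : (0 : ℝ) < n := by exact_mod_cast hn
  have hDr : (0 : ℝ) ≤ D := Nat.cast_nonneg _
  have hden : (0 : ℝ) < n + D := by positivity
  have htm2 : 8 * tm ≤ l * r := by
    have h1 : ((8 * tm : ℕ) : ℝ) ≤ ((l * r : ℕ) : ℝ) := by
      refine le_trans ?_ hsize
      push_cast
      linarith
    exact_mod_cast h1
  obtain ⟨z, hz⟩ : ∃ z, z = l * r := ⟨_, rfl⟩
  rw [← hz] at hsize hlr hlr12 htm2 h
  obtain ⟨c, hc⟩ : ∃ c, c = z / 4 := ⟨_, rfl⟩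
  obtain ⟨q, hq⟩ : ∃ q, q = c - tm := ⟨_, rfl⟩
  have hctm : tm ≤ c := by omega
  have hq16 : z ≤ 16 * q := by omega
  have hq0 : 0 < q := by omega
  have hqn : q ≤ n := by omega
  rw [div_le_iff₀ hden]
  obtain ⟨L, hL⟩ : ∃ L, L = Nat.clog 2 X := ⟨_, rfl⟩
  have hL1 : X ≤ 2 ^ L := by
    rw [hL]
    exact Nat.le_pow_clog (by norm_num) X
  have hL2 : (L : ℝ) ≤ Real.logb 2 X + 1 := by
    have h1 : 2 ^ (L - 1) < X := by
      rw [hL]
      exact Nat.pow_pred_clog_lt_self (by norm_num) (by omega)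
    have h2 : ((L - 1 : ℕ) : ℝ) ≤ Real.logb 2 X := by
      rw [Real.le_logb_iff_rpow_le (by norm_num) hX0, Real.rpow_natCast]
      exact_mod_cast h1.le
    have h3 : (L : ℝ) ≤ ((L - 1 : ℕ) : ℝ) + 1 := by
      have : L ≤ (L - 1) + 1 := by omega
      exact_mod_cast this
    linarith
  have hDt : D < (D / q + 1) * q := by
    have := Nat.lt_mul_div_succ D hq0
    rw [mul_comm]
    exact this
  have h1 := h L c (D / q + 1) hL1 hctm (by rw [← hq]; exact hDt)
  obtain ⟨m, hm⟩ : ∃ m, m = D / q + 1 := ⟨_, rfl⟩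
  rw [← hm] at h1
  have hmt : m * q ≤ D + n := by
    rw [hm, add_mul, one_mul]
    have := Nat.div_mul_le_self D q
    omega
  have hm1 : 1 ≤ m := by
    rw [hm]
    exact Nat.le_add_left 1 _
  have h2 : 3 * z ≤ 572 * (m * (L + 4)) := by
    have h3 : m * (L + 4) = m * (L + 2) + 2 * m := by ring
    have h4 : m * (L + 2) = m * L + 2 * m := by ring
    have h5 : L ≤ m * L := Nat.le_mul_of_pos_left _ hm1
    rw [h3]
    rw [h4] at h1 ⊢
    omega
  have h4 : 3 * z * z ≤ 9152 * (n + D) * (L + 4) := by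
    calc 3 * z * z ≤ 572 * (m * (L + 4)) * (16 * q) := Nat.mul_le_mul h2 hq16
      _ = 9152 * (m * q) * (L + 4) := by ring
      _ ≤ 9152 * (n + D) * (L + 4) := by
          refine Nat.mul_le_mul_right _ (Nat.mul_le_mul_left _ ?_)
          omega
  have h5 : 3 * (z : ℝ) * z ≤ 9152 * (n + D) * (L + 4) := by exact_mod_cast h4
  have h6 : (δ0 * n) * (δ0 * n) ≤ (z : ℝ) * z :=
    mul_le_mul hsize hsize (by positivity) (by positivity)
  have h7 : (9152 : ℝ) * (n + D) * (L + 4) ≤ 9152 * (n + D) * (6 * Real.logb 2 X) :=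
    mul_le_mul_of_nonneg_left (by linarith) (by positivity)
  have h8 : δ0 ^ 2 / 18304 * n ^ 2 = (δ0 * n) * (δ0 * n) / 18304 := by ring
  have h9 : (9152 : ℝ) * (n + D) * (6 * Real.logb 2 X) =
      54912 * (Real.logb 2 X * (n + D)) := by ring
  rw [h8]
  rw [h9] at h7
  linarith

end Pool.Agent.J4H24.CA
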