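import Pool.Agent.J4H24.CA.Core

/-!
# The potential of a rectangle
-/

namespace Pool.Agent.J4H24.CA

open Finset Pool.Agent.J4H24.PR Pool.Agent.J4H24.SA

set_option linter.unusedSectionVars false

variable {V ι : Type*} [Fintype V] [DecidableEq V] [Fintype ι] [DecidableEq ι]
  {g r : ℕ} {R : ι → Fin (8 * g) → V} {b : ι → ZMod 2}

/-- the pseudo-measure of a rectangle -/
def mu (R : ι → Fin (8 * g) → V) (b : ι → ZMod 2) (r : ℕ) (X Y : Finset (V → Bk)) : ℝ :=
  ∑ x ∈ X, ∑ y ∈ Y, Dr (sy R) b r x y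

lemma mu_comm (X Y : Finset (V → Bk)) : mu R b r X Y = mu R b r Y X := by
  unfold mu
  rw [Finset.sum_comm]
  exact Finset.sum_congr rfl fun x _ => Finset.sum_congr rfl fun y _ => Dr_comm _ _

/-- the weight of the fixed blocks and of the closed equations -/
def wt (g : ℕ) (I : Finset V) (U : Finset ι) : ℝ := 2 ^ ((5 * g + 1) * U.card + 9 * I.card)

lemma wt_pos (I : Finset V) (U : Finset ι) : 0 < wt g I U := by
  unfold wt
  positivity

/-- the root of the size of a rectangle -/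
noncomputable def rt (X Y : Finset (V → Bk)) : ℝ := Real.sqrt X.card * Real.sqrt Y.card

lemma rt_nonneg (X Y : Finset (V → Bk)) : 0 ≤ rt X Y := by
  unfold rt
  positivity

lemma rt_pos {X Y : Finset (V → Bk)} (hX : X.Nonempty) (hY : Y.Nonempty) : 0 < rt X Y := by
  unfold rt
  have h1 : (0 : ℝ) < X.card := by exact_mod_cast hX.card_pos
  have h2 : (0 : ℝ) < Y.card := by exact_mod_cast hY.card_pos
  exact mul_pos (Real.sqrt_pos.mpr h1) (Real.sqrt_pos.mpr h2)

lemma rt_sq (X Y : Finset (V → Bk)) : rt X Y * rt X Y = X.card * Y.card := by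
  unfold rt
  have h5 : Real.sqrt X.card * Real.sqrt X.card = X.card := Real.mul_self_sqrt (Nat.cast_nonneg _)
  have h6 : Real.sqrt Y.card * Real.sqrt Y.card = Y.card := Real.mul_self_sqrt (Nat.cast_nonneg _)
  calc Real.sqrt X.card * Real.sqrt Y.card * (Real.sqrt X.card * Real.sqrt Y.card) =
      (Real.sqrt X.card * Real.sqrt X.card) * (Real.sqrt Y.card * Real.sqrt Y.card) := by ring
    _ = _ := by rw [h5, h6]

/-- the states -/
def Stt (R : ι → Fin (8 * g) → V) (r : ℕ) (I : Finset V) (U : Finset ι)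
    (X Y : Finset (V → Bk)) : Prop :=
  Cst X I ∧ Cst Y I ∧ nb R U ⊆ I ∧ U.card ≤ 2 * r

/-- the potential is maximal -/
def Mxl (R : ι → Fin (8 * g) → V) (b : ι → ZMod 2) (r : ℕ) (φ : ℝ) (I : Finset V) (U : Finset ι)
    (X Y : Finset (V → Bk)) : Prop :=
  0 < φ ∧ X.Nonempty ∧ Y.Nonempty ∧ Stt R r I U X Y ∧
    φ * rt X Y ≤ wt g I U * mu R b r X Y ∧
    ∀ X' ⊆ X, ∀ Y' ⊆ Y, ∀ I', I ⊆ I' → ∀ U', U ⊆ U' → Stt R r I' U' X' Y' →
      wt g I' U' * mu R b r X' Y' ≤ φ * rt X' Y'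

lemma Stt.symm {I : Finset V} {U : Finset ι} {X Y : Finset (V → Bk)} (h : Stt R r I U X Y) :
    Stt R r I U Y X := ⟨h.2.1, h.1, h.2.2⟩

lemma rt_comm (X Y : Finset (V → Bk)) : rt X Y = rt Y X := mul_comm _ _

lemma Mxl.symm {φ : ℝ} {I : Finset V} {U : Finset ι} {X Y : Finset (V → Bk)}
    (h : Mxl R b r φ I U X Y) : Mxl R b r φ I U Y X := by
  obtain ⟨h1, h2, h3, h4, h5, h6⟩ := h
  refine ⟨h1, h3, h2, h4.symm, ?_, ?_⟩
  · rw [rt_comm, mu_comm]
    exact h5
  · intro X' hX' Y' hY' I' hI' U' hU' hs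
    rw [rt_comm, mu_comm]
    exact h6 Y' hY' X' hX' I' hI' U' hU' hs.symm

/-- there is a state of maximal potential -/
lemma exists_mxl {φ0 : ℝ} (hφ : 0 < φ0) {I0 : Finset V} {U0 : Finset ι} {X0 Y0 : Finset (V → Bk)}
    (hX0 : X0.Nonempty) (hY0 : Y0.Nonempty) (h0 : Stt R r I0 U0 X0 Y0)
    (h : φ0 * rt X0 Y0 ≤ wt g I0 U0 * mu R b r X0 Y0) :
    ∃ φ I U X Y, φ0 ≤ φ ∧ X ⊆ X0 ∧ Y ⊆ Y0 ∧ Mxl R b r φ I U X Y := by
  classical
  obtain ⟨T, hT⟩ : ∃ T : Finset (Finset (V → Bk) × Finset (V → Bk) × Finset V × Finset ι),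
      T = univ.filter fun q => q.1 ⊆ X0 ∧ q.2.1 ⊆ Y0 ∧ I0 ⊆ q.2.2.1 ∧ U0 ⊆ q.2.2.2 ∧
        q.1.Nonempty ∧ q.2.1.Nonempty ∧ Stt R r q.2.2.1 q.2.2.2 q.1 q.2.1 := ⟨_, rfl⟩
  have hmem : ∀ q, q ∈ T ↔ q.1 ⊆ X0 ∧ q.2.1 ⊆ Y0 ∧ I0 ⊆ q.2.2.1 ∧ U0 ⊆ q.2.2.2 ∧
        q.1.Nonempty ∧ q.2.1.Nonempty ∧ Stt R r q.2.2.1 q.2.2.2 q.1 q.2.1 := by
    intro q
    rw [hT, Finset.mem_filter]
    simp only [Finset.mem_univ, true_and]
  have hin : (X0, Y0, I0, U0) ∈ T := (hmem _).mpr
    ⟨Finset.Subset.refl _, Finset.Subset.refl _, Finset.Subset.refl _, Finset.Subset.refl _,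
      hX0, hY0, h0⟩
  obtain ⟨f, hf⟩ : ∃ f : Finset (V → Bk) × Finset (V → Bk) × Finset V × Finset ι → ℝ,
      f = fun q => wt g q.2.2.1 q.2.2.2 * mu R b r q.1 q.2.1 / rt q.1 q.2.1 := ⟨_, rfl⟩
  obtain ⟨⟨X, Y, I, U⟩, hq, hmax⟩ := Finset.exists_max_image T f ⟨_, hin⟩
  obtain ⟨h1, h2, h3, h4, h5, h6, h7⟩ := (hmem _).mp hq
  simp only at h1 h2 h3 h4 h5 h6 h7
  have hrt := rt_pos h5 h6
  have hφφ : φ0 ≤ f (X, Y, I, U) := by
    refine le_trans ?_ (hmax _ hin)
    rw [hf]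
    simp only
    rw [le_div_iff₀ (rt_pos hX0 hY0)]
    exact h
  have hfe : f (X, Y, I, U) * rt X Y = wt g I U * mu R b r X Y := by
    rw [hf]
    simp only
    field_simp
  refine ⟨f (X, Y, I, U), I, U, X, Y, hφφ, h1, h2, lt_of_lt_of_le hφ hφφ, h5, h6, h7,
    le_of_eq hfe, ?_⟩
  intro X' hX' Y' hY' I' hI' U' hU' hs
  rcases X'.eq_empty_or_nonempty with h8 | h8
  · rw [h8]
    simp [mu, rt]
  rcases Y'.eq_empty_or_nonempty with h9 | h9
  · rw [h9]
    simp [mu, rt]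
  have h10 := hmax (X', Y', I', U') ((hmem _).mpr ⟨hX'.trans h1, hY'.trans h2, h3.trans hI',
    h4.trans hU', h8, h9, hs⟩)
  have h11 : f (X', Y', I', U') * rt X' Y' = wt g I' U' * mu R b r X' Y' := by
    have := rt_pos h8 h9
    rw [hf]
    simp only
    field_simp
  rw [← h11]
  exact mul_le_mul_of_nonneg_right h10 (rt_nonneg _ _)

lemma sqrt_lt_sum {x a : ℝ} {s : ℕ} (ha : 0 ≤ a) (hax : a ≤ x) (h : x < 64 ^ s * a) (hs : 1 ≤ s) :
    (1 / 16) ^ s * Real.sqrt a + Real.sqrt (x - a) < Real.sqrt x := by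
  have hx0 : 0 ≤ x := ha.trans hax
  obtain ⟨p, hp⟩ : ∃ p, p = Real.sqrt x := ⟨_, rfl⟩
  obtain ⟨q, hq⟩ : ∃ q, q = Real.sqrt (x - a) := ⟨_, rfl⟩
  obtain ⟨u, hu⟩ : ∃ u, u = Real.sqrt a := ⟨_, rfl⟩
  have hp2 : p * p = x := by rw [hp]; exact Real.mul_self_sqrt hx0
  have hq2 : q * q = x - a := by rw [hq]; exact Real.mul_self_sqrt (by linarith)
  have hu2 : u * u = a := by rw [hu]; exact Real.mul_self_sqrt ha
  have hp0 : 0 ≤ p := by rw [hp]; exact Real.sqrt_nonneg _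
  have hq0 : 0 ≤ q := by rw [hq]; exact Real.sqrt_nonneg _
  have hu0 : 0 ≤ u := by rw [hu]; exact Real.sqrt_nonneg _
  rw [← hp, ← hq, ← hu]
  have hapos : 0 < a := by
    by_contra hcon
    have : a = 0 := by linarith
    rw [this, mul_zero] at h
    linarith
  have hupos : 0 < u := by
    rw [hu]
    exact Real.sqrt_pos.mpr hapos
  have h64 : (64 : ℝ) ^ s = 8 ^ s * 8 ^ s := by rw [← mul_pow]; norm_num
  have h8 : (0 : ℝ) < 8 ^ s := by positivity
  have hp8 : p < 8 ^ s * u := by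
    by_contra hcon
    push Not at hcon
    have : (8 ^ s * u) * (8 ^ s * u) ≤ p * p := mul_self_le_mul_self (by positivity) hcon
    rw [hp2] at this
    have h1 : (8 ^ s * u) * (8 ^ s * u) = 64 ^ s * a := by rw [h64, ← hu2]; ring
    linarith
  have hqp : q ≤ p := by
    rw [hp, hq]
    exact Real.sqrt_le_sqrt (by linarith)
  obtain ⟨c, hc⟩ : ∃ c : ℝ, c = (1 / 16) ^ s := ⟨_, rfl⟩
  have hc0 : 0 < c := by rw [hc]; positivity
  have hc8 : c * (2 * 8 ^ s) ≤ 1 := by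
    rw [hc]
    have h1 : ((1 : ℝ) / 16) ^ s * (2 * 8 ^ s) = 2 * (1 / 2) ^ s := by
      have : ((1 : ℝ) / 16) ^ s * 8 ^ s = (1 / 2) ^ s := by rw [← mul_pow]; norm_num
      calc ((1 : ℝ) / 16) ^ s * (2 * 8 ^ s) = 2 * (((1 : ℝ) / 16) ^ s * 8 ^ s) := by ring
        _ = _ := by rw [this]
    rw [h1]
    have h2 : ((1 : ℝ) / 2) ^ s ≤ (1 / 2) ^ 1 :=
      pow_le_pow_of_le_one (by norm_num) (by norm_num) hs
    linarith
  rw [← hc]
  by_contra hcon
  push Not at hcon
  have h1 : p - q ≤ c * u := by linarith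
  have h2 : (p - q) * (p + q) = u * u := by rw [hu2]; linarith [mul_self_nonneg p]
  have h3 : (p - q) * (p + q) ≤ (p - q) * (2 * p) :=
    mul_le_mul_of_nonneg_left (by linarith) (by linarith)
  have hppos : 0 < p := by
    rw [hp]
    exact Real.sqrt_pos.mpr (lt_of_lt_of_le hapos hax)
  have h4 : (p - q) * (2 * p) ≤ (c * u) * (2 * p) := mul_le_mul_of_nonneg_right h1 (by linarith)
  have h5 : (c * u) * (2 * p) < (c * u) * (2 * (8 ^ s * u)) :=
    mul_lt_mul_of_pos_left (by linarith) (by positivity)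
  have h6 : (c * u) * (2 * (8 ^ s * u)) = (c * (2 * 8 ^ s)) * (u * u) := by ring
  have h7 : (c * (2 * 8 ^ s)) * (u * u) ≤ 1 * (u * u) :=
    mul_le_mul_of_nonneg_right hc8 (by positivity)
  linarith

/-- a state of maximal potential is dense -/
lemma Mxl.dns {φ : ℝ} {I : Finset V} {U : Finset ι} {X Y : Finset (V → Bk)}
    (h : Mxl R b r φ I U X Y) : Dns X I := by
  obtain ⟨hφ, hXn, hYn, hs, hle, hmax⟩ := h
  unfold Dns
  by_contra hd
  push Not at hd
  obtain ⟨S, hS, x0, hx0, hbig⟩ := hd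
  have hS1 : 1 ≤ S.card := by
    by_contra hcon
    have : S.card = 0 := by omega
    rw [this, pow_zero, one_mul] at hbig
    exact absurd hbig (not_lt.mpr (Finset.card_filter_le _ _))
  obtain ⟨X1, hX1⟩ : ∃ X1, X1 = X.filter fun x => rs S x = rs S x0 := ⟨_, rfl⟩
  obtain ⟨X2, hX2⟩ : ∃ X2, X2 = X.filter fun x => ¬ rs S x = rs S x0 := ⟨_, rfl⟩
  rw [← hX1] at hbig
  have hcard : X1.card + X2.card = X.card := by
    rw [hX1, hX2]
    exact Finset.card_filter_add_card_filter_not _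
  have hIS : (I ∪ S).card = I.card + S.card := by
    refine Finset.card_union_of_disjoint ?_
    exact hS.symm
  have hs1 : mu R b r X Y = mu R b r X1 Y + mu R b r X2 Y := by
    unfold mu
    rw [hX1, hX2]
    exact (Finset.sum_filter_add_sum_filter_not _ _ _).symm
  have hs2 : mu R b r X1 Y = ∑ β ∈ rset S, mu R b r X1 (Y.filter fun y => rs S y = β) := by
    unfold mu
    rw [Finset.sum_congr rfl fun x _ => sum_split Y S _, Finset.sum_comm]
  have h1 : ∀ β ∈ rset S, wt g (I ∪ S) U * mu R b r X1 (Y.filter fun y => rs S y = β) ≤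
      φ * (Real.sqrt X1.card * Real.sqrt (Y.filter fun y => rs S y = β).card) := by
    intro β _
    refine hmax X1 (by rw [hX1]; exact Finset.filter_subset _ _) _ (Finset.filter_subset _ _)
      (I ∪ S) Finset.subset_union_left U (Finset.Subset.refl _) ⟨?_, ?_, ?_, hs.2.2.2⟩
    · rw [hX1]
      exact hs.1.split _
    · exact hs.2.1.split _
    · exact hs.2.2.1.trans Finset.subset_union_left
  have h2 : wt g I U * mu R b r X2 Y ≤ φ * rt X2 Y :=
    hmax X2 (by rw [hX2]; exact Finset.filter_subset _ _) Y (Finset.Subset.refl _) I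
      (Finset.Subset.refl _) U (Finset.Subset.refl _)
      ⟨hs.1.mono (by rw [hX2]; exact Finset.filter_subset _ _), hs.2.1, hs.2.2⟩
  have h3 : wt g (I ∪ S) U * mu R b r X1 Y ≤
      φ * (Real.sqrt X1.card * (32 ^ S.card * Real.sqrt Y.card)) := by
    rw [hs2, Finset.mul_sum]
    refine (Finset.sum_le_sum h1).trans ?_
    rw [← Finset.mul_sum, ← Finset.mul_sum]
    exact mul_le_mul_of_nonneg_left (mul_le_mul_of_nonneg_left (split_sqrt Y S)
      (Real.sqrt_nonneg _)) hφ.le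
  have hwt : wt g (I ∪ S) U = wt g I U * 512 ^ S.card := by
    unfold wt
    rw [hIS, show (512 : ℝ) = 2 ^ 9 by norm_num, ← pow_mul, ← pow_add]
    congr 1
    ring
  have h4 : wt g I U * mu R b r X1 Y ≤
      φ * Real.sqrt Y.card * ((1 / 16) ^ S.card * Real.sqrt X1.card) := by
    have h5 : (512 : ℝ) ^ S.card * ((1 / 16) ^ S.card) = 32 ^ S.card := by
      rw [← mul_pow]
      norm_num
    have h6 : (0 : ℝ) < 512 ^ S.card := by positivity
    refine le_of_mul_le_mul_left ?_ h6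
    calc (512 : ℝ) ^ S.card * (wt g I U * mu R b r X1 Y) = wt g (I ∪ S) U * mu R b r X1 Y := by
          rw [hwt]
          ring
      _ ≤ φ * (Real.sqrt X1.card * (32 ^ S.card * Real.sqrt Y.card)) := h3
      _ = _ := by
          rw [← h5]
          ring
  have h7 := sqrt_lt_sum (x := X.card) (a := X1.card) (s := S.card) (Nat.cast_nonneg _)
    (by exact_mod_cast (show X1.card ≤ X.card by omega)) (by exact_mod_cast hbig) hS1
  have h8 : (X.card : ℝ) - X1.card = X2.card := by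
    rw [← hcard]
    push_cast
    ring
  rw [h8] at h7
  have hYpos : 0 < Real.sqrt Y.card := Real.sqrt_pos.mpr (by exact_mod_cast hYn.card_pos)
  have h9 := mul_lt_mul_of_pos_left h7 (mul_pos hφ hYpos)
  unfold rt at h2 hle
  rw [hs1] at hle
  have h10 : φ * Real.sqrt Y.card * ((1 / 16) ^ S.card * Real.sqrt X1.card + Real.sqrt X2.card) =
      φ * Real.sqrt Y.card * ((1 / 16) ^ S.card * Real.sqrt X1.card) +
      φ * (Real.sqrt X2.card * Real.sqrt Y.card) := by ring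
  have h11 : φ * Real.sqrt Y.card * Real.sqrt X.card =
      φ * (Real.sqrt X.card * Real.sqrt Y.card) := by ring
  linarith

/-- a state of maximal potential is closed -/
lemma Mxl.clo {φ : ℝ} {I : Finset V} {U : Finset ι} {X Y : Finset (V → Bk)}
    (h : Mxl R b r φ I U X Y) (hU : U.card ≤ r) : Clo R r I U := by
  obtain ⟨hφ, hXn, hYn, hs, hle, hmax⟩ := h
  intro J hJ hJU hJr
  by_contra hcon
  push Not at hcon
  obtain ⟨W, hW⟩ : ∃ W, W = nb R J \ (I ∪ nb R U) := ⟨_, rfl⟩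
  rw [← hW] at hcon
  have hIW : (I ∪ W).card = I.card + W.card := by
    refine Finset.card_union_of_disjoint ?_
    rw [hW, Finset.disjoint_left]
    intro v hv hv'
    simp only [Finset.mem_sdiff, Finset.mem_union] at hv'
    tauto
  have hUJ : (U ∪ J).card = U.card + J.card := Finset.card_union_of_disjoint hJU.symm
  have hJ1 := hJ.card_pos
  have h1 : ∀ α ∈ rset W, ∀ β ∈ rset W, wt g (I ∪ W) (U ∪ J) *
      mu R b r (X.filter fun x => rs W x = α) (Y.filter fun y => rs W y = β) ≤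
      φ * (Real.sqrt (X.filter fun x => rs W x = α).card *
        Real.sqrt (Y.filter fun y => rs W y = β).card) := by
    intro α _ β _
    refine hmax _ (Finset.filter_subset _ _) _ (Finset.filter_subset _ _)
      (I ∪ W) Finset.subset_union_left (U ∪ J) Finset.subset_union_left ⟨?_, ?_, ?_, by omega⟩
    · exact hs.1.split _
    · exact hs.2.1.split _
    · rw [nb_union]
      intro v hv
      have h2 := fun h : v ∈ nb R U => hs.2.2.1 h
      rw [hW]
      simp only [Finset.mem_union, Finset.mem_sdiff] at hv ⊢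
      tauto
  have hs2 : mu R b r X Y = ∑ α ∈ rset W, ∑ β ∈ rset W,
      mu R b r (X.filter fun x => rs W x = α) (Y.filter fun y => rs W y = β) := by
    unfold mu
    rw [sum_split X W]
    refine Finset.sum_congr rfl fun α _ => ?_
    rw [Finset.sum_congr rfl fun x _ => sum_split Y W _, Finset.sum_comm]
  have h3 : wt g (I ∪ W) (U ∪ J) * mu R b r X Y ≤ φ * (1024 ^ W.card * rt X Y) := by
    rw [hs2, Finset.mul_sum]
    have h4 : ∀ α ∈ rset W, wt g (I ∪ W) (U ∪ J) * ∑ β ∈ rset W,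
        mu R b r (X.filter fun x => rs W x = α) (Y.filter fun y => rs W y = β) ≤
        ∑ β ∈ rset W, φ * (Real.sqrt (X.filter fun x => rs W x = α).card *
        Real.sqrt (Y.filter fun y => rs W y = β).card) := by
      intro α hα
      rw [Finset.mul_sum]
      exact Finset.sum_le_sum fun β hβ => h1 α hα β hβ
    refine (Finset.sum_le_sum h4).trans ?_
    have h5 : ∑ α ∈ rset W, ∑ β ∈ rset W, φ * (Real.sqrt (X.filter fun x => rs W x = α).card *
        Real.sqrt (Y.filter fun y => rs W y = β).card) =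
        φ * ((∑ α ∈ rset W, Real.sqrt (X.filter fun x => rs W x = α).card) *
          ∑ β ∈ rset W, Real.sqrt (Y.filter fun y => rs W y = β).card) := by
      rw [Finset.sum_mul_sum, Finset.mul_sum]
      refine Finset.sum_congr rfl fun α _ => ?_
      rw [Finset.mul_sum]
    rw [h5]
    refine mul_le_mul_of_nonneg_left ?_ hφ.le
    refine (mul_le_mul (split_sqrt X W) (split_sqrt Y W)
      (Finset.sum_nonneg fun _ _ => Real.sqrt_nonneg _) (by positivity)).trans (le_of_eq ?_)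
    unfold rt
    have h6 : (1024 : ℝ) ^ W.card = 32 ^ W.card * 32 ^ W.card := by rw [← mul_pow]; norm_num
    rw [h6]
    ring
  have hwt : wt g (I ∪ W) (U ∪ J) =
      wt g I U * 2 ^ ((5 * g + 1) * J.card + 9 * W.card) := by
    unfold wt
    rw [hIW, hUJ, ← pow_add]
    congr 1
    ring
  have hr := rt_pos hXn hYn
  have h7 : (2 : ℝ) ^ ((5 * g + 1) * J.card + 9 * W.card) * (φ * rt X Y) ≤
      2 ^ (10 * W.card) * (φ * rt X Y) := by
    have h8 : (2 : ℝ) ^ (10 * W.card) = 1024 ^ W.card := by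
      rw [pow_mul]
      norm_num
    calc (2 : ℝ) ^ ((5 * g + 1) * J.card + 9 * W.card) * (φ * rt X Y) ≤
        2 ^ ((5 * g + 1) * J.card + 9 * W.card) * (wt g I U * mu R b r X Y) :=
          mul_le_mul_of_nonneg_left hle (by positivity)
      _ = wt g (I ∪ W) (U ∪ J) * mu R b r X Y := by
          rw [hwt]
          ring
      _ ≤ _ := h3
      _ = _ := by
          rw [h8]
          ring
  have h9 := le_of_mul_le_mul_right h7 (mul_pos hφ hr)
  have h10 : (5 * g + 1) * J.card + 9 * W.card ≤ 10 * W.card :=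
    (pow_le_pow_iff_right₀ (by norm_num : (1 : ℝ) < 2)).mp h9
  have h11 : (5 * g + 1) * J.card = 5 * g * J.card + J.card := by ring
  omega

lemma Stt.rt_le {I : Finset V} {U : Finset ι} {X Y : Finset (V → Bk)} (h : Stt R r I U X Y) :
    rt X Y * 1024 ^ I.card ≤ 1024 ^ Fintype.card V := by
  have h1 : (X.card : ℝ) ≤ 1024 ^ (univ \ I).card := by exact_mod_cast h.1.card_le
  have h2 : (Y.card : ℝ) ≤ 1024 ^ (univ \ I).card := by exact_mod_cast h.2.1.card_le
  have h3 : rt X Y ≤ 1024 ^ (univ \ I).card := by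
    unfold rt
    rw [← Real.sqrt_mul (Nat.cast_nonneg _)]
    refine Real.sqrt_le_iff.mpr ⟨by positivity, ?_⟩
    rw [sq]
    exact mul_le_mul h1 h2 (Nat.cast_nonneg _) (by positivity)
  have h4 : (univ \ I).card + I.card = Fintype.card V := by
    rw [Finset.card_sdiff_add_card_eq_card (Finset.subset_univ _), Finset.card_univ]
  rw [← h4, pow_add]
  exact mul_le_mul_of_nonneg_right h3 (by positivity)

/-- the drop of the potential controls the number of fixed blocks -/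
lemma fix_le {d a : ℕ} {I : Finset V} {U : Finset ι} {X Y : Finset (V → Bk)}
    (hX : X.Nonempty) (hY : Y.Nonempty) (hs : Stt R r I U X Y)
    (h : 1024 ^ Fintype.card V * rt X Y ≤ 2 ^ d * (wt g I U * mu R b r X Y))
    (hmu : mu R b r X Y ≤ 2 ^ a * (X.card * Y.card)) :
    I.card ≤ d + (5 * g + 1) * U.card + a := by
  have hr := rt_pos hX hY
  have hw := wt_pos (g := g) I U
  rw [← rt_sq] at hmu
  have h1 : 1024 ^ Fintype.card V * rt X Y ≤ 2 ^ d * (wt g I U * (2 ^ a * rt X Y)) * rt X Y := by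
    refine h.trans ?_
    have := mul_le_mul_of_nonneg_left hmu (show 0 ≤ 2 ^ d * wt g I U by positivity)
    calc (2 : ℝ) ^ d * (wt g I U * mu R b r X Y) = 2 ^ d * wt g I U * mu R b r X Y := by ring
      _ ≤ _ := this
      _ = _ := by ring
  have h2 := le_of_mul_le_mul_right h1 hr
  have h3 := hs.rt_le
  have h4 : 1024 ^ Fintype.card V * (1024 : ℝ) ^ I.card ≤
      2 ^ d * (wt g I U * 2 ^ a) * 1024 ^ Fintype.card V := by
    calc 1024 ^ Fintype.card V * (1024 : ℝ) ^ I.card ≤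
        2 ^ d * (wt g I U * (2 ^ a * rt X Y)) * 1024 ^ I.card :=
          mul_le_mul_of_nonneg_right h2 (by positivity)
      _ = 2 ^ d * (wt g I U * 2 ^ a) * (rt X Y * 1024 ^ I.card) := by ring
      _ ≤ _ := mul_le_mul_of_nonneg_left h3 (by positivity)
  have h5 : (2 : ℝ) ^ (10 * I.card) ≤ 2 ^ (d + ((5 * g + 1) * U.card + 9 * I.card) + a) := by
    have h6 : (0 : ℝ) < 1024 ^ Fintype.card V := by positivity
    refine le_of_mul_le_mul_left ?_ h6
    rw [pow_mul, show (2 : ℝ) ^ 10 = 1024 by norm_num]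
    refine h4.trans (le_of_eq ?_)
    unfold wt
    generalize (5 * g + 1) * U.card + 9 * I.card = e
    rw [pow_add, pow_add]
    ring
  have h6 := (pow_le_pow_iff_right₀ (by norm_num : (1 : ℝ) < 2)).mp h5
  omega

/-- the pseudo-measure is large -/
lemma mu_ge {d a : ℕ} {I : Finset V} {U : Finset ι} {X Y : Finset (V → Bk)}
    (hX : X.Nonempty) (hY : Y.Nonempty)
    (h : 1024 ^ Fintype.card V * rt X Y ≤ 2 ^ d * (wt g I U * mu R b r X Y))
    (hmu : mu R b r X Y ≤ 2 ^ a * (X.card * Y.card)) :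
    (1024 ^ Fintype.card V * 1024 ^ Fintype.card V : ℝ) ≤
      2 ^ (2 * (d + ((5 * g + 1) * U.card + 9 * I.card)) + a) * mu R b r X Y := by
  have hr := rt_pos hX hY
  have hw := wt_pos (g := g) I U
  have hmu0 : 0 < mu R b r X Y := by
    by_contra hcon
    push Not at hcon
    have h1 : 2 ^ d * (wt g I U * mu R b r X Y) ≤ 0 :=
      mul_nonpos_of_nonneg_of_nonpos (by positivity)
        (mul_nonpos_of_nonneg_of_nonpos hw.le hcon)
    have h2 : (0 : ℝ) < 1024 ^ Fintype.card V * rt X Y := by positivity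
    linarith
  rw [← rt_sq] at hmu
  obtain ⟨q, hq⟩ : ∃ q, q = rt X Y := ⟨_, rfl⟩
  obtain ⟨m, hm⟩ : ∃ m, m = mu R b r X Y := ⟨_, rfl⟩
  obtain ⟨E, hE⟩ : ∃ E : ℝ, E = 1024 ^ Fintype.card V := ⟨_, rfl⟩
  obtain ⟨w, hw'⟩ : ∃ w : ℝ, w = 2 ^ d * wt g I U := ⟨_, rfl⟩
  rw [← hq] at hr hmu h
  rw [← hm] at hmu0 hmu h ⊢
  rw [← hE] at h ⊢
  have hE0 : 0 < E := by rw [hE]; positivity
  have hw0 : 0 < w := by rw [hw']; positivity
  have h1 : E * q ≤ w * m := by
    rw [hw']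
    linarith
  have h2 : (E * q) * (E * q) ≤ (w * m) * (w * m) := mul_self_le_mul_self (by positivity) h1
  have h3 : (w * m) * (w * m) ≤ (w * m) * (w * (2 ^ a * (q * q))) :=
    mul_le_mul_of_nonneg_left (mul_le_mul_of_nonneg_left hmu hw0.le) (by positivity)
  have h4 : (E * E) * (q * q) ≤ (w * w * 2 ^ a * m) * (q * q) := by
    calc (E * E) * (q * q) = (E * q) * (E * q) := by ring
      _ ≤ _ := h2
      _ ≤ _ := h3
      _ = _ := by ring
  have h5 := le_of_mul_le_mul_right h4 (by positivity)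
  refine h5.trans (le_of_eq ?_)
  congr 1
  rw [hw']
  unfold wt
  generalize (5 * g + 1) * U.card + 9 * I.card = e
  rw [pow_add, two_mul, pow_add, pow_add]

lemma mu_le_fam (X Y : Finset (V → Bk)) :
    mu R b r X Y ≤ (Fam ι r).card * (X.card * Y.card) := by
  unfold mu
  have h : ∀ x ∈ X, ∑ y ∈ Y, Dr (sy R) b r x y ≤ Y.card * (Fam ι r).card := by
    intro x _
    refine (Finset.sum_le_sum fun y _ => (le_abs_self _).trans
      (abs_Dr (R := R) (b := b) (r := r) x y)).trans ?_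
    rw [Finset.sum_const, nsmul_eq_mul]
  refine (Finset.sum_le_sum h).trans (le_of_eq ?_)
  rw [Finset.sum_const, nsmul_eq_mul]
  ring

/-- the pseudo-measure of a dense rectangle with a closed set of equations -/
lemma mu_le_dns {I : Finset V} {U : Finset ι} {X Y : Finset (V → Bk)}
    (hs : Stt R r I U X Y) (hC : Clo R r I U) (hdX : Dns X I) (hdY : Dns Y I)
    (hz : (1 + (1 / 2 : ℝ) ^ (2 * g)) ^ Fintype.card ι ≤ 2) :
    mu R b r X Y ≤ 2 ^ (U.card + 1) * (X.card * Y.card) := by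
  have hIU : I ∪ nb R U = I := Finset.union_eq_left.mpr hs.2.2.1
  have h1 : mu R b r X Y = ∑ J ∈ Fam ι r, ∑ x ∈ X, ∑ y ∈ Y, eps (sy R) b J x y := by
    rw [← swap3]
    rfl
  have h2 : ∀ J ∈ Fam ι r, ∑ x ∈ X, ∑ y ∈ Y, eps (sy R) b J x y ≤
      X.card * Y.card * ((1 / 2) ^ (2 * g)) ^ (J \ U).card := by
    intro J hJ
    refine (le_abs_self _).trans ?_
    refine corr_leaf (b := b) ?_ ?_ hC ?_ ?_ (mem_Fam.mp hJ)
    · rw [hIU]; exact hs.1
    · rw [hIU]; exact hs.2.1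
    · rw [hIU]; exact hdX
    · rw [hIU]; exact hdY
  rw [h1]
  refine (Finset.sum_le_sum h2).trans ?_
  rw [← Finset.mul_sum, mul_comm]
  refine mul_le_mul_of_nonneg_right ?_ (by positivity)
  obtain ⟨z, hz'⟩ : ∃ z : ℝ, z = (1 / 2) ^ (2 * g) := ⟨_, rfl⟩
  rw [← hz'] at hz ⊢
  have hz0 : 0 ≤ z := by rw [hz']; positivity
  have h3 : ∑ J ∈ Fam ι r, z ^ (J \ U).card ≤ ∑ J : Finset ι, z ^ (J \ U).card :=
    Finset.sum_le_sum_of_subset_of_nonneg (Finset.subset_univ _) fun _ _ _ => by positivity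
  refine h3.trans ?_
  rw [sum_pow_sdiff, pow_succ]
  refine mul_le_mul_of_nonneg_left ?_ (by positivity)
  refine le_trans ?_ hz
  refine pow_le_pow_right₀ (by linarith) ?_
  rw [← Finset.card_univ]
  exact Finset.card_le_card Finset.sdiff_subset

/-- the main lemma on the potential -/
lemma dense_state {l d : ℕ} (hg : g = 2 * l) (hl : 1 ≤ l)
    (hE : ∀ U : Finset ι, U.card ≤ 2 * r → 7 * g * U.card ≤ (nb R U).card)
    (hz : (1 + (1 / 2 : ℝ) ^ (2 * g)) ^ Fintype.card ι ≤ 2)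
    (hfam : (Fam ι r).card ≤ 2 ^ (l * r)) (hd : d ≤ l * r)
    {I0 : Finset V} {U0 : Finset ι} {X0 Y0 : Finset (V → Bk)}
    (hX0 : X0.Nonempty) (hY0 : Y0.Nonempty) (h0 : Stt R r I0 U0 X0 Y0)
    (h : 1024 ^ Fintype.card V * rt X0 Y0 ≤ 2 ^ d * (wt g I0 U0 * mu R b r X0 Y0)) :
    ∃ I U X Y, X.Nonempty ∧ Y.Nonempty ∧ X ⊆ X0 ∧ Y ⊆ Y0 ∧ Stt R r I U X Y ∧
      1024 ^ Fintype.card V * rt X Y ≤ 2 ^ d * (wt g I U * mu R b r X Y) ∧
      (1024 ^ Fintype.card V * 1024 ^ Fintype.card V : ℝ) ≤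
        2 ^ (142 * (d + 1)) * mu R b r X Y := by
  obtain ⟨φ0, hφ0⟩ : ∃ φ0 : ℝ, φ0 = 1024 ^ Fintype.card V / 2 ^ d := ⟨_, rfl⟩
  have hφpos : 0 < φ0 := by rw [hφ0]; positivity
  have hconv : ∀ z : ℝ, ∀ q : ℝ, φ0 * q ≤ z ↔ 1024 ^ Fintype.card V * q ≤ 2 ^ d * z := by
    intro z q
    have h2 : (0 : ℝ) < 2 ^ d := by positivity
    rw [hφ0, div_mul_eq_mul_div, div_le_iff₀ h2, mul_comm z]
  obtain ⟨φ, I, U, X, Y, hφ, hX, hY, hmx⟩ := exists_mxl (b := b) hφpos hX0 hY0 h0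
    ((hconv _ _).mpr h)
  have hmx' := hmx
  obtain ⟨hφp, hXn, hYn, hs, hle, -⟩ := hmx'
  have hinv : 1024 ^ Fintype.card V * rt X Y ≤ 2 ^ d * (wt g I U * mu R b r X Y) :=
    (hconv _ _).mp ((mul_le_mul_of_nonneg_right hφ (rt_nonneg _ _)).trans hle)
  have h7 : 7 * g * U.card ≤ I.card := (hE U hs.2.2.2).trans (Finset.card_le_card hs.2.2.1)
  -- few closed equations
  have hU : U.card ≤ r := by
    have h1 := fix_le (a := l * r) hXn hYn hs hinv ((mu_le_fam X Y).trans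
      (mul_le_mul_of_nonneg_right (by exact_mod_cast hfam) (by positivity)))
    have h2 : l * U.card ≤ l * r := by
      have h3 : 7 * g * U.card = 14 * (l * U.card) := by rw [hg]; ring
      have h4 : (5 * g + 1) * U.card = 10 * (l * U.card) + U.card := by rw [hg]; ring
      have h5 : U.card ≤ l * U.card := Nat.le_mul_of_pos_left _ hl
      omega
    exact Nat.le_of_mul_le_mul_left h2 hl
  have hC := hmx.clo hU
  have hmu := mu_le_dns (b := b) hs hC hmx.dns hmx.symm.dns hz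
  have h1 := fix_le hXn hYn hs hinv hmu
  have h2 := mu_ge hXn hYn hinv hmu
  refine ⟨I, U, X, Y, hXn, hYn, hX, hY, hs, hinv, h2.trans ?_⟩
  have hmu0 : 0 ≤ mu R b r X Y := by
    by_contra hcon
    push Not at hcon
    have h3 : wt g I U * mu R b r X Y < 0 := mul_neg_of_pos_of_neg (wt_pos _ _) hcon
    have h4 : 0 ≤ φ * rt X Y := mul_nonneg hφp.le (rt_nonneg _ _)
    linarith
  refine mul_le_mul_of_nonneg_right (pow_le_pow_right₀ (by norm_num) ?_) hmu0
  have h3 : 7 * g * U.card = 14 * (l * U.card) := by rw [hg]; ring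
  have h4 : (5 * g + 1) * U.card = 10 * (l * U.card) + U.card := by rw [hg]; ring
  have h5 : U.card ≤ l * U.card := Nat.le_mul_of_pos_left _ hl
  omega

end Pool.Agent.J4H24.CA
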