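import Pool.Agent.J4H24.CA.Sgn

/-!
# Rectangles have almost nonnegative pseudo-measure
-/

namespace Pool.Agent.J4H24.CA

open Finset Pool.Agent.J4H24.PR Pool.Agent.J4H24.SA

set_option linter.unusedSectionVars false

variable {V ι : Type*} [Fintype V] [DecidableEq V] [Fintype ι] [DecidableEq ι]
  {g r : ℕ} {R : ι → Fin (8 * g) → V} {b : ι → ZMod 2}

/-- the system of equations with the rows `R` -/
def sy (R : ι → Fin (8 * g) → V) (i : ι) (v : V) : ZMod 2 := rowA (R i) v

lemma two_nb_out (J : Finset ι) (I : Finset V) :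
    2 * (nb R J \ I).card ≤ 8 * g * J.card + (supp (sy R) J \ I).card := by
  classical
  obtain ⟨cnt, hcnt⟩ : ∃ cnt : V → ℕ, cnt = fun v => ∑ i ∈ J, ∑ k, if R i k = v then 1 else 0 :=
    ⟨_, rfl⟩
  have h1 : ∑ v, cnt v = 8 * g * J.card := by
    rw [hcnt]
    simp only
    rw [Finset.sum_comm]
    have : ∀ i ∈ J, ∑ v, ∑ k, (if R i k = v then 1 else 0) = 8 * g := by
      intro i _
      rw [Finset.sum_comm]
      simp
    rw [Finset.sum_congr rfl this]
    simp [mul_comm]
  have h2 : ∀ v, AJ (sy R) J v = (cnt v : ZMod 2) := by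
    intro v
    rw [hcnt]
    unfold AJ sy rowA
    push_cast
    rfl
  have h3 : ∀ v ∈ nb R J \ I, 2 ≤ cnt v + if v ∈ supp (sy R) J \ I then 1 else 0 := by
    intro v hv
    rw [Finset.mem_sdiff] at hv
    have hpos : 1 ≤ cnt v := by
      have hv1 := hv.1
      simp only [nb, Finset.mem_biUnion, Finset.mem_image, Finset.mem_univ, true_and] at hv1
      obtain ⟨i, hi, k, hk⟩ := hv1
      rw [hcnt]
      have : 1 ≤ ∑ k, if R i k = v then 1 else 0 := by
        have := Finset.single_le_sum (f := fun k => if R i k = v then 1 else 0)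
          (fun _ _ => Nat.zero_le _) (Finset.mem_univ k)
        simpa [hk] using this
      exact this.trans (Finset.single_le_sum (f := fun i => ∑ k, if R i k = v then 1 else 0)
        (fun _ _ => Nat.zero_le _) hi)
    by_cases hs : v ∈ supp (sy R) J \ I
    · rw [if_pos hs]
      omega
    · rw [if_neg hs]
      by_contra hlt
      have hc1 : cnt v = 1 := by omega
      apply hs
      rw [Finset.mem_sdiff]
      refine ⟨?_, hv.2⟩
      simp only [supp, Finset.mem_filter, Finset.mem_univ, true_and]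
      rw [h2, hc1]
      decide
  calc 2 * (nb R J \ I).card = ∑ v ∈ nb R J \ I, 2 := by simp [mul_comm]
    _ ≤ ∑ v ∈ nb R J \ I, (cnt v + if v ∈ supp (sy R) J \ I then 1 else 0) :=
        Finset.sum_le_sum h3
    _ = ∑ v ∈ nb R J \ I, cnt v + ∑ v ∈ nb R J \ I,
          (if v ∈ supp (sy R) J \ I then 1 else 0) := Finset.sum_add_distrib
    _ ≤ ∑ v, cnt v + ∑ v, (if v ∈ supp (sy R) J \ I then 1 else 0) :=
        Nat.add_le_add (Finset.sum_le_sum_of_subset (Finset.subset_univ _))
          (Finset.sum_le_sum_of_subset (Finset.subset_univ _))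
    _ = _ := by
        rw [h1, Finset.sum_ite_mem, Finset.univ_inter]
        simp

lemma nb_union (U J : Finset ι) : nb R (U ∪ J) = nb R U ∪ nb R J := by
  unfold nb
  exact Finset.union_biUnion

lemma supp_sub_nb (J : Finset ι) : supp (sy R) J ⊆ nb R J := by
  intro v hv
  by_contra hcon
  unfold supp at hv
  rw [Finset.mem_filter] at hv
  apply hv.2
  unfold AJ sy rowA
  refine Finset.sum_eq_zero fun i hi => Finset.sum_eq_zero fun k _ => if_neg ?_
  intro hk
  apply hcon
  simp only [nb, Finset.mem_biUnion, Finset.mem_image, Finset.mem_univ, true_and]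
  exact ⟨i, hi, k, hk⟩

lemma AJ_out {U J : Finset ι} {v : V} (hv : v ∉ nb R U) : AJ (sy R) J v = AJ (sy R) (J \ U) v := by
  have h1 : AJ (sy R) (J ∩ U) v = 0 := by
    by_contra hcon
    have h2 : v ∈ supp (sy R) (J ∩ U) := by
      unfold supp
      rw [Finset.mem_filter]
      exact ⟨mem_univ _, hcon⟩
    have h3 := supp_sub_nb _ h2
    apply hv
    unfold nb at h3 ⊢
    exact Finset.biUnion_subset_biUnion_of_subset_left _ Finset.inter_subset_right h3
  have h2 : AJ (sy R) J v = AJ (sy R) (J ∩ U) v + AJ (sy R) (J \ U) v := by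
    unfold AJ
    exact (Finset.sum_inter_add_sum_sdiff J U fun j => sy R j v).symm
  rw [h2, h1, zero_add]

/-- the set of equations `U` is closed with respect to `I` -/
def Clo (R : ι → Fin (8 * g) → V) (r : ℕ) (I : Finset V) (U : Finset ι) : Prop :=
  ∀ J : Finset ι, J.Nonempty → Disjoint J U → J.card ≤ r →
    5 * g * J.card < (nb R J \ (I ∪ nb R U)).card

lemma supp_out {I : Finset V} {U : Finset ι} (hC : Clo R r I U) {J : Finset ι}
    (hJ : J.card ≤ r) : 2 * g * (J \ U).card ≤ (supp (sy R) J \ (I ∪ nb R U)).card := by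
  rcases (J \ U).eq_empty_or_nonempty with h0 | h0
  · rw [h0]
    simp
  have h1 := hC (J \ U) h0 Finset.sdiff_disjoint
    ((Finset.card_le_card Finset.sdiff_subset).trans hJ)
  have h2 := two_nb_out (R := R) (J \ U) (I ∪ nb R U)
  have h3 : supp (sy R) (J \ U) \ (I ∪ nb R U) ⊆ supp (sy R) J \ (I ∪ nb R U) := by
    intro v hv
    rw [Finset.mem_sdiff] at hv ⊢
    refine ⟨?_, hv.2⟩
    unfold supp at hv ⊢
    rw [Finset.mem_filter] at hv ⊢
    refine ⟨mem_univ _, ?_⟩
    rw [AJ_out (U := U) fun h => hv.2 (Finset.mem_union_right _ h)]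
    exact hv.1.2
  have h4 := Finset.card_le_card h3
  have h5 : 5 * g * (J \ U).card = 5 * (g * (J \ U).card) := by ring
  have h6 : 8 * g * (J \ U).card = 8 * (g * (J \ U).card) := by ring
  have h7 : 2 * g * (J \ U).card = 2 * (g * (J \ U).card) := by ring
  rw [h5] at h1
  rw [h6] at h2
  rw [h7]
  omega

/-- the error -/
noncomputable def th (ι : Type*) [Fintype ι] [DecidableEq ι] (g r : ℕ) : ℝ :=
  (Fam ι r).card * (1 / 2) ^ (g * r)

lemma th_nonneg : 0 ≤ th ι g r := by
  unfold th
  positivity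

/-- the statement of the induction -/
def Bd (R : ι → Fin (8 * g) → V) (b : ι → ZMod 2) (r : ℕ) (I : Finset V) (U : Finset ι)
    (X Y : Finset (V → Bk)) : Prop :=
  -(th ι g r * 2 ^ I.card * 1024 ^ (univ \ (I ∪ nb R U)).card *
    (Real.sqrt X.card * Real.sqrt Y.card)) ≤ ∑ x ∈ X, ∑ y ∈ Y, Dr (sy R) b r x y

lemma xy_le {X Y : Finset (V → Bk)} {I : Finset V} (hX : Cst X I) (hY : Cst Y I) :
    (X.card : ℝ) * Y.card ≤
      1024 ^ (univ \ I).card * (Real.sqrt X.card * Real.sqrt Y.card) := by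
  have h1 : (X.card : ℝ) ≤ 1024 ^ (univ \ I).card := by exact_mod_cast hX.card_le
  have h2 : (Y.card : ℝ) ≤ 1024 ^ (univ \ I).card := by exact_mod_cast hY.card_le
  have h3 : Real.sqrt X.card * Real.sqrt Y.card ≤ 1024 ^ (univ \ I).card := by
    rw [← Real.sqrt_mul (Nat.cast_nonneg _)]
    refine Real.sqrt_le_iff.mpr ⟨by positivity, ?_⟩
    rw [sq]
    exact mul_le_mul h1 h2 (Nat.cast_nonneg _) (by positivity)
  have h4 : (X.card : ℝ) * Y.card = (Real.sqrt X.card * Real.sqrt Y.card) *
      (Real.sqrt X.card * Real.sqrt Y.card) := by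
    have h5 : Real.sqrt X.card * Real.sqrt X.card = X.card := Real.mul_self_sqrt (Nat.cast_nonneg _)
    have h6 : Real.sqrt Y.card * Real.sqrt Y.card = Y.card := Real.mul_self_sqrt (Nat.cast_nonneg _)
    calc (X.card : ℝ) * Y.card =
        (Real.sqrt X.card * Real.sqrt X.card) * (Real.sqrt Y.card * Real.sqrt Y.card) := by
          rw [h5, h6]
      _ = _ := by ring
  rw [h4]
  exact mul_le_mul_of_nonneg_right h3 (by positivity)

/-- it is enough to bound the absolute value by the measure of the rectangle -/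
lemma Bd.of_abs {I : Finset V} {U : Finset ι} {X Y : Finset (V → Bk)}
    (hX : Cst X (I ∪ nb R U)) (hY : Cst Y (I ∪ nb R U))
    (h : |∑ x ∈ X, ∑ y ∈ Y, Dr (sy R) b r x y| ≤ th ι g r * 2 ^ I.card * (X.card * Y.card)) :
    Bd R b r I U X Y := by
  unfold Bd
  have h1 := xy_le hX hY
  have h2 := mul_le_mul_of_nonneg_left h1
    (show 0 ≤ th ι g r * 2 ^ I.card from mul_nonneg th_nonneg (by positivity))
  have h3 := (abs_le.mp h).1
  have h4 : th ι g r * 2 ^ I.card * (1024 ^ (univ \ (I ∪ nb R U)).card *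
      (Real.sqrt X.card * Real.sqrt Y.card)) = th ι g r * 2 ^ I.card *
      1024 ^ (univ \ (I ∪ nb R U)).card * (Real.sqrt X.card * Real.sqrt Y.card) := by ring
  rw [h4] at h2
  linarith

lemma abs_Dr (x y : V → Bk) : |Dr (sy R) b r x y| ≤ (Fam ι r).card := by
  unfold Dr
  refine (Finset.abs_sum_le_sum_abs _ _).trans ?_
  rw [Finset.sum_congr rfl fun J _ => abs_eps J x y]
  simp

/-- many blocks are fixed -/
lemma leaf_far {I : Finset V} {U : Finset ι} {X Y : Finset (V → Bk)}
    (hX : Cst X (I ∪ nb R U)) (hY : Cst Y (I ∪ nb R U)) (hI : g * r ≤ I.card) :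
    Bd R b r I U X Y := by
  refine Bd.of_abs hX hY ?_
  have h1 : |∑ x ∈ X, ∑ y ∈ Y, Dr (sy R) b r x y| ≤ X.card * Y.card * (Fam ι r).card := by
    refine (Finset.abs_sum_le_sum_abs _ _).trans ?_
    refine (Finset.sum_le_sum (g := fun _ => (Y.card : ℝ) * (Fam ι r).card) fun x _ => ?_).trans ?_
    · refine (Finset.abs_sum_le_sum_abs _ _).trans ?_
      refine (Finset.sum_le_sum fun y _ => abs_Dr (R := R) (b := b) (r := r) x y).trans ?_
      rw [Finset.sum_const, nsmul_eq_mul]
    · rw [Finset.sum_const, nsmul_eq_mul, mul_assoc]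
  refine h1.trans ?_
  have h2 : ((Fam ι r).card : ℝ) ≤ th ι g r * 2 ^ I.card := by
    unfold th
    have h3 : (2 : ℝ) ^ (g * r) ≤ 2 ^ I.card := pow_le_pow_right₀ (by norm_num) hI
    have h4 : ((1 : ℝ) / 2) ^ (g * r) * 2 ^ (g * r) = 1 := by
      rw [← mul_pow]
      norm_num
    have h5 : (0 : ℝ) ≤ ((Fam ι r).card : ℝ) * (1 / 2) ^ (g * r) := by positivity
    calc ((Fam ι r).card : ℝ) = (Fam ι r).card * ((1 / 2) ^ (g * r) * 2 ^ (g * r)) := by
          rw [h4, mul_one]
      _ = (Fam ι r).card * (1 / 2) ^ (g * r) * 2 ^ (g * r) := by ring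
      _ ≤ _ := mul_le_mul_of_nonneg_left h3 h5
  calc (X.card : ℝ) * Y.card * (Fam ι r).card = (Fam ι r).card * (X.card * Y.card) := by ring
    _ ≤ _ := mul_le_mul_of_nonneg_right h2 (by positivity)

lemma card_U {I : Finset V} {U : Finset ι}
    (hE : ∀ U : Finset ι, U.card ≤ 2 * r → 7 * g * U.card ≤ (nb R U).card)
    (hU : U.card ≤ 2 * r) (hG : (nb R U \ I).card ≤ 5 * g * U.card) (hI : I.card < g * r) :
    2 * U.card < r := by
  have h1 := hE U hU
  have h2 : (nb R U).card ≤ (nb R U \ I).card + I.card := by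
    have := Finset.card_le_card (show nb R U ⊆ (nb R U \ I) ∪ I by
      intro v hv
      by_cases h : v ∈ I <;> simp [h, hv])
    exact this.trans (Finset.card_union_le _ _)
  have h3 : 7 * g * U.card = 7 * (g * U.card) := by ring
  have h4 : 5 * g * U.card = 5 * (g * U.card) := by ring
  rw [h3] at h1
  rw [h4] at hG
  have h5 : g * (2 * U.card) < g * r := by
    have : g * (2 * U.card) = 2 * (g * U.card) := by ring
    omega
  exact Nat.lt_of_mul_lt_mul_left h5

lemma sum_pow_sdiff (U : Finset ι) (z : ℝ) :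
    ∑ J : Finset ι, z ^ (J \ U).card = 2 ^ U.card * (1 + z) ^ (univ \ U).card := by
  have h1 := Finset.prod_add (fun i : ι => if i ∈ U then (1 : ℝ) else z) (fun _ => 1) univ
  have h2 : ∏ i : ι, ((if i ∈ U then (1 : ℝ) else z) + 1) =
      2 ^ U.card * (1 + z) ^ (univ \ U).card := by
    rw [← Finset.prod_sdiff (Finset.subset_univ U), mul_comm]
    congr 1
    · rw [Finset.prod_congr rfl (g := fun _ => (2 : ℝ)), Finset.prod_const]
      intro i hi
      rw [if_pos hi]
      norm_num
    · rw [Finset.prod_congr rfl (g := fun _ => 1 + z), Finset.prod_const]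
      intro i hi
      rw [if_neg (Finset.mem_sdiff.mp hi).2, add_comm]
  rw [← h2, h1]
  rw [← Finset.powerset_univ]
  refine Finset.sum_congr rfl fun J _ => ?_
  rw [Finset.prod_const_one, mul_one, ← Finset.prod_sdiff (Finset.inter_subset_left (s₂ := U)),
    Finset.prod_congr (s₂ := J \ U) (g := fun _ => z) (Finset.sdiff_inter_self_left J U) ?_,
    Finset.prod_const,
    Finset.prod_congr (s₂ := J ∩ U) (g := fun _ => (1 : ℝ)) rfl ?_, Finset.prod_const_one, mul_one]
  · intro i hi
    rw [if_pos (Finset.mem_inter.mp hi).2]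
  · intro i hi
    rw [if_neg (Finset.mem_sdiff.mp hi).2]

lemma eps_single {U : Finset ι} {i : ι} (hi : i ∈ U) {X Y : Finset (V → Bk)} {I : Finset V}
    (hX : Cst X (I ∪ nb R U)) (hY : Cst Y (I ∪ nb R U)) {x x' y y' : V → Bk} (hx : x ∈ X)
    (hx' : x' ∈ X) (hy : y ∈ Y) (hy' : y' ∈ Y) :
    eps (sy R) b {i} x y = eps (sy R) b {i} x' y' := by
  rw [eps_chi, eps_chi]
  congr 1
  unfold chi
  refine Finset.prod_congr rfl fun v hv => ?_
  have h1 : v ∈ I ∪ nb R U := by
    refine Finset.mem_union_right _ ?_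
    have h2 := supp_sub_nb _ hv
    unfold nb at h2 ⊢
    exact Finset.biUnion_subset_biUnion_of_subset_left _ (Finset.singleton_subset_iff.mpr hi) h2
  rw [hX x hx x' hx' v h1, hY y hy y' hy' v h1]

lemma corr_leaf {I : Finset V} {U : Finset ι} {X Y : Finset (V → Bk)}
    (hX : Cst X (I ∪ nb R U)) (hY : Cst Y (I ∪ nb R U)) (hC : Clo R r I U)
    (hdX : Dns X (I ∪ nb R U)) (hdY : Dns Y (I ∪ nb R U)) {J : Finset ι} (hJ : J.card ≤ r) :
    |∑ x ∈ X, ∑ y ∈ Y, eps (sy R) b J x y| ≤
      X.card * Y.card * ((1 / 2) ^ (2 * g)) ^ (J \ U).card := by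
  refine (corr_dense (A := sy R) (b := b) hX hY hdX hdY J).trans ?_
  refine mul_le_mul_of_nonneg_left ?_ (by positivity)
  rw [← pow_mul]
  exact pow_le_pow_of_le_one (by norm_num) (by norm_num) (supp_out hC hJ)

lemma swap3 {α β γ : Type*} (F : Finset α) (X : Finset β) (Y : Finset γ) (f : α → β → γ → ℝ) :
    ∑ x ∈ X, ∑ y ∈ Y, ∑ J ∈ F, f J x y = ∑ J ∈ F, ∑ x ∈ X, ∑ y ∈ Y, f J x y := by
  rw [Finset.sum_comm (s := F)]
  refine Finset.sum_congr rfl fun x _ => ?_
  exact Finset.sum_comm

/-- dense rectangles and closed sets of equations -/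
lemma leaf_dense {I : Finset V} {U : Finset ι} {X Y : Finset (V → Bk)}
    (hX : Cst X (I ∪ nb R U)) (hY : Cst Y (I ∪ nb R U)) (hC : Clo R r I U)
    (hdX : Dns X (I ∪ nb R U)) (hdY : Dns Y (I ∪ nb R U)) (hU : 2 * U.card ≤ r)
    (hz : (1 + (1 / 2 : ℝ) ^ (2 * g)) ^ Fintype.card ι ≤ 2) :
    Bd R b r I U X Y := by
  by_cases hin : ∃ i ∈ U, ∃ x0 ∈ X, ∃ y0 ∈ Y, eps (sy R) b {i} x0 y0 = -1
  · -- an equation is violated
    obtain ⟨i0, hi0, x0, hx0, y0, hy0, h0⟩ := hin
    refine Bd.of_abs hX hY ?_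
    have h1 : ∀ x ∈ X, ∀ y ∈ Y, Dr (sy R) b r x y =
        ∑ J ∈ (Fam ι r).filter (fun J => i0 ∉ J ∧ J.card = r), eps (sy R) b J x y := by
      intro x hx y hy
      refine Dr_tel ?_
      rw [eps_single hi0 hX hY hx hx0 hy hy0, h0]
    have h2 : ∑ x ∈ X, ∑ y ∈ Y, Dr (sy R) b r x y =
        ∑ J ∈ (Fam ι r).filter (fun J => i0 ∉ J ∧ J.card = r),
          ∑ x ∈ X, ∑ y ∈ Y, eps (sy R) b J x y := by
      rw [← swap3]
      exact Finset.sum_congr rfl fun x hx => Finset.sum_congr rfl fun y hy => h1 x hx y hy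
    rw [h2]
    refine (Finset.abs_sum_le_sum_abs _ _).trans ?_
    have h3 : ∀ J ∈ (Fam ι r).filter (fun J => i0 ∉ J ∧ J.card = r),
        |∑ x ∈ X, ∑ y ∈ Y, eps (sy R) b J x y| ≤ (1 / 2) ^ (g * r) * (X.card * Y.card) := by
      intro J hJ
      rw [Finset.mem_filter, mem_Fam] at hJ
      refine (corr_leaf hX hY hC hdX hdY hJ.1).trans ?_
      rw [mul_comm]
      refine mul_le_mul_of_nonneg_right ?_ (by positivity)
      rw [← pow_mul]
      refine pow_le_pow_of_le_one (by norm_num) (by norm_num) ?_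
      have h4 : r ≤ 2 * (J \ U).card := by
        have h5 := Finset.le_card_sdiff U J
        omega
      calc g * r ≤ g * (2 * (J \ U).card) := Nat.mul_le_mul_left _ h4
        _ = 2 * g * (J \ U).card := by ring
    refine (Finset.sum_le_sum h3).trans ?_
    rw [Finset.sum_const, nsmul_eq_mul]
    unfold th
    have h4 : (((Fam ι r).filter (fun J => i0 ∉ J ∧ J.card = r)).card : ℝ) ≤ (Fam ι r).card := by
      exact_mod_cast Finset.card_filter_le _ _
    have h5 : (1 : ℝ) ≤ 2 ^ I.card := one_le_pow₀ (by norm_num)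
    have h6 : (0 : ℝ) ≤ (1 / 2) ^ (g * r) * (X.card * Y.card) := by positivity
    have h7 : (0 : ℝ) ≤ (Fam ι r).card * ((1 / 2) ^ (g * r) * (X.card * Y.card)) := by positivity
    calc (((Fam ι r).filter (fun J => i0 ∉ J ∧ J.card = r)).card : ℝ) *
          ((1 / 2) ^ (g * r) * (X.card * Y.card)) ≤
        (Fam ι r).card * ((1 / 2) ^ (g * r) * (X.card * Y.card)) :=
          mul_le_mul_of_nonneg_right h4 h6
      _ ≤ (Fam ι r).card * ((1 / 2) ^ (g * r) * (X.card * Y.card)) * 2 ^ I.card :=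
          le_mul_of_one_le_right h7 h5
      _ = _ := by ring
  · -- all equations of `U` hold
    push Not at hin
    have h0 : ∀ J ⊆ U, ∀ x ∈ X, ∀ y ∈ Y, eps (sy R) b J x y = 1 := by
      intro J hJ x hx y hy
      refine eps_one fun i hi => ?_
      rcases eps_cases (A := sy R) (b := b) {i} x y with h | h
      · exact h
      · exact absurd h (hin i (hJ hi) x hx y hy)
    have h1 : ∑ x ∈ X, ∑ y ∈ Y, Dr (sy R) b r x y =
        ∑ J ∈ Fam ι r, ∑ x ∈ X, ∑ y ∈ Y, eps (sy R) b J x y := by
      rw [← swap3]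
      rfl
    have h2 : ∀ J ∈ Fam ι r, (if J ⊆ U then (1 : ℝ) else -((1 / 2) ^ (2 * g)) ^ (J \ U).card) *
        (X.card * Y.card) ≤ ∑ x ∈ X, ∑ y ∈ Y, eps (sy R) b J x y := by
      intro J hJ
      rw [mem_Fam] at hJ
      split_ifs with hJU
      · rw [Finset.sum_congr rfl fun x hx => Finset.sum_congr rfl fun y hy => h0 J hJU x hx y hy]
        simp
      · have := (abs_le.mp (corr_leaf (b := b) hX hY hC hdX hdY hJ)).1
        refine le_trans (le_of_eq ?_) this
        ring
    have h3 : (0 : ℝ) ≤ ∑ J ∈ Fam ι r,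
        (if J ⊆ U then (1 : ℝ) else -((1 / 2) ^ (2 * g)) ^ (J \ U).card) := by
      obtain ⟨z, hz'⟩ : ∃ z : ℝ, z = (1 / 2) ^ (2 * g) := ⟨_, rfl⟩
      rw [← hz'] at hz ⊢
      have hz0 : 0 ≤ z := by rw [hz']; positivity
      have h4 := sum_pow_sdiff U z
      have h5 : ∑ J : Finset ι, z ^ (J \ U).card =
          ∑ J ∈ univ.filter (fun J : Finset ι => J ⊆ U), (1 : ℝ) +
          ∑ J ∈ univ.filter (fun J : Finset ι => ¬ J ⊆ U), z ^ (J \ U).card := by
        rw [← Finset.sum_filter_add_sum_filter_not univ (fun J : Finset ι => J ⊆ U)]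
        congr 1
        refine Finset.sum_congr rfl fun J hJ => ?_
        rw [Finset.sdiff_eq_empty_iff_subset.mpr (Finset.mem_filter.mp hJ).2, Finset.card_empty,
          pow_zero]
      have h6 : (univ.filter fun J : Finset ι => J ⊆ U) = U.powerset := by
        ext J
        simp
      have h7 : ∑ J ∈ univ.filter (fun J : Finset ι => J ⊆ U), (1 : ℝ) = 2 ^ U.card := by
        rw [h6, Finset.sum_const, Finset.card_powerset]
        simp
      have h8 : (1 + z) ^ (univ \ U).card ≤ 2 := by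
        refine le_trans ?_ hz
        refine pow_le_pow_right₀ (by linarith) ?_
        rw [← Finset.card_univ]
        exact Finset.card_le_card Finset.sdiff_subset
      have h9 : ∑ J ∈ univ.filter (fun J : Finset ι => ¬ J ⊆ U), z ^ (J \ U).card ≤
          2 ^ U.card := by
        have h10 : (2 : ℝ) ^ U.card * (1 + z) ^ (univ \ U).card ≤ 2 ^ U.card * 2 :=
          mul_le_mul_of_nonneg_left h8 (by positivity)
        rw [h7] at h5
        linarith
      rw [← Finset.sum_filter_add_sum_filter_not (Fam ι r) (fun J : Finset ι => J ⊆ U)]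
      have h11 : ∑ J ∈ (Fam ι r).filter (fun J => J ⊆ U),
          (if J ⊆ U then (1 : ℝ) else -z ^ (J \ U).card) = 2 ^ U.card := by
        rw [← h7]
        refine Finset.sum_congr ?_ fun J hJ => if_pos (Finset.mem_filter.mp hJ).2
        ext J
        rw [Finset.mem_filter, Finset.mem_filter, mem_Fam]
        constructor
        · rintro ⟨-, h⟩
          exact ⟨mem_univ _, h⟩
        · rintro ⟨-, h⟩
          have := Finset.card_le_card h
          exact ⟨by omega, h⟩
      have h12 : ∑ J ∈ (Fam ι r).filter (fun J => ¬ J ⊆ U),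
          (if J ⊆ U then (1 : ℝ) else -z ^ (J \ U).card) =
          -∑ J ∈ (Fam ι r).filter (fun J => ¬ J ⊆ U), z ^ (J \ U).card := by
        rw [← Finset.sum_neg_distrib]
        exact Finset.sum_congr rfl fun J hJ => if_neg (Finset.mem_filter.mp hJ).2
      have h13 : ∑ J ∈ (Fam ι r).filter (fun J => ¬ J ⊆ U), z ^ (J \ U).card ≤
          ∑ J ∈ univ.filter (fun J : Finset ι => ¬ J ⊆ U), z ^ (J \ U).card :=
        Finset.sum_le_sum_of_subset_of_nonneg
          (Finset.filter_subset_filter _ (Finset.subset_univ _)) fun _ _ _ => by positivity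
      rw [h11, h12]
      linarith
    unfold Bd
    have h4 : 0 ≤ ∑ x ∈ X, ∑ y ∈ Y, Dr (sy R) b r x y := by
      rw [h1]
      refine le_trans ?_ (Finset.sum_le_sum h2)
      rw [← Finset.sum_mul]
      exact mul_nonneg h3 (by positivity)
    have h5 : 0 ≤ th ι g r * 2 ^ I.card * 1024 ^ (univ \ (I ∪ nb R U)).card *
        (Real.sqrt X.card * Real.sqrt Y.card) :=
      mul_nonneg (mul_nonneg (mul_nonneg th_nonneg (by positivity)) (by positivity))
        (by positivity)
    linarith

/-- splitting a set according to the blocks in `W` -/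
lemma split_sqrt (Y : Finset (V → Bk)) (W : Finset V) :
    ∑ β ∈ rset W, Real.sqrt (Y.filter fun y => rs W y = β).card ≤ 32 ^ W.card * Real.sqrt Y.card := by
  have h1 := Finset.sum_mul_sq_le_sq_mul_sq (rset W) (fun _ => (1 : ℝ))
    (fun β => Real.sqrt (Y.filter fun y => rs W y = β).card)
  simp only [one_mul, one_pow] at h1
  have h2 : ∑ β ∈ rset W, Real.sqrt (Y.filter fun y => rs W y = β).card ^ 2 = Y.card := by
    rw [Finset.sum_congr rfl fun β _ => Real.sq_sqrt (Nat.cast_nonneg _)]
    rw [← Nat.cast_sum]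
    congr 1
    rw [← Finset.card_eq_sum_card_fiberwise fun x _ => rs_mem W x]
  rw [h2, Finset.sum_const, rset_card, nsmul_eq_mul, mul_one] at h1
  refine (le_abs_self _).trans (abs_le_of_sq_le_sq ?_ (by positivity))
  refine h1.trans (le_of_eq ?_)
  rw [mul_pow, Real.sq_sqrt (Nat.cast_nonneg _), ← pow_mul, mul_comm W.card 2, pow_mul]
  push_cast
  norm_num

/-- the sum over a set as a sum over the parts -/
lemma sum_split (Y : Finset (V → Bk)) (W : Finset V) (f : (V → Bk) → ℝ) :
    ∑ y ∈ Y, f y = ∑ β ∈ rset W, ∑ y ∈ Y.filter (fun y => rs W y = β), f y :=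
  (Finset.sum_fiberwise_of_maps_to (g := rs W) (t := rset W) (fun x _ => rs_mem W x) f).symm

lemma Cst.split {X : Finset (V → Bk)} {I W : Finset V} (h : Cst X I) (β : V → Bk) :
    Cst (X.filter fun x => rs W x = β) (I ∪ W) := by
  intro x hx x' hx' v hv
  rw [Finset.mem_filter] at hx hx'
  rcases Finset.mem_union.mp hv with hv | hv
  · exact h x hx.1 x' hx'.1 v hv
  · exact rs_eq.mp (hx.2.trans hx'.2.symm) v hv

/-- the closure step -/
lemma step_clo {I : Finset V} {U J : Finset ι} {X Y : Finset (V → Bk)}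
    (hIH : ∀ α β, Bd R b r I (U ∪ J) (X.filter fun x => rs (nb R J \ (I ∪ nb R U)) x = α)
      (Y.filter fun y => rs (nb R J \ (I ∪ nb R U)) y = β)) : Bd R b r I U X Y := by
  obtain ⟨W, hW⟩ : ∃ W, W = nb R J \ (I ∪ nb R U) := ⟨_, rfl⟩
  rw [← hW] at hIH
  obtain ⟨d, hd⟩ : ∃ d, d = (univ \ (I ∪ nb R (U ∪ J))).card := ⟨_, rfl⟩
  have hdW : (univ \ (I ∪ nb R U)).card = d + W.card := by
    rw [hd, nb_union, ← Finset.card_union_of_disjoint]
    · congr 1
      ext v
      rw [hW]
      simp only [Finset.mem_sdiff, Finset.mem_univ, true_and, Finset.mem_union]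
      tauto
    · rw [Finset.disjoint_left]
      intro v hv hv'
      rw [hW] at hv'
      simp only [Finset.mem_sdiff, Finset.mem_univ, true_and, Finset.mem_union] at hv hv'
      tauto
  unfold Bd at hIH ⊢
  rw [sum_split X W]
  have h1 : ∀ x, ∑ y ∈ Y, Dr (sy R) b r x y =
      ∑ β ∈ rset W, ∑ y ∈ Y.filter (fun y => rs W y = β), Dr (sy R) b r x y :=
    fun x => sum_split Y W _
  have h2 : ∑ α ∈ rset W, ∑ x ∈ X.filter (fun x => rs W x = α), ∑ y ∈ Y, Dr (sy R) b r x y =
      ∑ α ∈ rset W, ∑ β ∈ rset W, ∑ x ∈ X.filter (fun x => rs W x = α),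
        ∑ y ∈ Y.filter (fun y => rs W y = β), Dr (sy R) b r x y := by
    refine Finset.sum_congr rfl fun α _ => ?_
    rw [Finset.sum_congr rfl fun x _ => h1 x, Finset.sum_comm]
  rw [h2]
  obtain ⟨E, hE⟩ : ∃ E : ℝ, E = th ι g r * 2 ^ I.card * 1024 ^ d := ⟨_, rfl⟩
  have hE0 : 0 ≤ E := by
    rw [hE]
    exact mul_nonneg (mul_nonneg th_nonneg (by positivity)) (by positivity)
  have h3 : -(E * ((∑ α ∈ rset W, Real.sqrt (X.filter fun x => rs W x = α).card) *
      ∑ β ∈ rset W, Real.sqrt (Y.filter fun y => rs W y = β).card)) ≤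
      ∑ α ∈ rset W, ∑ β ∈ rset W, ∑ x ∈ X.filter (fun x => rs W x = α),
        ∑ y ∈ Y.filter (fun y => rs W y = β), Dr (sy R) b r x y := by
    rw [Finset.sum_mul_sum, Finset.mul_sum, ← Finset.sum_neg_distrib]
    refine Finset.sum_le_sum fun α _ => ?_
    rw [Finset.mul_sum, ← Finset.sum_neg_distrib]
    refine Finset.sum_le_sum fun β _ => ?_
    have := hIH α β
    rw [← hd] at this
    rw [hE]
    exact this
  refine le_trans (neg_le_neg ?_) h3
  have h4 : (∑ α ∈ rset W, Real.sqrt (X.filter fun x => rs W x = α).card) *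
      (∑ β ∈ rset W, Real.sqrt (Y.filter fun y => rs W y = β).card) ≤
      (32 ^ W.card * Real.sqrt X.card) * (32 ^ W.card * Real.sqrt Y.card) :=
    mul_le_mul (split_sqrt X W) (split_sqrt Y W)
      (Finset.sum_nonneg fun _ _ => Real.sqrt_nonneg _) (by positivity)
  refine (mul_le_mul_of_nonneg_left h4 hE0).trans (le_of_eq ?_)
  rw [hE, hdW, pow_add]
  have h5 : (1024 : ℝ) ^ W.card = 32 ^ W.card * 32 ^ W.card := by rw [← mul_pow]; norm_num
  rw [h5]
  ring

lemma sqrt_ineq {x a : ℝ} {s : ℕ} (ha : 0 ≤ a) (hax : a ≤ x) (h : x < 64 ^ s * a) (hs : 1 ≤ s) :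
    (1 / 16) ^ s * Real.sqrt a + Real.sqrt (x - a) ≤ Real.sqrt x := by
  have hx0 : 0 ≤ x := ha.trans hax
  obtain ⟨p, hp⟩ : ∃ p, p = Real.sqrt x := ⟨_, rfl⟩
  obtain ⟨q, hq⟩ : ∃ q, q = Real.sqrt (x - a) := ⟨_, rfl⟩
  obtain ⟨u, hu⟩ : ∃ u, u = Real.sqrt a := ⟨_, rfl⟩
  have hp2 : p * p = x := by rw [hp]; exact Real.mul_self_sqrt hx0
  have hq2 : q * q = x - a := by rw [hq]; exact Real.mul_self_sqrt (by linarith)
  have hu2 : u * u = a := by rw [hu]; exact Real.mul_self_sqrt ha
  have hp0 : 0 ≤ p := by rw [hp]; exact Real.sqrt_nonneg _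
  have hq0 : 0 ≤ q := by rw [hq]; exact Real.sqrt_nonneg _
  have hu0 : 0 ≤ u := by rw [hu]; exact Real.sqrt_nonneg _
  rw [← hp, ← hq, ← hu]
  have hapos : 0 < a := by
    by_contra hcon
    have : a = 0 := by linarith
    rw [this, mul_zero] at h
    linarith
  have hupos : 0 < u := by
    rw [hu]
    exact Real.sqrt_pos.mpr hapos
  have h64 : (64 : ℝ) ^ s = 8 ^ s * 8 ^ s := by rw [← mul_pow]; norm_num
  have h8 : (0 : ℝ) < 8 ^ s := by positivity
  have hp8 : p < 8 ^ s * u := by
    by_contra hcon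
    push Not at hcon
    have : (8 ^ s * u) * (8 ^ s * u) ≤ p * p := mul_self_le_mul_self (by positivity) hcon
    rw [hp2] at this
    have h1 : (8 ^ s * u) * (8 ^ s * u) = 64 ^ s * a := by rw [h64, ← hu2]; ring
    linarith
  have hqp : q ≤ p := by
    rw [hp, hq]
    exact Real.sqrt_le_sqrt (by linarith)
  obtain ⟨c, hc⟩ : ∃ c : ℝ, c = (1 / 16) ^ s := ⟨_, rfl⟩
  have hc0 : 0 < c := by rw [hc]; positivity
  have hc8 : c * (2 * 8 ^ s) ≤ 1 := by
    rw [hc]
    have h1 : ((1 : ℝ) / 16) ^ s * (2 * 8 ^ s) = 2 * (1 / 2) ^ s := by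
      have : ((1 : ℝ) / 16) ^ s * 8 ^ s = (1 / 2) ^ s := by rw [← mul_pow]; norm_num
      calc ((1 : ℝ) / 16) ^ s * (2 * 8 ^ s) = 2 * (((1 : ℝ) / 16) ^ s * 8 ^ s) := by ring
        _ = _ := by rw [this]
    rw [h1]
    have h2 : ((1 : ℝ) / 2) ^ s ≤ (1 / 2) ^ 1 :=
      pow_le_pow_of_le_one (by norm_num) (by norm_num) hs
    linarith
  rw [← hc]
  by_contra hcon
  push Not at hcon
  have h1 : p - q < c * u := by linarith
  have h2 : (p - q) * (p + q) = u * u := by rw [hu2]; linarith [mul_self_nonneg p]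
  have h3 : (p - q) * (p + q) ≤ (p - q) * (2 * p) :=
    mul_le_mul_of_nonneg_left (by linarith) (by linarith)
  have hppos : 0 < p := by
    rw [hp]
    exact Real.sqrt_pos.mpr (lt_of_lt_of_le hapos hax)
  have h4 : (p - q) * (2 * p) < (c * u) * (2 * p) := mul_lt_mul_of_pos_right h1 (by linarith)
  have h5 : (c * u) * (2 * p) ≤ (c * u) * (2 * (8 ^ s * u)) :=
    mul_le_mul_of_nonneg_left (by linarith) (by positivity)
  have h6 : (c * u) * (2 * (8 ^ s * u)) = (c * (2 * 8 ^ s)) * (u * u) := by ring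
  have h7 : (c * (2 * 8 ^ s)) * (u * u) ≤ 1 * (u * u) :=
    mul_le_mul_of_nonneg_right hc8 (by positivity)
  linarith

/-- the density step -/
lemma step_dns {I S : Finset V} {U : Finset ι} {X Y : Finset (V → Bk)} (x0 : V → Bk)
    (hS : Disjoint S (I ∪ nb R U)) (hS1 : 1 ≤ S.card)
    (hbig : X.card < 64 ^ S.card * (X.filter fun x => rs S x = rs S x0).card)
    (h1 : ∀ β, Bd R b r (I ∪ S) U (X.filter fun x => rs S x = rs S x0)
      (Y.filter fun y => rs S y = β))
    (h2 : Bd R b r I U (X.filter fun x => ¬ rs S x = rs S x0) Y) : Bd R b r I U X Y := by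
  obtain ⟨X1, hX1⟩ : ∃ X1, X1 = X.filter fun x => rs S x = rs S x0 := ⟨_, rfl⟩
  obtain ⟨X2, hX2⟩ : ∃ X2, X2 = X.filter fun x => ¬ rs S x = rs S x0 := ⟨_, rfl⟩
  rw [← hX1] at hbig h1
  rw [← hX2] at h2
  have hcard : X1.card + X2.card = X.card := by
    rw [hX1, hX2]
    exact Finset.card_filter_add_card_filter_not _
  have hIS : (I ∪ S).card = I.card + S.card := by
    refine Finset.card_union_of_disjoint ?_
    exact (Finset.disjoint_of_subset_right Finset.subset_union_left hS).symm
  obtain ⟨d, hd⟩ : ∃ d, d = (univ \ (I ∪ S ∪ nb R U)).card := ⟨_, rfl⟩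
  have hdS : (univ \ (I ∪ nb R U)).card = d + S.card := by
    rw [hd, ← Finset.card_union_of_disjoint]
    · congr 1
      ext v
      have := fun h : v ∈ S => Finset.disjoint_left.mp hS h
      simp only [Finset.mem_sdiff, Finset.mem_univ, true_and, Finset.mem_union] at this ⊢
      tauto
    · rw [Finset.disjoint_left]
      intro v hv hv'
      simp only [Finset.mem_sdiff, Finset.mem_univ, true_and, Finset.mem_union] at hv
      tauto
  unfold Bd at h1 h2 ⊢
  have hs1 : ∑ x ∈ X, ∑ y ∈ Y, Dr (sy R) b r x y =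
      ∑ x ∈ X1, ∑ y ∈ Y, Dr (sy R) b r x y + ∑ x ∈ X2, ∑ y ∈ Y, Dr (sy R) b r x y := by
    rw [hX1, hX2]
    exact (Finset.sum_filter_add_sum_filter_not _ _ _).symm
  have hs2 : ∑ x ∈ X1, ∑ y ∈ Y, Dr (sy R) b r x y =
      ∑ β ∈ rset S, ∑ x ∈ X1, ∑ y ∈ Y.filter (fun y => rs S y = β), Dr (sy R) b r x y := by
    rw [Finset.sum_congr rfl fun x _ => sum_split Y S _, Finset.sum_comm]
  rw [hs1, hs2]
  obtain ⟨E, hE⟩ : ∃ E : ℝ, E = th ι g r * 2 ^ I.card := ⟨_, rfl⟩
  have hE0 : 0 ≤ E := by
    rw [hE]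
    exact mul_nonneg th_nonneg (by positivity)
  have h3 : -(E * 2 ^ S.card * 1024 ^ d * (Real.sqrt X1.card *
      ∑ β ∈ rset S, Real.sqrt (Y.filter fun y => rs S y = β).card)) ≤
      ∑ β ∈ rset S, ∑ x ∈ X1, ∑ y ∈ Y.filter (fun y => rs S y = β), Dr (sy R) b r x y := by
    rw [Finset.mul_sum, Finset.mul_sum, ← Finset.sum_neg_distrib]
    refine Finset.sum_le_sum fun β _ => ?_
    have := h1 β
    rw [← hd, hIS, pow_add] at this
    rw [hE]
    refine le_trans (le_of_eq ?_) this
    ring
  have h4 := split_sqrt Y S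
  have h5 : E * 2 ^ S.card * 1024 ^ d * (Real.sqrt X1.card *
      ∑ β ∈ rset S, Real.sqrt (Y.filter fun y => rs S y = β).card) ≤
      E * 2 ^ S.card * 1024 ^ d * (Real.sqrt X1.card * (32 ^ S.card * Real.sqrt Y.card)) :=
    mul_le_mul_of_nonneg_left (mul_le_mul_of_nonneg_left h4 (Real.sqrt_nonneg _))
      (by positivity)
  have h6 : E * 2 ^ S.card * 1024 ^ d * (Real.sqrt X1.card * (32 ^ S.card * Real.sqrt Y.card)) =
      E * 1024 ^ (d + S.card) * Real.sqrt Y.card * ((1 / 16) ^ S.card * Real.sqrt X1.card) := by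
    have : (2 : ℝ) ^ S.card * 32 ^ S.card = 1024 ^ S.card * (1 / 16) ^ S.card := by
      rw [← mul_pow, ← mul_pow]
      norm_num
    rw [pow_add]
    calc E * 2 ^ S.card * 1024 ^ d * (Real.sqrt X1.card * (32 ^ S.card * Real.sqrt Y.card)) =
        E * 1024 ^ d * Real.sqrt X1.card * Real.sqrt Y.card * (2 ^ S.card * 32 ^ S.card) := by
          ring
      _ = E * 1024 ^ d * Real.sqrt X1.card * Real.sqrt Y.card *
          (1024 ^ S.card * (1 / 16) ^ S.card) := by rw [this]
      _ = _ := by ring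
  have h7 := sqrt_ineq (x := X.card) (a := X1.card) (s := S.card) (Nat.cast_nonneg _)
    (by exact_mod_cast (show X1.card ≤ X.card by omega)) (by exact_mod_cast hbig) hS1
  have h8 : (X.card : ℝ) - X1.card = X2.card := by
    rw [← hcard]
    push_cast
    ring
  rw [h8] at h7
  have h9 := mul_le_mul_of_nonneg_left h7
    (show 0 ≤ E * 1024 ^ (d + S.card) * Real.sqrt Y.card by positivity)
  rw [hdS, ← hE] at h2 ⊢
  have h10 : E * 1024 ^ (d + S.card) * Real.sqrt Y.card *
      ((1 / 16) ^ S.card * Real.sqrt X1.card + Real.sqrt X2.card) =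
      E * 1024 ^ (d + S.card) * Real.sqrt Y.card * ((1 / 16) ^ S.card * Real.sqrt X1.card) +
      E * 1024 ^ (d + S.card) * (Real.sqrt X2.card * Real.sqrt Y.card) := by ring
  have h11 : E * 1024 ^ (d + S.card) * Real.sqrt Y.card * Real.sqrt X.card =
      E * 1024 ^ (d + S.card) * (Real.sqrt X.card * Real.sqrt Y.card) := by ring
  linarith

lemma ipz_comm (u w : Bk) : ipz u w = ipz w u := by
  unfold ipz
  exact Finset.sum_congr rfl fun k _ => mul_comm _ _

lemma Dr_comm (x y : V → Bk) : Dr (sy R) b r x y = Dr (sy R) b r y x := by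
  unfold Dr eps
  refine Finset.sum_congr rfl fun J _ => ?_
  congr 2
  exact Finset.sum_congr rfl fun v _ => by rw [ipz_comm]

lemma Bd.symm {I : Finset V} {U : Finset ι} {X Y : Finset (V → Bk)} (h : Bd R b r I U X Y) :
    Bd R b r I U Y X := by
  unfold Bd at h ⊢
  rw [Finset.sum_comm, mul_comm (Real.sqrt Y.card)]
  refine h.trans (le_of_eq ?_)
  exact Finset.sum_congr rfl fun x _ => Finset.sum_congr rfl fun y _ => Dr_comm x y

/-- every rectangle has almost nonnegative pseudo-measure -/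
theorem proc
    (hE : ∀ U : Finset ι, U.card ≤ 2 * r → 7 * g * U.card ≤ (nb R U).card)
    (hz : (1 + (1 / 2 : ℝ) ^ (2 * g)) ^ Fintype.card ι ≤ 2) (n : ℕ) :
    ∀ (I : Finset V) (U : Finset ι) (X Y : Finset (V → Bk)),
      X.card + Y.card + (univ \ (I ∪ nb R U)).card + (univ \ U).card ≤ n → U.card ≤ 2 * r →
      (nb R U \ I).card ≤ 5 * g * U.card → Cst X (I ∪ nb R U) → Cst Y (I ∪ nb R U) →
      Bd R b r I U X Y := by
  induction n with
  | zero =>
    intro I U X Y hn hU hG hX hY
    have hX0 : X = ∅ := Finset.card_eq_zero.mp (by omega)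
    unfold Bd
    rw [hX0]
    simp
  | succ n ih =>
    -- the density step
    have key : ∀ (I : Finset V) (U : Finset ι) (X Y : Finset (V → Bk)),
        X.card + Y.card + (univ \ (I ∪ nb R U)).card + (univ \ U).card ≤ n + 1 →
        U.card ≤ 2 * r → (nb R U \ I).card ≤ 5 * g * U.card → Cst X (I ∪ nb R U) →
        Cst Y (I ∪ nb R U) → ¬ Dns X (I ∪ nb R U) → Bd R b r I U X Y := by
      intro I U X Y hn hU hG hX hY hd
      unfold Dns at hd
      push Not at hd
      obtain ⟨S, hS, x0, hx0, hbig⟩ := hd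
      have hX1 : 1 ≤ (X.filter fun x => rs S x = rs S x0).card :=
        Finset.card_pos.mpr ⟨x0, Finset.mem_filter.mpr ⟨hx0, rfl⟩⟩
      have hS1 : 1 ≤ S.card := by
        by_contra hcon
        have : S.card = 0 := by omega
        rw [this, pow_zero, one_mul] at hbig
        exact absurd hbig (not_lt.mpr (Finset.card_filter_le _ _))
      have hcard : (X.filter fun x => rs S x = rs S x0).card +
          (X.filter fun x => ¬ rs S x = rs S x0).card = X.card :=
        Finset.card_filter_add_card_filter_not _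
      refine step_dns x0 hS hS1 hbig ?_ ?_
      · intro β
        have hun : I ∪ S ∪ nb R U = (I ∪ nb R U) ∪ S := by
          ext v
          simp only [Finset.mem_union]
          tauto
        refine ih _ _ _ _ ?_ hU ?_ ?_ ?_
        · have h1 : (univ \ (I ∪ nb R U)).card = (univ \ (I ∪ S ∪ nb R U)).card + S.card := by
            rw [← Finset.card_union_of_disjoint]
            · congr 1
              ext v
              have := fun h : v ∈ S => Finset.disjoint_left.mp hS h
              simp only [Finset.mem_sdiff, Finset.mem_univ, true_and, Finset.mem_union] at this ⊢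
              tauto
            · rw [Finset.disjoint_left]
              intro v hv hv'
              simp only [Finset.mem_sdiff, Finset.mem_univ, true_and, Finset.mem_union] at hv
              tauto
          have h2 : (Y.filter fun y => rs S y = β).card ≤ Y.card := Finset.card_filter_le _ _
          omega
        · refine le_trans (Finset.card_le_card ?_) hG
          intro v hv
          rw [Finset.mem_sdiff] at hv ⊢
          exact ⟨hv.1, fun h => hv.2 (Finset.mem_union_left _ h)⟩
        · rw [hun]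
          exact hX.split _
        · rw [hun]
          exact hY.split _
      · exact ih _ _ _ _ (by omega) hU hG (hX.mono (Finset.filter_subset _ _)) hY
    intro I U X Y hn hU hG hX hY
    by_cases hI : g * r ≤ I.card
    · exact leaf_far hX hY hI
    push Not at hI
    have hU2 := card_U hE hU hG hI
    by_cases hC : Clo R r I U
    · by_cases hdX : Dns X (I ∪ nb R U)
      · by_cases hdY : Dns Y (I ∪ nb R U)
        · exact leaf_dense hX hY hC hdX hdY hU2.le hz
        · exact (key I U Y X (by omega) hU hG hY hX hdY).symm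
      · exact key I U X Y hn hU hG hX hY hdX
    · -- the closure step
      unfold Clo at hC
      push Not at hC
      obtain ⟨J, hJ, hJU, hJr, hJc⟩ := hC
      have hJ1 := hJ.card_pos
      refine step_clo (J := J) fun α β => ?_
      have hun : I ∪ nb R (U ∪ J) = (I ∪ nb R U) ∪ (nb R J \ (I ∪ nb R U)) := by
        rw [nb_union]
        ext v
        simp only [Finset.mem_union, Finset.mem_sdiff]
        tauto
      have hUJ : (U ∪ J).card = U.card + J.card := Finset.card_union_of_disjoint hJU.symm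
      refine ih _ _ _ _ ?_ (by omega) ?_ ?_ ?_
      · have h1 : (univ \ (I ∪ nb R (U ∪ J))).card ≤ (univ \ (I ∪ nb R U)).card := by
          refine Finset.card_le_card (Finset.sdiff_subset_sdiff (Finset.Subset.refl _) ?_)
          rw [hun]
          exact Finset.subset_union_left
        have h2 : (univ \ (U ∪ J)).card + J.card ≤ (univ \ U).card := by
          rw [← Finset.card_union_of_disjoint]
          · refine Finset.card_le_card ?_
            intro i hi
            rcases Finset.mem_union.mp hi with hi | hi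
            · simp only [Finset.mem_sdiff, Finset.mem_univ, true_and, Finset.mem_union] at hi ⊢
              tauto
            · simp only [Finset.mem_sdiff, Finset.mem_univ, true_and]
              exact fun h => Finset.disjoint_left.mp hJU hi h
          · rw [Finset.disjoint_left]
            intro i hi hi'
            simp only [Finset.mem_sdiff, Finset.mem_univ, true_and, Finset.mem_union] at hi
            tauto
        have h3 := Finset.card_filter_le X
          (fun x => rs (nb R J \ (I ∪ nb R U)) x = α)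
        have h4 := Finset.card_filter_le Y
          (fun y => rs (nb R J \ (I ∪ nb R U)) y = β)
        omega
      · rw [nb_union]
        have h1 : ((nb R U ∪ nb R J) \ I).card ≤
            (nb R U \ I).card + (nb R J \ (I ∪ nb R U)).card := by
          refine le_trans (Finset.card_le_card ?_) (Finset.card_union_le _ _)
          intro v hv
          simp only [Finset.mem_union, Finset.mem_sdiff] at hv ⊢
          tauto
        rw [hUJ]
        have h2 : 5 * g * (U.card + J.card) = 5 * g * U.card + 5 * g * J.card := by ring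
        omega
      · rw [hun]
        exact hX.split _
      · rw [hun]
        exact hY.split _

/-- the pseudo-measure of a rectangle -/
theorem rect
    (hE : ∀ U : Finset ι, U.card ≤ 2 * r → 7 * g * U.card ≤ (nb R U).card)
    (hz : (1 + (1 / 2 : ℝ) ^ (2 * g)) ^ Fintype.card ι ≤ 2) (X Y : Finset (V → Bk)) :
    -(th ι g r * 1024 ^ Fintype.card V * (Real.sqrt X.card * Real.sqrt Y.card)) ≤
      ∑ x ∈ X, ∑ y ∈ Y, Dr (sy R) b r x y := by
  have h := proc (b := b) hE hz _ ∅ ∅ X Y (le_refl _) (by simp) (by simp [nb])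
    (by intro x _ x' _ v hv; simp [nb] at hv) (by intro x _ x' _ v hv; simp [nb] at hv)
  unfold Bd at h
  have h1 : (univ \ (∅ ∪ nb R (∅ : Finset ι))).card = Fintype.card V := by
    simp [nb]
  rw [h1] at h
  simpa using h

end Pool.Agent.J4H24.CA
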