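import Pool.Agent.J4H24.CA.Ip

/-!
# The signs of sets of equations, and their correlations with rectangles
-/

namespace Pool.Agent.J4H24.CA

open Finset Pool.Agent.J4H24.PR Pool.Agent.J4H24.SA

set_option linter.unusedSectionVars false

variable {V ι : Type*} [Fintype V] [DecidableEq V] [Fintype ι] [DecidableEq ι]
  {A : ι → V → ZMod 2} {b : ι → ZMod 2}

/-- the sign of a set of equations -/
def eps (A : ι → V → ZMod 2) (b : ι → ZMod 2) (J : Finset ι) (x y : V → Bk) : ℝ :=
  sg ((∑ v, AJ A J v * ipz (x v) (y v)) + ∑ j ∈ J, b j)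

lemma eps_empty (x y : V → Bk) : eps A b ∅ x y = 1 := by
  simp [eps, AJ, sg_zero]

lemma eps_insert {i : ι} {J : Finset ι} (hi : i ∉ J) (x y : V → Bk) :
    eps A b (insert i J) x y = eps A b {i} x y * eps A b J x y := by
  unfold eps
  rw [← sg_add, Finset.sum_insert hi, Finset.sum_singleton]
  congr 1
  have h : ∀ v, AJ A (insert i J) v = AJ A {i} v + AJ A J v := by
    intro v
    unfold AJ
    rw [Finset.sum_insert hi, Finset.sum_singleton]
  simp_rw [h, add_mul, Finset.sum_add_distrib]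
  ring

lemma eps_cases (J : Finset ι) (x y : V → Bk) : eps A b J x y = 1 ∨ eps A b J x y = -1 :=
  sg_cases _

lemma abs_eps (J : Finset ι) (x y : V → Bk) : |eps A b J x y| = 1 := by
  rcases eps_cases (A := A) (b := b) J x y with h | h <;> rw [h] <;> simp

lemma eps_one {J : Finset ι} {x y : V → Bk} (h : ∀ i ∈ J, eps A b {i} x y = 1) :
    eps A b J x y = 1 := by
  induction J using Finset.induction_on with
  | empty => exact eps_empty x y
  | insert a s ha ih =>
    rw [eps_insert ha, h a (Finset.mem_insert_self _ _),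
      ih fun i hi => h i (Finset.mem_insert_of_mem hi), one_mul]

lemma eps_chi (J : Finset ι) (x y : V → Bk) :
    eps A b J x y = sg (∑ j ∈ J, b j) * chi (supp A J) x y := by
  unfold eps chi
  rw [sg_add, sg_sum, mul_comm]
  congr 1
  unfold supp
  rw [Finset.prod_filter]
  refine Finset.prod_congr rfl fun v _ => ?_
  rcases zmod2_cases (AJ A J v) with h | h
  · rw [h]
    simp [sg_zero]
  · rw [h]
    simp

/-- the pseudo-density -/
def Dr (A : ι → V → ZMod 2) (b : ι → ZMod 2) (r : ℕ) (x y : V → Bk) : ℝ :=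
  ∑ J ∈ Fam ι r, eps A b J x y

/-- the telescoping sum -/
lemma Dr_tel {r : ℕ} {i0 : ι} {x y : V → Bk} (h : eps A b {i0} x y = -1) :
    Dr A b r x y = ∑ J ∈ (Fam ι r).filter (fun J => i0 ∉ J ∧ J.card = r), eps A b J x y := by
  unfold Dr
  have h1 : Fam ι r = (((Fam ι r).filter fun J => i0 ∈ J) ∪
      ((Fam ι r).filter fun J => i0 ∉ J ∧ J.card < r)) ∪
      ((Fam ι r).filter fun J => i0 ∉ J ∧ J.card = r) := by
    ext J
    simp only [Finset.mem_union, Finset.mem_filter, mem_Fam]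
    constructor
    · intro hJ
      by_cases hi : i0 ∈ J
      · exact Or.inl (Or.inl ⟨hJ, hi⟩)
      · rcases hJ.lt_or_eq with hlt | heq
        · exact Or.inl (Or.inr ⟨hJ, hi, hlt⟩)
        · exact Or.inr ⟨hJ, hi, heq⟩
    · rintro ((⟨h2, -⟩ | ⟨h2, -⟩) | ⟨h2, -⟩) <;> exact h2
  conv_lhs => rw [h1]
  rw [Finset.sum_union, Finset.sum_union]
  · have h2 : ∑ J ∈ (Fam ι r).filter (fun J => i0 ∈ J), eps A b J x y =
        ∑ J ∈ (Fam ι r).filter (fun J => i0 ∉ J ∧ J.card < r), -eps A b J x y := by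
      refine Finset.sum_bij' (fun J _ => J.erase i0) (fun J _ => insert i0 J) ?_ ?_ ?_ ?_ ?_
      · intro J hJ
        rw [Finset.mem_filter, mem_Fam] at hJ ⊢
        have h3 := Finset.card_erase_of_mem hJ.2
        have h4 := Finset.card_pos.mpr ⟨i0, hJ.2⟩
        exact ⟨by omega, Finset.notMem_erase _ _, by omega⟩
      · intro J hJ
        rw [Finset.mem_filter, mem_Fam] at hJ ⊢
        rw [Finset.card_insert_of_notMem hJ.2.1]
        exact ⟨by omega, Finset.mem_insert_self _ _⟩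
      · intro J hJ
        rw [Finset.mem_filter] at hJ
        exact Finset.insert_erase hJ.2
      · intro J hJ
        rw [Finset.mem_filter] at hJ
        exact Finset.erase_insert hJ.2.1
      · intro J hJ
        rw [Finset.mem_filter] at hJ
        conv_lhs => rw [← Finset.insert_erase hJ.2]
        rw [eps_insert (Finset.notMem_erase _ _), h]
        ring
    rw [h2, ← Finset.sum_add_distrib]
    simp
  · rw [Finset.disjoint_left]
    intro J h3 h4
    rw [Finset.mem_filter] at h3 h4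
    exact h4.2.1 h3.2
  · rw [Finset.disjoint_left]
    intro J h3 h4
    rw [Finset.mem_union, Finset.mem_filter, Finset.mem_filter] at h3
    rw [Finset.mem_filter] at h4
    rcases h3 with h3 | h3
    · exact h4.2.1 h3.2
    · have := h3.2.2
      omega

/-- all elements of `X` agree on `I` -/
def Cst (X : Finset (V → Bk)) (I : Finset V) : Prop := ∀ x ∈ X, ∀ x' ∈ X, ∀ v ∈ I, x v = x' v

lemma Cst.mono {X X' : Finset (V → Bk)} {I : Finset V} (h : Cst X I) (hX : X' ⊆ X) : Cst X' I :=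
  fun x hx x' hx' => h x (hX hx) x' (hX hx')

lemma Cst.card_le {X : Finset (V → Bk)} {I : Finset V} (h : Cst X I) :
    X.card ≤ 1024 ^ (univ \ I).card := by
  rw [← rset_card]
  refine Finset.card_le_card_of_injOn (rs (univ \ I)) (fun x _ => rs_mem _ x) ?_
  intro x hx x' hx' hxx
  funext v
  by_cases hv : v ∈ I
  · exact h x hx x' hx' v hv
  · exact rs_eq.mp hxx v (by simp [hv])

/-- the correlation of a set of equations with a rectangle -/
lemma corr_sq {X Y : Finset (V → Bk)} {I : Finset V} (hX : Cst X I) (hY : Cst Y I)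
    (J : Finset ι) {a c : ℝ}
    (ha : ∀ x0 ∈ X, ((X.filter fun x => rs (supp A J \ I) x = rs (supp A J \ I) x0).card : ℝ) ≤ a)
    (hc : ∀ y0 ∈ Y, ((Y.filter fun y => rs (supp A J \ I) y = rs (supp A J \ I) y0).card : ℝ) ≤ c)
    (ha0 : 0 ≤ a) :
    (∑ x ∈ X, ∑ y ∈ Y, eps A b J x y) ^ 2 ≤
      1024 ^ (supp A J \ I).card * (a * X.card) * (c * Y.card) := by
  rcases X.eq_empty_or_nonempty with h0 | ⟨x0, hx0⟩
  · rw [h0]
    simp
  rcases Y.eq_empty_or_nonempty with h0 | ⟨y0, hy0⟩
  · rw [h0]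
    simp
  have h1 : ∀ x ∈ X, ∀ y ∈ Y, eps A b J x y =
      (sg (∑ j ∈ J, b j) * chi (supp A J ∩ I) x0 y0) * chi (supp A J \ I) x y := by
    intro x hx y hy
    rw [eps_chi, mul_assoc]
    congr 1
    have h2 : chi (supp A J ∩ I) x0 y0 = chi (supp A J ∩ I) x y := by
      unfold chi
      refine Finset.prod_congr rfl fun v hv => ?_
      have hv2 := (Finset.mem_inter.mp hv).2
      rw [hX x hx x0 hx0 v hv2, hY y hy y0 hy0 v hv2]
    rw [h2]
    unfold chi
    exact (Finset.prod_inter_mul_prod_sdiff (supp A J) I fun v => sg (ipz (x v) (y v))).symm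
  have h2 : ∑ x ∈ X, ∑ y ∈ Y, eps A b J x y =
      (sg (∑ j ∈ J, b j) * chi (supp A J ∩ I) x0 y0) *
        ∑ x ∈ X, ∑ y ∈ Y, chi (supp A J \ I) x y := by
    rw [Finset.mul_sum]
    refine Finset.sum_congr rfl fun x hx => ?_
    rw [Finset.mul_sum]
    exact Finset.sum_congr rfl fun y hy => h1 x hx y hy
  have h3 : (sg (∑ j ∈ J, b j) * chi (supp A J ∩ I) x0 y0) ^ 2 = 1 := by
    have h4 : (sg (∑ j ∈ J, b j)) ^ 2 = 1 := by rw [sq, sg_sq]
    have h5 : (chi (supp A J ∩ I) x0 y0) ^ 2 = 1 := by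
      unfold chi
      rw [← Finset.prod_pow]
      exact Finset.prod_eq_one fun v _ => by rw [sq, sg_sq]
    rw [mul_pow, h4, h5, one_mul]
  rw [h2, mul_pow, h3, one_mul]
  exact lind _ X Y ha hc ha0

/-- no small set of blocks has a likely value -/
def Dns (X : Finset (V → Bk)) (I : Finset V) : Prop :=
  ∀ S : Finset V, Disjoint S I → ∀ x0 ∈ X,
    64 ^ S.card * (X.filter fun x => rs S x = rs S x0).card ≤ X.card

/-- the correlation with a dense rectangle -/
lemma corr_dense {X Y : Finset (V → Bk)} {I : Finset V} (hX : Cst X I) (hY : Cst Y I)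
    (hdX : Dns X I) (hdY : Dns Y I) (J : Finset ι) :
    |∑ x ∈ X, ∑ y ∈ Y, eps A b J x y| ≤ X.card * Y.card * (1 / 2) ^ (supp A J \ I).card := by
  have hfib : ∀ Z : Finset (V → Bk), Dns Z I → ∀ x0 ∈ Z,
      ((Z.filter fun x => rs (supp A J \ I) x = rs (supp A J \ I) x0).card : ℝ) ≤
        Z.card / 64 ^ (supp A J \ I).card := by
    intro Z hZ x0 hx0
    rw [le_div_iff₀ (by positivity), mul_comm]
    exact_mod_cast hZ (supp A J \ I) Finset.sdiff_disjoint x0 hx0
  have h1 := corr_sq (A := A) (b := b) hX hY J (hfib X hdX) (hfib Y hdY) (by positivity)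
  refine abs_le_of_sq_le_sq ?_ (by positivity)
  refine h1.trans (le_of_eq ?_)
  have h2 : ∀ s : ℕ, (1024 : ℝ) ^ s = 32 ^ s * 32 ^ s := fun s => by rw [← mul_pow]; norm_num
  have h3 : ∀ s : ℕ, (64 : ℝ) ^ s = 32 ^ s * 2 ^ s := fun s => by rw [← mul_pow]; norm_num
  rw [h2, h3, one_div, inv_pow]
  field_simp

/-- the correlation with an arbitrary rectangle -/
lemma corr_any (X Y : Finset (V → Bk)) (J : Finset ι) :
    |∑ x ∈ X, ∑ y ∈ Y, eps A b J x y| ≤
      1024 ^ Fintype.card V * (Real.sqrt X.card * Real.sqrt Y.card) *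
        (1 / 32) ^ (supp A J).card := by
  obtain ⟨s, hs⟩ : ∃ s, s = (supp A J).card := ⟨_, rfl⟩
  have hsV : s ≤ Fintype.card V := by rw [hs]; exact Finset.card_le_univ _
  obtain ⟨t, ht⟩ := Nat.exists_eq_add_of_le hsV
  have hfib : ∀ Z : Finset (V → Bk), ∀ x0 ∈ Z,
      ((Z.filter fun x => rs (supp A J \ ∅) x = rs (supp A J \ ∅) x0).card : ℝ) ≤ 1024 ^ t := by
    intro Z x0 _
    have h1 : Cst (Z.filter fun x => rs (supp A J \ ∅) x = rs (supp A J \ ∅) x0) (supp A J) := by
      intro x hx x' hx' v hv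
      have h2 := (Finset.mem_filter.mp hx).2
      have h3 := (Finset.mem_filter.mp hx').2
      exact rs_eq.mp (h2.trans h3.symm) v (by simpa using hv)
    have h2 := h1.card_le
    rw [Finset.card_sdiff_of_subset (Finset.subset_univ _), Finset.card_univ, ← hs, ht,
      Nat.add_sub_cancel_left] at h2
    exact_mod_cast h2
  have h1 := corr_sq (A := A) (b := b) (I := ∅) (X := X) (Y := Y) (by intro x _ x' _ v hv; simp at hv)
    (by intro x _ x' _ v hv; simp at hv) J (hfib X) (hfib Y) (by positivity)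
  refine abs_le_of_sq_le_sq ?_ (by positivity)
  refine h1.trans (le_of_eq ?_)
  rw [Finset.sdiff_empty, ← hs, ht]
  have h2 : ∀ s : ℕ, (1024 : ℝ) ^ s = 32 ^ s * 32 ^ s := fun s => by rw [← mul_pow]; norm_num
  have h4 : Real.sqrt X.card ^ 2 = X.card := Real.sq_sqrt (Nat.cast_nonneg _)
  have h5 : Real.sqrt Y.card ^ 2 = Y.card := Real.sq_sqrt (Nat.cast_nonneg _)
  rw [mul_pow, mul_pow, mul_pow, h4, h5, pow_add, h2 s, h2 t, one_div, inv_pow]
  field_simp

end Pool.Agent.J4H24.CA
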