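import Pool.Agent.J4H24.CA.Cpl

/-!
# Walks in a refutation
-/

namespace Pool.Agent.J4H24.CA

open Finset Pool.Agent.J4H24.PR Pool.Agent.J4H24.SA Pool.Agent.J4H24.NS

set_option linter.unusedSectionVars false

variable {V ι : Type} [Fintype V] [DecidableEq V] [Fintype ι] [DecidableEq ι]
  {g r : ℕ} {R : ι → Fin (8 * g) → V} {b : ι → ZMod 2} {σ : Type} [Fintype σ] [DecidableEq σ]
  {n : ℕ} {e : V × Bool × Fin 10 → Fin n}

open Classical in
/-- the walk along an assignment, with a bound for the cost -/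
noncomputable def wk (lf : σ → Prop) (τ : σ → ℕ) (nx : σ → (Fin n → Bool) → σ)
    (x : Fin n → Bool) : ℕ → ℕ → σ → σ
  | 0, _, v => v
  | f + 1, c, v => if lf v ∨ c < τ v then v else wk lf τ nx x f (c - τ v) (nx v x)

open Classical in
lemma wk_succ (lf : σ → Prop) (τ : σ → ℕ) (nx : σ → (Fin n → Bool) → σ)
    (x : Fin n → Bool) (f c : ℕ) (v : σ) : wk lf τ nx x (f + 1) c v =
      if lf v ∨ c < τ v then v else wk lf τ nx x f (c - τ v) (nx v x) := rfl

/-- the branching has cost `B` -/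
def Brn (e : V × Bool × Fin 10 → Fin n) (B : ℕ) (nx : (Fin n → Bool) → σ) : Prop :=
  ∀ (K : ℕ) (f : σ → (V → Bk) → (V → Bk) → ℝ), (∀ w, Bks K (f w)) →
    Bks (B * K) (fun x y => f (nx (ax e x y)) x y)

lemma wk_bks {lf : σ → Prop} {τ : σ → ℕ} {nx : σ → (Fin n → Bool) → σ}
    (h : ∀ v, ¬ lf v → Brn e (2 ^ τ v) (nx v)) (Z : Set σ)
    [DecidablePred (· ∈ Z)] (f : ℕ) :
    ∀ c v, Bks (2 ^ c) (fun x y : V → Bk =>
      if wk lf τ nx (ax e x y) f c v ∈ Z then (1 : ℝ) else 0) := by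
  classical
  have hst : ∀ (c : ℕ) (v : σ), Bks (2 ^ c) (fun _ _ : V → Bk =>
      if v ∈ Z then (1 : ℝ) else 0) := by
    intro c v
    by_cases hv : v ∈ Z
    · exact (bks_one.mono (Nat.one_le_pow _ _ (by norm_num))).congr fun x y => if_pos hv
    · exact (bks_zero.mono (Nat.zero_le _)).congr fun x y => if_neg hv
  induction f with
  | zero =>
    intro c v
    exact hst c v
  | succ f ih =>
    intro c v
    by_cases hv : lf v ∨ c < τ v
    · refine (hst c v).congr fun x y => ?_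
      rw [wk_succ, if_pos hv]
    · have hv' := hv
      push Not at hv
      have h1 := h v hv.1 _
        (fun w x y => if wk lf τ nx (ax e x y) f (c - τ v) w ∈ Z then (1 : ℝ) else 0)
        (ih (c - τ v))
      rw [← pow_add, Nat.add_sub_cancel' hv.2] at h1
      refine h1.congr fun x y => ?_
      rw [wk_succ, if_neg hv']

lemma wk_mem {lf : σ → Prop} {τ : σ → ℕ} {nx : σ → (Fin n → Bool) → σ}
    {S : σ → Set (Fin n → Bool)} {h ρ : σ → ℕ} {tm : ℕ} (htm : ∀ v, ¬ lf v → τ v ≤ tm)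
    (H4 : ∀ v, ¬ lf v → ∀ x ∈ S v, x ∈ S (nx v x) ∧ ρ (nx v x) < ρ v ∧ h (nx v x) + τ v ≤ h v)
    (f : ℕ) : ∀ c v x, x ∈ S v → ρ v < f →
      x ∈ S (wk lf τ nx x f c v) ∧
        (¬ lf (wk lf τ nx x f c v) → h (wk lf τ nx x f c v) + c ≤ h v + tm) := by
  classical
  induction f with
  | zero =>
    intro c v x _ hv
    exact absurd hv (Nat.not_lt_zero _)
  | succ f ih =>
    intro c v x hx hρ
    rw [wk_succ]
    by_cases hv : lf v ∨ c < τ v
    · rw [if_pos hv]
      refine ⟨hx, fun hn => ?_⟩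
      have h1 := htm v hn
      have h2 := hv.resolve_left hn
      omega
    · rw [if_neg hv]
      push Not at hv
      obtain ⟨h1, h2, h3⟩ := H4 v hv.1 x hx
      obtain ⟨h4, h5⟩ := ih (c - τ v) (nx v x) x h1 (by omega)
      refine ⟨h4, fun hn => ?_⟩
      have h6 := h5 hn
      have h7 := hv.2
      omega

lemma psi_rect (X Y : Finset (V → Bk)) :
    psi R b r (fun x y => if x ∈ X ∧ y ∈ Y then (1 : ℝ) else 0) = mu R b r X Y := by
  classical
  unfold psi mu
  rw [← Finset.sum_filter_add_sum_filter_not univ (fun x => x ∈ X)]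
  have h1 : ∑ x ∈ univ.filter (fun x : V → Bk => ¬ x ∈ X), ∑ y : V → Bk,
      (if x ∈ X ∧ y ∈ Y then (1 : ℝ) else 0) * Dr (sy R) b r x y = 0 := by
    refine Finset.sum_eq_zero fun x hx => Finset.sum_eq_zero fun y _ => ?_
    rw [if_neg (fun h => (Finset.mem_filter.mp hx).2 h.1), zero_mul]
  rw [h1, add_zero]
  have h2 : univ.filter (fun x : V → Bk => x ∈ X) = X := by ext x; simp
  rw [h2]
  refine Finset.sum_congr rfl fun x hx => ?_
  rw [← Finset.sum_filter_add_sum_filter_not univ (fun y => y ∈ Y)]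
  have h3 : ∑ y ∈ univ.filter (fun y : V → Bk => ¬ y ∈ Y),
      (if x ∈ X ∧ y ∈ Y then (1 : ℝ) else 0) * Dr (sy R) b r x y = 0 := by
    refine Finset.sum_eq_zero fun y hy => ?_
    rw [if_neg (fun h => (Finset.mem_filter.mp hy).2 h.2), zero_mul]
  rw [h3, add_zero]
  have h4 : univ.filter (fun y : V → Bk => y ∈ Y) = Y := by ext y; simp
  rw [h4]
  refine Finset.sum_congr rfl fun y hy => ?_
  show (if x ∈ X ∧ y ∈ Y then (1 : ℝ) else 0) * Dr (sy R) b r x y = Dr (sy R) b r x y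
  rw [if_pos ⟨hx, hy⟩, one_mul]

/-- the state of the argument: a rectangle inside the set of a node -/
def Good (R : ι → Fin (8 * g) → V) (b : ι → ZMod 2) (r : ℕ) (e : V × Bool × Fin 10 → Fin n)
    (S : σ → Set (Fin n → Bool)) (d : ℕ) (v : σ) (I : Finset V) (U : Finset ι)
    (X Y : Finset (V → Bk)) : Prop :=
  X.Nonempty ∧ Y.Nonempty ∧ Stt R r I U X Y ∧ (∀ x ∈ X, ∀ y ∈ Y, ax e x y ∈ S v) ∧
    1024 ^ Fintype.card V * rt X Y ≤ 2 ^ d * (wt g I U * mu R b r X Y)

/-- one phase of the argument -/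
lemma phase {l d L c tm Ku : ℕ} (hg : g = 2 * l) (hl : 1 ≤ l)
    (hE : ∀ U : Finset ι, U.card ≤ 2 * r → 7 * g * U.card ≤ (nb R U).card)
    (hz : (1 + (1 / 2 : ℝ) ^ (2 * g)) ^ Fintype.card ι ≤ 2)
    (hfam : (Fam ι r).card ≤ 2 ^ (l * r)) (hth : th ι g r ≤ (1 / 2) ^ (l * r))
    {nx : σ → (Fin n → Bool) → σ} {S : σ → Set (Fin n → Bool)} {h ρ τ : σ → ℕ} {lf : σ → Prop}
    (htm : ∀ v, ¬ lf v → τ v ≤ tm)
    (H1 : ∀ v, ¬ lf v → Brn e (2 ^ τ v) (nx v)) (H2 : ∀ v, Bks Ku (fun x y : V → Bk =>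
      (S v).indicator (fun _ => (1 : ℝ)) (ax e x y)))
    (H3 : ∀ v, lf v → ∃ i0 : ι, ∀ x y : V → Bk, ax e x y ∈ S v → eps (sy R) b {i0} x y = -1)
    (H4 : ∀ v, ¬ lf v → ∀ x ∈ S v, x ∈ S (nx v x) ∧ ρ (nx v x) < ρ v ∧ h (nx v x) + τ v ≤ h v)
    (hL : Fintype.card σ * Ku ≤ 2 ^ L)
    (hd : 1 + L + c + 142 * (d + 1) < l * r)
    {v : σ} {I0 : Finset V} {U0 : Finset ι} {X0 Y0 : Finset (V → Bk)}
    (h0 : Good R b r e S d v I0 U0 X0 Y0) :
    ∃ v' I' U' X' Y', Good R b r e S (d + L + 2) v' I' U' X' Y' ∧ h v' + c ≤ h v + tm := by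
  classical
  obtain ⟨T, hTc⟩ : ∃ T, T = c := ⟨_, rfl⟩
  obtain ⟨B, hBe⟩ : ∃ B, B = 2 ^ c := ⟨_, rfl⟩
  rw [← hTc] at hd
  have hB : 1 ≤ B := by
    rw [hBe]
    exact Nat.one_le_pow _ _ (by norm_num)
  have hT : B ≤ 2 ^ T := by rw [hBe, hTc]
  obtain ⟨hX0, hY0, hs0, hin0, hinv0⟩ := h0
  obtain ⟨I, U, X, Y, hX, hY, hXX, hYY, hs, hinv, hM⟩ := dense_state (b := b) hg hl hE hz hfam
    (by omega : d ≤ l * r) hX0 hY0 hs0 hinv0
  have hin : ∀ x ∈ X, ∀ y ∈ Y, ax e x y ∈ S v := fun x hx y hy => hin0 x (hXX hx) y (hYY hy)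
  obtain ⟨M, hMd⟩ : ∃ M : ℝ, M = 1024 ^ Fintype.card V * 1024 ^ Fintype.card V := ⟨_, rfl⟩
  have hM0 : 0 < M := by rw [hMd]; positivity
  rw [← hMd] at hM
  obtain ⟨m, hm⟩ : ∃ m, m = mu R b r X Y := ⟨_, rfl⟩
  rw [← hm] at hM
  have hm0 : 0 < m := by
    by_contra hcon
    push Not at hcon
    have : 2 ^ (142 * (d + 1)) * m ≤ 0 := mul_nonpos_of_nonneg_of_nonpos (by positivity) hcon
    linarith
  obtain ⟨E, hEE⟩ : ∃ E : ℝ, E = th ι g r * 1024 ^ Fintype.card V * 1024 ^ Fintype.card V :=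
    ⟨_, rfl⟩
  have hE0 : 0 ≤ E := by
    rw [hEE]
    exact mul_nonneg (mul_nonneg th_nonneg (by positivity)) (by positivity)
  have hEM : E ≤ (1 / 2) ^ (l * r) * M := by
    rw [hEE, hMd, mul_assoc]
    exact mul_le_mul_of_nonneg_right hth (by positivity)
  -- the total error
  obtain ⟨s, hs'⟩ : ∃ s : ℝ, s = Fintype.card σ := ⟨_, rfl⟩
  have hs1 : 1 ≤ s := by
    rw [hs']
    exact_mod_cast Fintype.card_pos_iff.mpr ⟨v⟩
  have herr : 2 * (s * ((Ku * B : ℕ) * E)) < m := by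
    have h1 : s * ((Ku * B : ℕ) : ℝ) ≤ 2 ^ (L + T) := by
      rw [hs']
      have h2 : Fintype.card σ * (Ku * B) ≤ 2 ^ (L + T) := by
        rw [pow_add, ← mul_assoc]
        exact Nat.mul_le_mul hL hT
      exact_mod_cast h2
    have h2 : 2 * (s * ((Ku * B : ℕ) * E)) ≤ 2 ^ (1 + L + T) * ((1 / 2) ^ (l * r) * M) := by
      calc 2 * (s * ((Ku * B : ℕ) * E)) = 2 * (s * ((Ku * B : ℕ) : ℝ)) * E := by ring
        _ ≤ 2 * 2 ^ (L + T) * ((1 / 2) ^ (l * r) * M) :=
            mul_le_mul (mul_le_mul_of_nonneg_left h1 (by norm_num)) hEM hE0 (by positivity)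
        _ = _ := by
            rw [add_assoc, pow_add (2 : ℝ) 1, pow_one]
    refine lt_of_le_of_lt h2 ?_
    have h3 : (2 : ℝ) ^ (1 + L + T) * 2 ^ (142 * (d + 1)) < 2 ^ (l * r) := by
      rw [← pow_add]
      exact pow_lt_pow_right₀ (by norm_num) hd
    have h4 : (0 : ℝ) < (1 / 2) ^ (l * r) := by positivity
    have h5 : ((1 : ℝ) / 2) ^ (l * r) * 2 ^ (l * r) = 1 := by
      rw [← mul_pow]
      norm_num
    calc (2 : ℝ) ^ (1 + L + T) * ((1 / 2) ^ (l * r) * M) ≤
        2 ^ (1 + L + T) * ((1 / 2) ^ (l * r) * (2 ^ (142 * (d + 1)) * m)) :=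
          mul_le_mul_of_nonneg_left (mul_le_mul_of_nonneg_left hM h4.le) (by positivity)
      _ = (2 ^ (1 + L + T) * 2 ^ (142 * (d + 1))) * ((1 / 2) ^ (l * r) * m) := by ring
      _ < 2 ^ (l * r) * ((1 / 2) ^ (l * r) * m) :=
          mul_lt_mul_of_pos_right h3 (mul_pos h4 hm0)
      _ = ((1 / 2) ^ (l * r) * 2 ^ (l * r)) * m := by ring
      _ = m := by rw [h5, one_mul]
  -- the choice of the node
  obtain ⟨rc, hrc⟩ : ∃ rc : (V → Bk) → (V → Bk) → ℝ,
      rc = fun x y => if x ∈ X ∧ y ∈ Y then (1 : ℝ) else 0 := ⟨_, rfl⟩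
  have hrcb : Bks 1 rc := by rw [hrc]; exact bks_rect X Y
  have hrcp : psi R b r rc = m := by rw [hrc, hm]; exact psi_rect X Y
  obtain ⟨F, hF⟩ : ∃ F : σ → (V → Bk) → (V → Bk) → ℝ,
      F = fun w x y => rc x y *
        if wk lf τ nx (ax e x y) (ρ v + 1) c v ∈ ({w} : Set σ) then (1 : ℝ) else 0 :=
    ⟨_, rfl⟩
  have hFs : ∑ w, psi R b r (F w) = m := by
    rw [← hrcp]
    have h1 := psi_lin (R := R) (b := b) (r := r) (univ : Finset σ) (fun _ => (1 : ℝ)) F
    simp only [one_mul] at h1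
    rw [← h1]
    congr 1
    funext x y
    rw [hF]
    simp only
    rw [← Finset.mul_sum]
    have : ∑ w : σ, (if wk lf τ nx (ax e x y) (ρ v + 1) c v ∈ ({w} : Set σ)
        then (1 : ℝ) else 0) = 1 := by
      simp only [Set.mem_singleton_iff]
      rw [Finset.sum_ite_eq]
      simp
    rw [this, mul_one]
  obtain ⟨w, hw⟩ : ∃ w, m ≤ s * psi R b r (F w) := by
    by_contra hcon
    push Not at hcon
    have h1 : ∑ w, s * psi R b r (F w) < ∑ w : σ, m :=
      Finset.sum_lt_sum_of_nonempty ⟨v, mem_univ v⟩ fun w _ => hcon w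
    rw [← Finset.mul_sum, hFs, Finset.sum_const, nsmul_eq_mul, Finset.card_univ, ← hs'] at h1
    exact lt_irrefl _ h1
  have hFw0 : 0 < psi R b r (F w) := by
    by_contra hcon
    push Not at hcon
    have : s * psi R b r (F w) ≤ 0 := mul_nonpos_of_nonneg_of_nonpos (by linarith) hcon
    linarith
  have hwk := fun x (hx : x ∈ X) y (hy : y ∈ Y) =>
    wk_mem htm H4 (ρ v + 1) c v (ax e x y) (hin x hx y hy) (Nat.lt_succ_self _)
  -- the set of the node
  obtain ⟨G, hG⟩ : ∃ G : (V → Bk) → (V → Bk) → ℝ,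
      G = fun x y => rc x y * (S w).indicator (fun _ => (1 : ℝ)) (ax e x y) := ⟨_, rfl⟩
  obtain ⟨H, hH⟩ : ∃ H : (V → Bk) → (V → Bk) → ℝ,
      H = fun x y => G x y *
        if wk lf τ nx (ax e x y) (ρ v + 1) c v ∈ ({w}ᶜ : Set σ) then (1 : ℝ) else 0 :=
    ⟨_, rfl⟩
  have hGb : Bks Ku G := by
    rw [hG]
    exact (hrcb.mul (H2 w)).mono (by omega)
  have hHb : Bks (Ku * B) H := by
    rw [hH]
    rw [hBe]
    exact hGb.mul (wk_bks H1 _ (ρ v + 1) c v)
  have hGFH : psi R b r G = psi R b r (F w) + psi R b r H := by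
    unfold psi
    rw [← Finset.sum_add_distrib]
    refine Finset.sum_congr rfl fun x _ => ?_
    rw [← Finset.sum_add_distrib]
    refine Finset.sum_congr rfl fun y _ => ?_
    rw [← add_mul]
    congr 1
    rw [hF, hH, hG, hrc]
    simp only [Set.mem_singleton_iff, Set.mem_compl_iff]
    by_cases h1 : x ∈ X ∧ y ∈ Y
    · rw [if_pos h1]
      by_cases h2 : wk lf τ nx (ax e x y) (ρ v + 1) c v = w
      · have h3 := (hwk x h1.1 y h1.2).1
        rw [h2] at h3
        rw [if_pos h2, if_neg (not_not.mpr h2), Set.indicator_of_mem h3]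
        norm_num
      · rw [if_neg h2, if_pos h2]
        ring
    · rw [if_neg h1]
      ring
  have hHp := psi_ge (b := b) hE hz hHb
  rw [← hEE] at hHp
  have hGp : m < 2 * (s * psi R b r G) := by
    rw [hGFH]
    have h1 : s * (-((Ku * B : ℕ) * E)) ≤ s * psi R b r H :=
      mul_le_mul_of_nonneg_left hHp (by linarith)
    have h2 : s * (-((Ku * B : ℕ) * E)) = -(s * ((Ku * B : ℕ) * E)) := by ring
    rw [h2] at h1
    rw [mul_add]
    linarith
  have hG0 : 0 < psi R b r G := by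
    by_contra hcon
    push Not at hcon
    have : s * psi R b r G ≤ 0 := mul_nonpos_of_nonneg_of_nonpos (by linarith) hcon
    linarith
  -- the node is not a leaf
  have hlf : ¬ lf w := by
    intro hlf
    obtain ⟨i0, hi0⟩ := H3 w hlf
    have h1 := psi_viol (b := b) hE hGb i0 (by
      intro x y hxy
      refine hi0 x y ?_
      by_contra hcon
      apply hxy
      rw [hG]
      simp only
      rw [Set.indicator_of_notMem hcon, mul_zero])
    rw [← hEE] at h1
    have h2 := (abs_le.mp h1).2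
    have h3 : (Ku : ℝ) * E ≤ (Ku * B : ℕ) * E := by
      refine mul_le_mul_of_nonneg_right ?_ hE0
      have : Ku ≤ Ku * B := Nat.le_mul_of_pos_right _ hB
      exact_mod_cast this
    have h4 : s * psi R b r G ≤ s * ((Ku * B : ℕ) * E) :=
      mul_le_mul_of_nonneg_left (h2.trans h3) (by linarith)
    linarith
  -- the walk is long
  have hdepth : h w + c ≤ h v + tm := by
    by_contra hcon
    have h1 : ∀ x y, F w x y = 0 := by
      intro x y
      by_contra h2
      rw [hF, hrc] at h2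
      simp only [Set.mem_singleton_iff] at h2
      by_cases h3 : x ∈ X ∧ y ∈ Y
      · by_cases h4 : wk lf τ nx (ax e x y) (ρ v + 1) c v = w
        · have h5 := (hwk x h3.1 y h3.2).2
          rw [h4] at h5
          exact hcon (h5 hlf)
        · rw [if_neg h4, mul_zero] at h2
          exact h2 rfl
      · rw [if_neg h3, zero_mul] at h2
        exact h2 rfl
    have h2 : psi R b r (F w) = 0 := by
      unfold psi
      exact Finset.sum_eq_zero fun x _ => Finset.sum_eq_zero fun y _ => by rw [h1, zero_mul]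
    linarith
  -- the choice of the rectangle
  obtain ⟨X', Y', hX', hY', hXn, hYn, hne, hrat⟩ := hGb.rect (R := R) (b := b) (r := r)
    (X := X) (Y := Y) (by
      intro x y hxy
      by_contra hcon
      apply hxy
      rw [hG, hrc]
      simp only
      rw [if_neg hcon, zero_mul]) hG0
  refine ⟨w, I, U, X', Y', ⟨hXn, hYn, ⟨hs.1.mono hX', hs.2.1.mono hY', hs.2.2⟩, ?_, ?_⟩, hdepth⟩
  · intro x hx y hy
    by_contra hcon
    apply hne x hx y hy
    rw [hG]
    simp only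
    rw [Set.indicator_of_notMem hcon, mul_zero]
  · have hq := rt_pos hX hY
    have hq' := rt_pos hXn hYn
    obtain ⟨m', hm'⟩ : ∃ m', m' = mu R b r X' Y' := ⟨_, rfl⟩
    rw [← hm'] at hrat ⊢
    rw [← hm] at hinv
    obtain ⟨p, hp⟩ : ∃ p, p = psi R b r G := ⟨_, rfl⟩
    rw [← hp] at hrat hG0 hGp
    have hw0 := wt_pos (g := g) I U
    have hm'0 : 0 < m' := by
      by_contra hcon
      push Not at hcon
      have h1 : 2 * (Ku : ℝ) * rt X Y * m' ≤ 0 :=
        mul_nonpos_of_nonneg_of_nonpos (by positivity) hcon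
      have h2 : 0 < p * rt X' Y' := mul_pos hG0 hq'
      linarith
    have hsK : s * (Ku : ℝ) ≤ 2 ^ L := by
      rw [hs']
      exact_mod_cast hL
    refine le_of_mul_le_mul_right ?_ hq
    calc 1024 ^ Fintype.card V * rt X' Y' * rt X Y =
        (1024 ^ Fintype.card V * rt X Y) * rt X' Y' := by ring
      _ ≤ (2 ^ d * (wt g I U * m)) * rt X' Y' := mul_le_mul_of_nonneg_right hinv hq'.le
      _ ≤ (2 ^ d * (wt g I U * (2 * (s * p)))) * rt X' Y' := by
          refine mul_le_mul_of_nonneg_right ?_ hq'.le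
          exact mul_le_mul_of_nonneg_left (mul_le_mul_of_nonneg_left hGp.le hw0.le)
            (by positivity)
      _ = 2 ^ d * wt g I U * 2 * s * (p * rt X' Y') := by ring
      _ ≤ 2 ^ d * wt g I U * 2 * s * (2 * Ku * rt X Y * m') :=
          mul_le_mul_of_nonneg_left hrat (by positivity)
      _ = (2 ^ d * wt g I U * m' * 4 * rt X Y) * (s * Ku) := by ring
      _ ≤ (2 ^ d * wt g I U * m' * 4 * rt X Y) * 2 ^ L :=
          mul_le_mul_of_nonneg_left hsK (by positivity)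
      _ = _ := by
          rw [pow_add, pow_add]
          ring

end Pool.Agent.J4H24.CA
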